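import Pool.Agent.Lib.MP_abca01_gt.Defs

/-!
# Linking, 10: discretisation of a measure on a closed hemisphere
-/

set_option autoImplicit false

open MeasureTheory Set Metric Filter Topology
open scoped RealInnerProductSpace Pointwise

namespace Pool.Agent.Lib.MP_abca01_gt.Link

variable {E : Type} [NormedAddCommGroup E] [InnerProductSpace ℝ E] [FiniteDimensional ℝ E]
  [MeasurableSpace E] [BorelSpace E]

/-- A measurable map to a finite net. -/
theorem exists_net {H : Set E} (T : Finset E) (hT : T.Nonempty) {ε : ℝ}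
    (hH : ∀ u ∈ H, ∃ t ∈ T, dist u t < ε) :
    ∃ φ : E → E, Measurable φ ∧ (∀ u, φ u ∈ T) ∧ ∀ u ∈ H, ‖u - φ u‖ ≤ ε := by
  obtain ⟨e, he⟩ := (T.finite_toSet.countable).exists_eq_range
    (show (T : Set E).Nonempty from hT)
  have hex : ∀ t : E, ∃ k, t ∈ T → e k = t := by
    intro t
    by_cases ht : t ∈ T
    · have h1 : t ∈ range e := by rw [← he]; exact ht
      obtain ⟨k, hk⟩ := h1
      exact ⟨k, fun _ => hk⟩
    · exact ⟨0, fun h => absurd h ht⟩
  choose k hk using hex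
  refine ⟨SimpleFunc.nearestPt e (T.sup k), (SimpleFunc.nearestPt e (T.sup k)).measurable, ?_, ?_⟩
  · intro u
    have h1 : SimpleFunc.nearestPt e (T.sup k) u ∈ range e := ⟨_, rfl⟩
    rw [← he] at h1
    exact h1
  · intro u hu
    obtain ⟨t, ht, hut⟩ := hH u hu
    have h1 := SimpleFunc.edist_nearestPt_le e u (Finset.le_sup (f := k) ht)
    rw [hk t ht, edist_dist, edist_dist, ENNReal.ofReal_le_ofReal_iff dist_nonneg,
      dist_comm, dist_comm t u, dist_eq_norm] at h1
    linarith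

theorem exists_discrete {mu : Measure E} [IsFiniteMeasure mu]
    (hsph : mu (sphere (0 : E) 1)ᶜ = 0) {v : E} (hht : mu {u | ⟪u, v⟫ < 0} = 0)
    (P : Finset E) (hP : ∀ p ∈ P, ‖p‖ = 1 ∧ 0 ≤ ⟪p, v⟫) (hPne : P.Nonempty) {ε : ℝ}
    (hε : 0 < ε) :
    ∃ (T : Finset E) (m : E → ℝ), P ⊆ T ∧ (∀ t ∈ T, ‖t‖ = 1 ∧ 0 ≤ ⟪t, v⟫ ∧ 0 < m t) ∧
      ∑ t ∈ T, m t = mu.real univ + ε ∧
      (∀ S S' : Set E, (∀ t ∈ S, ∀ u, ‖u‖ = 1 → ‖u - t‖ ≤ ε → u ∈ S') →
        ∑ t ∈ T, m t * S.indicator 1 t ≤ mu.real S' + ε) ∧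
      (∀ S S' : Set E, (∀ u ∈ S, ∀ t, ‖t‖ = 1 → ‖u - t‖ ≤ ε → t ∈ S') →
        mu.real S ≤ ∑ t ∈ T, m t * S'.indicator 1 t) := by
  classical
  set H : Set E := sphere (0 : E) 1 ∩ {u | 0 ≤ ⟪u, v⟫} with hH
  have hHc : IsCompact H :=
    (isCompact_sphere (0 : E) 1).inter_right (isClosed_le continuous_const (by fun_prop))
  obtain ⟨N0, hN0, hN0f, hcov⟩ := hHc.finite_cover_balls hε
  set T : Finset E := hN0f.toFinset ∪ P with hT
  have hTne : T.Nonempty := hPne.mono Finset.subset_union_right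
  have hTH : ∀ t ∈ T, ‖t‖ = 1 ∧ 0 ≤ ⟪t, v⟫ := by
    intro t ht
    rcases Finset.mem_union.1 ht with h | h
    · have h1 := hN0 (hN0f.mem_toFinset.1 h)
      exact ⟨by simpa using h1.1, h1.2⟩
    · exact hP t h
  obtain ⟨φ, hφ, hφT, hφd⟩ := exists_net (H := H) T hTne (ε := ε) (by
    intro u hu
    obtain ⟨t, ht, hut⟩ := mem_iUnion₂.1 (hcov hu)
    exact ⟨t, Finset.mem_union_left _ (hN0f.mem_toFinset.2 ht), hut⟩)
  have hae : ∀ᵐ u ∂mu, u ∈ H := by
    have e1 : ∀ᵐ u ∂mu, u ∈ sphere (0 : E) 1 := hsph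
    have e2 : ∀ᵐ u ∂mu, ¬ ⟪u, v⟫ < 0 := by
      rw [ae_iff]
      simpa using hht
    filter_upwards [e1, e2] with u h1 h2
    exact ⟨h1, not_lt.1 h2⟩
  have hcard : (0 : ℝ) < T.card := by exact_mod_cast hTne.card_pos
  -- the preimage of a set
  have hpre : ∀ S : Set E, mu.real (φ ⁻¹' S) =
      ∑ t ∈ T, mu.real (φ ⁻¹' {t}) * S.indicator 1 t := by
    intro S
    have h1 : φ ⁻¹' S = ⋃ t ∈ T.filter (fun t => t ∈ S), φ ⁻¹' {t} := by
      ext u
      simp only [mem_preimage, Finset.mem_filter, mem_iUnion, mem_singleton_iff, exists_prop]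
      constructor
      · intro hu
        exact ⟨φ u, ⟨hφT u, hu⟩, rfl⟩
      · rintro ⟨t, ⟨-, ht⟩, rfl⟩
        exact ht
    rw [h1, measureReal_biUnion_finset]
    · rw [Finset.sum_filter]
      refine Finset.sum_congr rfl fun t _ => ?_
      split_ifs with h
      · rw [indicator_of_mem h, Pi.one_apply, mul_one]
      · rw [indicator_of_notMem h, mul_zero]
    · intro s _ t _ hst
      rw [Function.onFun, Set.disjoint_left]
      intro u hu hu'
      exact hst (by
        rw [mem_preimage, mem_singleton_iff] at hu hu'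
        rw [← hu, ← hu'])
    · intro t _
      exact hφ (measurableSet_singleton t)
  obtain ⟨m, hm⟩ : ∃ m : E → ℝ, ∀ t, m t = mu.real (φ ⁻¹' {t}) + ε / T.card := ⟨_, fun _ => rfl⟩
  have hmS : ∀ S : Set E, ∑ t ∈ T, m t * S.indicator 1 t =
      mu.real (φ ⁻¹' S) + ε / T.card * ∑ t ∈ T, S.indicator 1 t := by
    intro S
    rw [hpre S, Finset.mul_sum, ← Finset.sum_add_distrib]
    refine Finset.sum_congr rfl fun t _ => ?_
    rw [hm]
    ring
  have hind : ∀ S : Set E, 0 ≤ ∑ t ∈ T, S.indicator (1 : E → ℝ) t ∧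
      ∑ t ∈ T, S.indicator (1 : E → ℝ) t ≤ T.card := by
    intro S
    constructor
    · exact Finset.sum_nonneg fun t _ => indicator_nonneg (fun _ _ => zero_le_one) t
    · have h1 : ∀ t ∈ T, S.indicator (1 : E → ℝ) t ≤ 1 := by
        intro t _
        by_cases h : t ∈ S
        · rw [indicator_of_mem h, Pi.one_apply]
        · rw [indicator_of_notMem h]
          exact zero_le_one
      have h2 := Finset.sum_le_sum h1
      rwa [Finset.sum_const, nsmul_eq_mul, mul_one] at h2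
  refine ⟨T, m, Finset.subset_union_right, ?_, ?_, ?_, ?_⟩
  · intro t ht
    refine ⟨(hTH t ht).1, (hTH t ht).2, ?_⟩
    have h1 : 0 ≤ mu.real (φ ⁻¹' {t}) := measureReal_nonneg
    have h2 : 0 < ε / T.card := div_pos hε hcard
    rw [hm]
    linarith
  · have h1 := hmS univ
    have h2 : ∀ t ∈ T, m t * (univ : Set E).indicator 1 t = m t := by
      intro t _
      rw [indicator_of_mem (mem_univ t), Pi.one_apply, mul_one]
    have h3 : ∑ t ∈ T, (univ : Set E).indicator (1 : E → ℝ) t = T.card := by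
      have h4 : ∀ t ∈ T, (univ : Set E).indicator (1 : E → ℝ) t = 1 := by
        intro t _
        rw [indicator_of_mem (mem_univ t), Pi.one_apply]
      rw [Finset.sum_congr rfl h4, Finset.sum_const, nsmul_eq_mul, mul_one]
    rw [Finset.sum_congr rfl h2, preimage_univ, h3, div_mul_cancel₀ _ hcard.ne'] at h1
    exact h1
  · intro S S' hSS
    rw [hmS S]
    have h1 : mu.real (φ ⁻¹' S) ≤ mu.real S' := by
      apply ENNReal.toReal_mono (measure_ne_top mu _)
      apply measure_mono_ae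
      filter_upwards [hae] with u hu hmem
      exact hSS (φ u) hmem u (by simpa using hu.1) (hφd u hu)
    have h2 : ε / T.card * ∑ t ∈ T, S.indicator (1 : E → ℝ) t ≤ ε / T.card * T.card :=
      mul_le_mul_of_nonneg_left (hind S).2 (div_pos hε hcard).le
    rw [div_mul_cancel₀ _ hcard.ne'] at h2
    linarith
  · intro S S' hSS
    rw [hmS S']
    have h1 : mu.real S ≤ mu.real (φ ⁻¹' S') := by
      apply ENNReal.toReal_mono (measure_ne_top mu _)
      apply measure_mono_ae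
      filter_upwards [hae] with u hu hmem
      exact hSS u hmem (φ u) (hTH _ (hφT u)).1 (hφd u hu)
    have h2 : 0 ≤ ε / T.card * ∑ t ∈ T, S'.indicator (1 : E → ℝ) t :=
      mul_nonneg (div_pos hε hcard).le (hind S').1
    linarith

end Pool.Agent.Lib.MP_abca01_gt.Link
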