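import Pool.Agent.Lib.MP_abca01_gt.Link.Miranda

/-!
# Linking, 2: the deformation argument
-/

set_option autoImplicit false

open Metric Filter Topology

namespace Pool.Agent.Lib.MP_abca01_gt.Link

/-- One step of the deformation. -/
theorem step {ι : Type} [Fintype ι] {F : (ι → ℝ) → ℝ} {G : (ι → ℝ) → ι → ℝ}
    {W A ε δ η c : ℝ} (hW : 0 < W) (hA : 0 ≤ A) (hδ : 0 < δ)
    (hη : 0 < η) (hη1 : η * W ≤ ε) (hη2 : A * (η * W ^ 2) ≤ δ / 4)
    (hη3 : Fintype.card ι * (W * (η * W)) + A * (η * W) ^ 2 ≤ 1)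
    (hc0 : 0 ≤ c) (hc1 : c ≤ 1)
    (hGW : ∀ x i, |G x i| ≤ W)
    (hD : ∀ x d : ι → ℝ, (∀ i, |d i| ≤ ε) →
      F (x + d) ≤ F x + ∑ i, G (x + d) i * d i + A * ‖d‖ ^ 2)
    {x : ι → ℝ} (hx : δ ≤ ∑ i, G x i ^ 2)
    (hU : ∀ y : ι → ℝ, ‖y - x‖ ≤ η * W → ∀ i, Fintype.card ι * (|G y i - G x i| * W) ≤ δ / 4) :
    F (x - (η * c) • G x) ≤ F x - η * c * δ / 2 ∧ ‖(x - (η * c) • G x) - x‖ ≤ η * c * W ∧
      F x - 1 ≤ F (x - (η * c) • G x) := by
  have hηc : 0 ≤ η * c := mul_nonneg hη.le hc0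
  have hηc1 : η * c ≤ η := mul_le_of_le_one_right hη.le hc1
  set d : ι → ℝ := -((η * c) • G x) with hd
  have hxd : x - (η * c) • G x = x + d := by rw [hd, sub_eq_add_neg]
  have hdi : ∀ i, |d i| ≤ η * c * W := by
    intro i
    simp only [hd, Pi.neg_apply, Pi.smul_apply, smul_eq_mul, abs_neg, abs_mul]
    rw [← abs_mul, abs_of_nonneg hηc]
    exact mul_le_mul_of_nonneg_left (hGW x i) hηc
  have hcW : η * c * W ≤ η * W := mul_le_mul_of_nonneg_right hηc1 hW.le
  have hdn : ‖d‖ ≤ η * c * W := (pi_norm_le_iff_of_nonneg (mul_nonneg hηc hW.le)).2 fun i => by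
    rw [Real.norm_eq_abs]
    exact hdi i
  have hdn2 : ‖d‖ ^ 2 ≤ (η * c * W) ^ 2 := pow_le_pow_left₀ (norm_nonneg _) hdn 2
  have hN : (0 : ℝ) ≤ Fintype.card ι := Nat.cast_nonneg _
  rw [hxd]
  refine ⟨?_, by rw [add_sub_cancel_left]; exact hdn, ?_⟩
  · have h1 := hD x d fun i => (hdi i).trans (hcW.trans hη1)
    have h2 : ∑ i, G (x + d) i * d i = -(η * c) * ∑ i, G x i ^ 2 -
        (η * c) * ∑ i, (G (x + d) i - G x i) * G x i := by
      rw [Finset.mul_sum, Finset.mul_sum, ← Finset.sum_sub_distrib]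
      refine Finset.sum_congr rfl fun i _ => ?_
      simp only [hd, Pi.neg_apply, Pi.smul_apply, smul_eq_mul]
      ring
    have h3 : -(δ / 4) ≤ ∑ i, (G (x + d) i - G x i) * G x i := by
      rcases isEmpty_or_nonempty ι with hι | hι
      · simp
        linarith
      · have hNpos : (0 : ℝ) < Fintype.card ι := by exact_mod_cast Fintype.card_pos
        have h4 : ∀ i ∈ Finset.univ, -(δ / 4 / Fintype.card ι) ≤ (G (x + d) i - G x i) * G x i := by
          intro i _
          have h5 := hU (x + d) (by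
            rw [add_sub_cancel_left]
            exact hdn.trans hcW) i
          have h6 : |G (x + d) i - G x i| * W ≤ δ / 4 / Fintype.card ι := by
            rw [le_div_iff₀ hNpos, mul_comm]
            exact h5
          have h7 : |(G (x + d) i - G x i) * G x i| ≤ |G (x + d) i - G x i| * W := by
            rw [abs_mul]
            exact mul_le_mul_of_nonneg_left (hGW x i) (abs_nonneg _)
          linarith [neg_abs_le ((G (x + d) i - G x i) * G x i)]
        have h5 := Finset.sum_le_sum h4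
        rw [Finset.sum_const, Finset.card_univ, nsmul_eq_mul] at h5
        have h6 : (Fintype.card ι : ℝ) * -(δ / 4 / Fintype.card ι) = -(δ / 4) := by field_simp
        linarith
    have h4 : A * ‖d‖ ^ 2 ≤ η * c * (δ / 4) := by
      calc A * ‖d‖ ^ 2 ≤ A * (η * c * W) ^ 2 := mul_le_mul_of_nonneg_left hdn2 hA
        _ = (η * c) * (c * (A * (η * W ^ 2))) := by ring
        _ ≤ (η * c) * (1 * (δ / 4)) := by
          apply mul_le_mul_of_nonneg_left _ hηc
          exact mul_le_mul hc1 hη2 (by positivity) zero_le_one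
        _ = η * c * (δ / 4) := by ring
    have h5 : η * c * δ ≤ η * c * ∑ i, G x i ^ 2 := mul_le_mul_of_nonneg_left hx hηc
    have h6 : η * c * -(δ / 4) ≤ (η * c) * ∑ i, (G (x + d) i - G x i) * G x i :=
      mul_le_mul_of_nonneg_left h3 hηc
    rw [h2] at h1
    nlinarith
  · have h1 := hD (x + d) (-d) fun i => by
      rw [Pi.neg_apply, abs_neg]
      exact (hdi i).trans (hcW.trans hη1)
    rw [add_neg_cancel_right, norm_neg] at h1
    have h2 : ∑ i, G x i * (-d) i ≤ Fintype.card ι * (W * (η * W)) := by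
      have h3 : ∀ i ∈ Finset.univ, G x i * (-d) i ≤ W * (η * W) := by
        intro i _
        refine (le_abs_self _).trans ?_
        rw [abs_mul, Pi.neg_apply, abs_neg]
        exact mul_le_mul (hGW x i) ((hdi i).trans hcW) (abs_nonneg _) hW.le
      have h4 := Finset.sum_le_sum h3
      rwa [Finset.sum_const, Finset.card_univ, nsmul_eq_mul] at h4
    have h3 : A * ‖d‖ ^ 2 ≤ A * (η * W) ^ 2 :=
      mul_le_mul_of_nonneg_left (pow_le_pow_left₀ (norm_nonneg _) (hdn.trans hcW) 2) hA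
    linarith

/-- The linking argument: a disc whose boundary is linked with the set `b = 0` cannot be deformed
below the level of the latter. -/
theorem deform {ι κ : Type} [Fintype ι] [Fintype κ]
    {F : (ι → ℝ) → ℝ} {G : (ι → ℝ) → ι → ℝ} {b : (ι → ℝ) → κ → ℝ} {γ : (κ → ℝ) → ι → ℝ}
    {W A ε m0 Λ δ : ℝ} (hF : Continuous F) (hG : Continuous G) (hb : Continuous b)
    (hγ : Continuous γ)
    (hW : 0 < W) (hA : 0 ≤ A) (hε : 0 < ε) (hδ : 0 < δ)
    (hGW : ∀ x i, |G x i| ≤ W)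
    (hD : ∀ x d : ι → ℝ, (∀ i, |d i| ≤ ε) →
      F (x + d) ≤ F x + ∑ i, G (x + d) i * d i + A * ‖d‖ ^ 2)
    (hPS : ∀ x, F x ≤ Λ → δ ≤ ∑ i, G x i ^ 2)
    (hup : ∀ ξ, (∀ k, |ξ k| ≤ 1) → F (γ ξ) ≤ Λ)
    (hbal : ∀ x, b x = 0 → m0 ≤ F x)
    (hbd : ∀ ξ, (∀ k, |ξ k| ≤ 1) → ∀ k, |ξ k| = 1 → F (γ ξ) ≤ m0 - 1)
    (hs1 : ∀ ξ, (∀ k, |ξ k| ≤ 1) → ∀ k, ξ k = 1 → b (γ ξ) k ≤ 0)
    (hs2 : ∀ ξ, (∀ k, |ξ k| ≤ 1) → ∀ k, ξ k = -1 → 0 ≤ b (γ ξ) k) : False := by
  -- the starting disc is bounded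
  obtain ⟨R0, hR0, hR0'⟩ : ∃ R0 : ℝ, 0 ≤ R0 ∧ ∀ ξ : κ → ℝ, (∀ k, |ξ k| ≤ 1) → ‖γ ξ‖ ≤ R0 := by
    obtain ⟨R0, h⟩ := ((isCompact_closedBall (0 : κ → ℝ) 1).image hγ).isBounded.exists_norm_le
    refine ⟨max R0 0, le_max_right _ _, fun ξ hξ => (h _ ⟨ξ, ?_, rfl⟩).trans (le_max_left _ _)⟩
    rw [mem_closedBall_zero_iff, pi_norm_le_iff_of_nonneg zero_le_one]
    intro k
    rw [Real.norm_eq_abs]
    exact hξ k
  set T : ℝ := 2 * W / δ with hT
  have hTpos : 0 < T := by positivity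
  set R : ℝ := R0 + T * (|Λ - m0| + 2) with hR
  set N : ℝ := (Fintype.card ι : ℝ) with hN
  have hN0 : 0 ≤ N := Nat.cast_nonneg _
  -- uniform continuity
  obtain ⟨η1, hη1, hU⟩ : ∃ η1 : ℝ, 0 < η1 ∧ ∀ x y : ι → ℝ, ‖x‖ ≤ R → ‖y - x‖ ≤ η1 →
      ∀ i, N * (|G y i - G x i| * W) ≤ δ / 4 := by
    have h1 := (isCompact_closedBall (0 : ι → ℝ) (R + 1)).uniformContinuousOn_of_continuous
      hG.continuousOn
    rw [Metric.uniformContinuousOn_iff] at h1
    obtain ⟨η1, hη1, h2⟩ := h1 (δ / (4 * (N + 1) * W)) (by positivity)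
    refine ⟨min (η1 / 2) 1, by positivity, fun x y hx hxy i => ?_⟩
    have h3 : ‖y - x‖ ≤ 1 := hxy.trans (min_le_right _ _)
    have h4 : ‖y - x‖ < η1 := by
      have := hxy.trans (min_le_left _ _)
      linarith
    have h5 : ‖y‖ ≤ R + 1 := by
      calc ‖y‖ = ‖x + (y - x)‖ := by congr 1; abel
        _ ≤ ‖x‖ + ‖y - x‖ := norm_add_le _ _
        _ ≤ R + 1 := by linarith
    have h6 := h2 y (by rwa [mem_closedBall_zero_iff]) x
      (by rw [mem_closedBall_zero_iff]; linarith) (by rwa [dist_eq_norm])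
    rw [dist_eq_norm] at h6
    have h7 : |G y i - G x i| ≤ δ / (4 * (N + 1) * W) := by
      have h8 := norm_le_pi_norm (G y - G x) i
      rw [Real.norm_eq_abs, Pi.sub_apply] at h8
      linarith
    have h8 : N * (|G y i - G x i| * W) ≤ (N + 1) * (δ / (4 * (N + 1) * W) * W) := by
      apply mul_le_mul (by linarith) (mul_le_mul_of_nonneg_right h7 hW.le) (by positivity)
        (by positivity)
    have h9 : (N + 1) * (δ / (4 * (N + 1) * W) * W) = δ / 4 := by field_simp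
    linarith
  -- the step size
  obtain ⟨η, hη, hηa, hηb, hηc, hηd⟩ : ∃ η : ℝ, 0 < η ∧ η * W ≤ ε ∧ η * W ≤ η1 ∧
      A * (η * W ^ 2) ≤ δ / 4 ∧ N * (W * (η * W)) + A * (η * W) ^ 2 ≤ 1 := by
    have e1 : Tendsto (fun η : ℝ => η * W) (𝓝[>] 0) (𝓝 0) := by
      have : Tendsto (fun η : ℝ => η * W) (𝓝 0) (𝓝 (0 * W)) := by
        exact (continuous_id.mul continuous_const).tendsto 0
      rw [zero_mul] at this
      exact this.mono_left nhdsWithin_le_nhds
    have e2 : Tendsto (fun η : ℝ => A * (η * W ^ 2)) (𝓝[>] 0) (𝓝 0) := by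
      have : Tendsto (fun η : ℝ => A * (η * W ^ 2)) (𝓝 0) (𝓝 (A * (0 * W ^ 2))) := by
        exact (by fun_prop : Continuous fun η : ℝ => A * (η * W ^ 2)).tendsto 0
      rw [zero_mul, mul_zero] at this
      exact this.mono_left nhdsWithin_le_nhds
    have e3 : Tendsto (fun η : ℝ => N * (W * (η * W)) + A * (η * W) ^ 2) (𝓝[>] 0) (𝓝 0) := by
      have : Tendsto (fun η : ℝ => N * (W * (η * W)) + A * (η * W) ^ 2) (𝓝 0)
          (𝓝 (N * (W * (0 * W)) + A * (0 * W) ^ 2)) := by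
        exact (by fun_prop : Continuous fun η : ℝ =>
          N * (W * (η * W)) + A * (η * W) ^ 2).tendsto 0
      have h0 : N * (W * (0 * W)) + A * (0 * W) ^ 2 = 0 := by ring
      rw [h0] at this
      exact this.mono_left nhdsWithin_le_nhds
    have hδ4 : 0 < δ / 4 := by positivity
    obtain ⟨η, h1, h2, h3, h4, h5⟩ := (((e1.eventually (gt_mem_nhds hε)).and
      ((e1.eventually (gt_mem_nhds hη1)).and ((e2.eventually (gt_mem_nhds hδ4)).and
      ((e3.eventually (gt_mem_nhds one_pos)).and self_mem_nhdsWithin)))).exists)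
    exact ⟨η, h5, h1.le, h2.le, h3.le, h4.le⟩
  let χ : ℝ → ℝ := fun s => min 1 (max 0 (s - (m0 - 1)))
  have hχ : Continuous χ := by fun_prop
  have hχ0 : ∀ s, 0 ≤ χ s := fun s => le_min zero_le_one (le_max_left _ _)
  have hχ1 : ∀ s, χ s ≤ 1 := fun s => min_le_left _ _
  have hχa : ∀ s, s ≤ m0 - 1 → χ s = 0 := by
    intro s hs
    simp only [χ]
    rw [max_eq_left (by linarith)]
    exact min_eq_right zero_le_one
  have hχb : ∀ s, m0 ≤ s → χ s = 1 := by
    intro s hs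
    simp only [χ]
    exact min_eq_left ((by linarith : (1 : ℝ) ≤ s - (m0 - 1)).trans (le_max_right _ _))
  let S : (ι → ℝ) → ι → ℝ := fun x => x - (η * χ (F x)) • G x
  have hS : Continuous S :=
    continuous_id.sub ((continuous_const.mul (hχ.comp hF)).smul hG)
  have hSstep : ∀ x : ι → ℝ, ‖x‖ ≤ R → F x ≤ Λ → F (S x) ≤ F x - η * χ (F x) * δ / 2 ∧
      ‖S x - x‖ ≤ η * χ (F x) * W ∧ F x - 1 ≤ F (S x) := fun x hx hFx =>
    step hW hA hδ hη hηa hηc hηd (hχ0 _) (hχ1 _) hGW hD (hPS x hFx)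
      fun y hy i => hU x y hx (hy.trans hηb) i
  -- the orbits
  have horb : ∀ x0 : ι → ℝ, ‖x0‖ ≤ R0 → F x0 ≤ Λ → ∀ k : ℕ,
      (F (S^[k] x0) ≤ F x0 ∧ ‖S^[k] x0 - x0‖ ≤ T * (F x0 - F (S^[k] x0)) ∧
        (S^[k] x0 = x0 ∨ m0 - 2 ≤ F (S^[k] x0))) ∧
      (F (S^[k] x0) < m0 ∨ F (S^[k] x0) ≤ Λ - k * (η * δ / 2)) := by
    intro x0 hx0 hFx0 k
    induction k with
    | zero =>
      simp only [Function.iterate_zero, id_eq, sub_self, norm_zero, mul_zero, le_refl,
        true_and, true_or, Nat.cast_zero, zero_mul, sub_zero]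
      exact Or.inr hFx0
    | succ k ih =>
      rw [Function.iterate_succ_apply']
      set x := S^[k] x0
      obtain ⟨⟨h1, h2, h3⟩, h4⟩ := ih
      have hxR : ‖x‖ ≤ R := by
        rcases h3 with h3 | h3
        · rw [h3, hR]
          have : 0 ≤ T * (|Λ - m0| + 2) := by positivity
          linarith
        · have h5 : T * (F x0 - F x) ≤ T * (|Λ - m0| + 2) := by
            apply mul_le_mul_of_nonneg_left _ hTpos.le
            have := le_abs_self (Λ - m0)
            linarith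
          have h6 : ‖x‖ ≤ ‖x0‖ + ‖x - x0‖ := by
            calc ‖x‖ = ‖x0 + (x - x0)‖ := by congr 1; abel
              _ ≤ _ := norm_add_le _ _
          rw [hR]
          linarith
      obtain ⟨g1, g2, g3⟩ := hSstep x hxR (h1.trans hFx0)
      have hχx := hχ0 (F x)
      have hpos : 0 ≤ η * χ (F x) * δ / 2 := by positivity
      refine ⟨⟨by linarith, ?_, ?_⟩, ?_⟩
      · have h5 : ‖S x - x0‖ ≤ ‖S x - x‖ + ‖x - x0‖ := by
          calc ‖S x - x0‖ = ‖(S x - x) + (x - x0)‖ := by congr 1; abel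
            _ ≤ _ := norm_add_le _ _
        have h6 : η * χ (F x) * W = T * (η * χ (F x) * δ / 2) := by
          rw [hT]
          field_simp
        have h7 : T * (η * χ (F x) * δ / 2) ≤ T * (F x - F (S x)) :=
          mul_le_mul_of_nonneg_left (by linarith) hTpos.le
        have h8 : T * (F x0 - F (S x)) = T * (F x0 - F x) + T * (F x - F (S x)) := by ring
        linarith
      · rcases le_or_gt (F x) (m0 - 1) with h5 | h5
        · have h6 : S x = x := by
            simp only [S, hχa _ h5, mul_zero, zero_smul, sub_zero]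
          rw [h6]
          exact h3
        · right
          linarith
      · rcases lt_or_ge (F x) m0 with h5 | h5
        · left
          linarith
        · right
          rcases h4 with h4 | h4
          · exact absurd h5 (not_le.2 h4)
          · rw [hχb _ h5, mul_one] at g1
            push_cast
            linarith
  obtain ⟨k, hk⟩ := exists_nat_gt ((Λ - m0) / (η * δ / 2))
  have hk' : Λ - k * (η * δ / 2) < m0 := by
    rw [div_lt_iff₀ (by positivity)] at hk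
    linarith
  have hfix : ∀ x, F x ≤ m0 - 1 → S^[k] x = x := by
    intro x hx
    apply Function.iterate_fixed
    simp only [S, hχa _ hx, mul_zero, zero_smul, sub_zero]
  obtain ⟨ξ, hξ, hz⟩ := miranda (fun ξ => b (S^[k] (γ ξ)))
    (hb.comp ((hS.iterate k).comp hγ))
    (by
      intro ξ hξ j hj
      have h1 := hbd ξ hξ j (by rw [hj, abs_one])
      simp only [hfix _ h1]
      exact hs1 ξ hξ j hj)
    (by
      intro ξ hξ j hj
      have h1 := hbd ξ hξ j (by rw [hj, abs_neg, abs_one])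
      simp only [hfix _ h1]
      exact hs2 ξ hξ j hj)
  have h1 := hbal _ hz
  have h2 := (horb (γ ξ) (hR0' ξ hξ) (hup ξ hξ) k).2
  rcases h2 with h2 | h2 <;> linarith

end Pool.Agent.Lib.MP_abca01_gt.Link
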