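import Pool.Agent.Lib.MP_abca01_gt.Link.PS
import Pool.Agent.Lib.MP_abca01_gt.Link.Deform
import Pool.Agent.Lib.MP_abca01_gt.Sym.SCen

/-!
# Linking, 6: balanced bodies, the starting disc and the existence of critical points
-/

set_option autoImplicit false

open MeasureTheory Set Metric Filter Topology
open scoped RealInnerProductSpace Pointwise

namespace Pool.Agent.Lib.MP_abca01_gt.Link

open Ess

variable {E : Type} [NormedAddCommGroup E] [InnerProductSpace ℝ E]
variable {ι : Type} {C : Set E} {u : ι → E} {i0 : ι} {A : ℝ}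

/-- The closed convex cone around `v`. -/
def CC (v : E) (ρ : ℝ) : Set E := {z | hor v z ≤ ρ * ht v z}

theorem norm_le_ht_hor {v : E} (hv : ‖v‖ = 1) (z : E) : ‖z‖ ≤ |ht v z| + hor v z := by
  unfold ht hor
  calc ‖z‖ = ‖⟪z, v⟫ • v + (z - ⟪z, v⟫ • v)‖ := by congr 1; abel
    _ ≤ ‖⟪z, v⟫ • v‖ + ‖z - ⟪z, v⟫ • v‖ := norm_add_le _ _
    _ = _ := by rw [norm_smul, hv, mul_one, Real.norm_eq_abs]

theorem ht_nonneg_of_CC {v : E} {ρ : ℝ} (hρ : 0 < ρ) {z : E} (hz : z ∈ CC v ρ) : 0 ≤ ht v z := by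
  have h1 : hor v z ≤ ρ * ht v z := hz
  have h2 : 0 ≤ hor v z := norm_nonneg _
  exact nonneg_of_mul_nonneg_right (h2.trans h1) hρ

theorem hor_smul (v : E) {t : ℝ} (ht : 0 ≤ t) (z : E) : hor v (t • z) = t * hor v z := by
  unfold hor
  rw [real_inner_smul_left, mul_smul, ← smul_sub, norm_smul, Real.norm_of_nonneg ht]

theorem ht_smul (v : E) (t : ℝ) (z : E) : ht v (t • z) = t * ht v z := by
  unfold ht
  rw [real_inner_smul_left]

theorem hor_add_le (v y z : E) : hor v (y + z) ≤ hor v y + hor v z := by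
  unfold hor
  have h1 : y + z - ⟪y + z, v⟫ • v = (y - ⟪y, v⟫ • v) + (z - ⟪z, v⟫ • v) := by
    rw [inner_add_left]
    module
  rw [h1]
  exact norm_add_le _ _

theorem ht_add (v y z : E) : ht v (y + z) = ht v y + ht v z := by
  unfold ht
  rw [inner_add_left]

theorem hor_le_norm {v : E} (hv : ‖v‖ = 1) (z : E) : hor v z ≤ ‖z‖ := by
  have h1 : ‖z‖ ^ 2 = ⟪z, v⟫ ^ 2 + ‖z - ⟪z, v⟫ • v‖ ^ 2 := by
    have h2 : z = ⟪z, v⟫ • v + (z - ⟪z, v⟫ • v) := by abel
    have h3 : ⟪⟪z, v⟫ • v, z - ⟪z, v⟫ • v⟫ = 0 := by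
      rw [real_inner_smul_left, inner_sub_right, real_inner_smul_right,
        real_inner_self_eq_norm_sq, hv, real_inner_comm]
      ring
    have h4 := norm_add_sq_eq_norm_sq_add_norm_sq_of_inner_eq_zero (⟪z, v⟫ • v)
      (z - ⟪z, v⟫ • v) h3
    rw [← h2, norm_smul, hv, mul_one, Real.norm_eq_abs] at h4
    rw [sq, h4, sq, sq, abs_mul_abs_self]
  unfold hor
  refine abs_le_of_sq_le_sq' ?_ (norm_nonneg _) |>.2
  rw [h1]
  nlinarith [sq_nonneg ⟪z, v⟫]

theorem abs_ht_le {v : E} (hv : ‖v‖ = 1) (z : E) : |ht v z| ≤ ‖z‖ := by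
  unfold ht
  have := abs_real_inner_le_norm z v
  rwa [hv, mul_one] at this

/-- Facts about the cone. -/
theorem setup_CC {v : E} (hv : ‖v‖ = 1) {ρ : ℝ} (hρ : 0 < ρ) (hu : ∀ i, ‖u i‖ = 1)
    (hinj : Function.Injective u) (hi0 : u i0 = v) : Setup (CC v ρ) u i0 (1 + ρ) := by
  refine ⟨hu, hinj, ?_, ?_, ?_, ?_, ?_, by positivity, ?_⟩
  · unfold CC hor ht
    exact isClosed_le (by fun_prop) (by fun_prop)
  · intro y hy z hz a b ha hb _
    have h1 := hor_add_le v (a • y) (b • z)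
    rw [hor_smul v ha, hor_smul v hb] at h1
    have h2 : ht v (a • y + b • z) = a * ht v y + b * ht v z := by
      rw [ht_add, ht_smul, ht_smul]
    change hor v (a • y + b • z) ≤ ρ * ht v (a • y + b • z)
    rw [h2]
    have h3 := mul_le_mul_of_nonneg_left (show hor v y ≤ ρ * ht v y from hy) ha
    have h4 := mul_le_mul_of_nonneg_left (show hor v z ≤ ρ * ht v z from hz) hb
    nlinarith
  · change hor v 0 ≤ ρ * ht v 0
    unfold hor ht
    simp
  · intro z hz t ht0
    change hor v (t • z) ≤ ρ * ht v (t • z)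
    rw [hor_smul v ht0, ht_smul]
    have := mul_le_mul_of_nonneg_left (show hor v z ≤ ρ * ht v z from hz) ht0
    nlinarith
  · refine ⟨v, mem_interior_iff_mem_nhds.2 ?_⟩
    have h1 : Continuous fun z : E => ρ * ht v z - hor v z := by
      unfold ht hor
      fun_prop
    have h2 : 0 < ρ * ht v v - hor v v := by
      unfold ht hor
      rw [real_inner_self_eq_norm_sq, hv]
      simpa using hρ
    filter_upwards [h1.continuousAt.eventually (lt_mem_nhds h2)] with z hz
    change hor v z ≤ ρ * ht v z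
    linarith
  · intro z hz
    have h1 := norm_le_ht_hor hv z
    have h2 := ht_nonneg_of_CC hρ hz
    have h3 : hor v z ≤ ρ * ht v z := hz
    rw [abs_of_nonneg h2] at h1
    rw [hi0]
    change ‖z‖ ≤ (1 + ρ) * ht v z
    linarith

/-! ### The starting disc -/

section disc

variable {κ : Type} [Fintype κ]

noncomputable def kap (ρ : ℝ) (N : ℕ) : ℝ := min 1 (ρ / (2 * ((N : ℝ) + 1)))

noncomputable def rad (ρ : ℝ) (N : ℕ) : ℝ := 1 / ((N : ℝ) + 2) * kap ρ N / 2

theorem kap_pos {ρ : ℝ} (hρ : 0 < ρ) (N : ℕ) : 0 < kap ρ N := by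
  unfold kap
  positivity

theorem rad_pos {ρ : ℝ} (hρ : 0 < ρ) (N : ℕ) : 0 < rad ρ N := by
  unfold rad
  have := kap_pos hρ N
  positivity

/-- A ball in the cone on a given side of the coordinate hyperplanes. -/
theorem exists_ball_side {v : E} (hv : ‖v‖ = 1) {ρ : ℝ} (hρ : 0 < ρ) {e : κ → E}
    (he : Orthonormal ℝ e) (hev : ∀ k, ⟪e k, v⟫ = 0) (ξ : κ → ℝ) :
    ∃ p : E, ∀ z ∈ closedBall p (rad ρ (Fintype.card κ)), z ∈ CC v ρ ∧ ‖z‖ ≤ 1 ∧
      ∀ k, (0 < ξ k → ⟪z, e k⟫ ≤ -rad ρ (Fintype.card κ)) ∧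
        (ξ k < 0 → rad ρ (Fintype.card κ) ≤ ⟪z, e k⟫) := by
  classical
  set N : ℕ := Fintype.card κ with hN
  set β : ℝ := 1 / ((N : ℝ) + 2) with hβ
  set κ' : ℝ := kap ρ N with hκ'
  have hN0 : (0 : ℝ) ≤ N := Nat.cast_nonneg _
  have hβ0 : 0 < β := by positivity
  have hβN : β * ((N : ℝ) + 2) = 1 := by rw [hβ]; field_simp
  have hκ0 : 0 < κ' := kap_pos hρ N
  have hκ1 : κ' ≤ 1 := min_le_left _ _
  have hκ2 : κ' * (2 * ((N : ℝ) + 1)) ≤ ρ := by
    have h1 : κ' ≤ ρ / (2 * ((N : ℝ) + 1)) := min_le_right _ _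
    rwa [le_div_iff₀ (by positivity)] at h1
  have hrad : rad ρ N = β * κ' / 2 := rfl
  set s : κ → ℝ := fun k => if 0 < ξ k then -1 else 1 with hs
  have hs1 : ∀ k, |s k| = 1 := by
    intro k
    simp only [hs]
    split_ifs <;> simp
  set q : E := ∑ k, s k • e k with hq
  have hqn : ‖q‖ ≤ N := by
    refine (norm_sum_le _ _).trans (le_of_eq ?_)
    have h1 : ∀ k ∈ Finset.univ, ‖s k • e k‖ = 1 := by
      intro k _
      rw [norm_smul, he.1 k, mul_one, Real.norm_eq_abs, hs1]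
    rw [Finset.sum_congr rfl h1, Finset.sum_const, Finset.card_univ, nsmul_eq_mul, mul_one]
  have hqk : ∀ k, ⟪q, e k⟫ = s k := by
    intro k
    rw [hq, sum_inner, Finset.sum_eq_single k]
    · rw [real_inner_smul_left, real_inner_self_eq_norm_sq, he.1 k]
      ring
    · intro l _ hl
      rw [real_inner_smul_left, he.2 hl, mul_zero]
    · intro h
      exact absurd (Finset.mem_univ k) h
  have hqv : ⟪q, v⟫ = 0 := by
    rw [hq, sum_inner]
    apply Finset.sum_eq_zero
    intro k _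
    rw [real_inner_smul_left, hev, mul_zero]
  set p : E := β • (v + κ' • q) with hp
  refine ⟨p, fun z hz => ?_⟩
  rw [mem_closedBall, dist_eq_norm, hrad] at hz
  set w : E := z - p with hw
  have hzw : z = p + w := by rw [hw]; abel
  have hhp : ht v p = β := by
    rw [hp, ht_smul]
    unfold ht
    rw [inner_add_left, real_inner_smul_left, hqv, real_inner_self_eq_norm_sq, hv]
    ring
  have hop : hor v p ≤ β * κ' * N := by
    rw [hp, hor_smul v hβ0.le]
    unfold hor
    rw [inner_add_left, real_inner_smul_left, hqv, real_inner_self_eq_norm_sq, hv]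
    have h1 : v + κ' • q - ((1 : ℝ) ^ 2 + κ' * 0) • v = κ' • q := by module
    rw [h1, norm_smul, Real.norm_of_nonneg hκ0.le]
    have h2 : κ' * ‖q‖ ≤ κ' * N := mul_le_mul_of_nonneg_left hqn hκ0.le
    have h3 := mul_le_mul_of_nonneg_left h2 hβ0.le
    linarith
  have hht : β / 2 ≤ ht v z := by
    rw [hzw, ht_add, hhp]
    have h1 := (abs_le.1 (abs_ht_le hv w)).1
    have h2 : β * κ' ≤ β := mul_le_of_le_one_right hβ0.le hκ1
    linarith
  have hhor : hor v z ≤ β * κ' * (N + 1) := by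
    rw [hzw]
    have h1 := hor_add_le v p w
    have h2 := hor_le_norm hv w
    have h3 : 0 < β * κ' := mul_pos hβ0 hκ0
    nlinarith
  refine ⟨?_, ?_, fun k => ⟨fun hk => ?_, fun hk => ?_⟩⟩
  · change hor v z ≤ ρ * ht v z
    have h1 : ρ * (β / 2) ≤ ρ * ht v z := mul_le_mul_of_nonneg_left hht hρ.le
    have h2 : β * (κ' * (2 * ((N : ℝ) + 1))) ≤ β * ρ := mul_le_mul_of_nonneg_left hκ2 hβ0.le
    nlinarith
  · have h1 : ‖p‖ ≤ β * (1 + N) := by
      rw [hp, norm_smul, Real.norm_of_nonneg hβ0.le]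
      apply mul_le_mul_of_nonneg_left _ hβ0.le
      refine (norm_add_le _ _).trans ?_
      rw [hv, norm_smul, Real.norm_of_nonneg hκ0.le]
      have h2 : κ' * ‖q‖ ≤ 1 * N := mul_le_mul hκ1 hqn (norm_nonneg _) zero_le_one
      linarith
    have h2 : ‖z‖ ≤ ‖p‖ + ‖w‖ := by
      rw [hzw]
      exact norm_add_le _ _
    have h3 : β * κ' ≤ β := mul_le_of_le_one_right hβ0.le hκ1
    nlinarith
  · have h1 : ⟪z, e k⟫ = β * (κ' * s k) + ⟪w, e k⟫ := by
      rw [hzw, inner_add_left, hp, real_inner_smul_left, inner_add_left, real_inner_smul_left,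
        hqk, real_inner_comm (e k) v, hev]
      ring
    have h2 : s k = -1 := if_pos hk
    have h3 := (abs_le.1 (abs_real_inner_le_norm w (e k))).2
    rw [he.1 k, mul_one] at h3
    rw [h1, h2, hrad]
    linarith
  · have h1 : ⟪z, e k⟫ = β * (κ' * s k) + ⟪w, e k⟫ := by
      rw [hzw, inner_add_left, hp, real_inner_smul_left, inner_add_left, real_inner_smul_left,
        hqk, real_inner_comm (e k) v, hev]
      ring
    have h2 : s k = 1 := if_neg (not_lt.2 hk.le)
    have h3 := (abs_le.1 (abs_real_inner_le_norm w (e k))).1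
    rw [he.1 k, mul_one] at h3
    rw [h1, h2, hrad]
    linarith

open Classical in
/-- The starting disc. -/
noncomputable def gam (u : ι → E) (e : κ → E) (τ : ℝ) (ξ : κ → ℝ) (i : ι) : ℝ :=
  -(τ * ∑ k, ((if u i = e k then 1 else 0) * max (ξ k) 0 +
    (if u i = -e k then 1 else 0) * max (-ξ k) 0))

theorem continuous_gam (u : ι → E) (e : κ → E) (τ : ℝ) : Continuous (gam u e τ) := by
  apply continuous_pi
  intro i
  unfold gam
  fun_prop

theorem gam_nonpos (u : ι → E) (e : κ → E) {τ : ℝ} (hτ : 0 ≤ τ) (ξ : κ → ℝ) (i : ι) :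
    gam u e τ ξ i ≤ 0 := by
  classical
  unfold gam
  rw [neg_nonpos]
  apply mul_nonneg hτ
  apply Finset.sum_nonneg
  intro k _
  apply add_nonneg
  · apply mul_nonneg
    · split_ifs <;> norm_num
    · exact le_max_right _ _
  · apply mul_nonneg
    · split_ifs <;> norm_num
    · exact le_max_right _ _

theorem gam_le_pos (u : ι → E) (e : κ → E) {τ : ℝ} (hτ : 0 ≤ τ) {ξ : κ → ℝ} {i : ι} {k : κ}
    (hi : u i = e k) (hξ : ξ k = 1) : gam u e τ ξ i ≤ -τ := by
  classical
  unfold gam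
  rw [neg_le_neg_iff]
  have h1 : (1 : ℝ) ≤ ∑ k, ((if u i = e k then 1 else 0) * max (ξ k) 0 +
      (if u i = -e k then 1 else 0) * max (-ξ k) 0) := by
    have h2 : ∀ l ∈ Finset.univ, 0 ≤ (if u i = e l then 1 else 0) * max (ξ l) 0 +
        (if u i = -e l then (1 : ℝ) else 0) * max (-ξ l) 0 := by
      intro l _
      apply add_nonneg
      · apply mul_nonneg
        · split_ifs <;> norm_num
        · exact le_max_right _ _
      · apply mul_nonneg
        · split_ifs <;> norm_num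
        · exact le_max_right _ _
    refine le_trans ?_ (Finset.single_le_sum h2 (Finset.mem_univ k))
    rw [if_pos hi, hξ]
    have h3 : (0 : ℝ) ≤ (if u i = -e k then (1 : ℝ) else 0) * max (-1) 0 := by
      apply mul_nonneg
      · split_ifs <;> norm_num
      · exact le_max_right _ _
    have h4 : max (1 : ℝ) 0 = 1 := max_eq_left zero_le_one
    rw [h4]
    linarith
  calc τ = τ * 1 := (mul_one τ).symm
    _ ≤ _ := mul_le_mul_of_nonneg_left h1 hτ

theorem gam_le_neg (u : ι → E) (e : κ → E) {τ : ℝ} (hτ : 0 ≤ τ) {ξ : κ → ℝ} {i : ι} {k : κ}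
    (hi : u i = -e k) (hξ : ξ k = -1) : gam u e τ ξ i ≤ -τ := by
  classical
  unfold gam
  rw [neg_le_neg_iff]
  have h1 : (1 : ℝ) ≤ ∑ k, ((if u i = e k then 1 else 0) * max (ξ k) 0 +
      (if u i = -e k then 1 else 0) * max (-ξ k) 0) := by
    have h2 : ∀ l ∈ Finset.univ, 0 ≤ (if u i = e l then 1 else 0) * max (ξ l) 0 +
        (if u i = -e l then (1 : ℝ) else 0) * max (-ξ l) 0 := by
      intro l _
      apply add_nonneg
      · apply mul_nonneg
        · split_ifs <;> norm_num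
        · exact le_max_right _ _
      · apply mul_nonneg
        · split_ifs <;> norm_num
        · exact le_max_right _ _
    refine le_trans ?_ (Finset.single_le_sum h2 (Finset.mem_univ k))
    rw [if_pos hi, hξ, neg_neg]
    have h3 : (0 : ℝ) ≤ (if u i = e k then (1 : ℝ) else 0) * max (-1) 0 := by
      apply mul_nonneg
      · split_ifs <;> norm_num
      · exact le_max_right _ _
    have h4 : max (1 : ℝ) 0 = 1 := max_eq_left zero_le_one
    rw [h4]
    linarith
  calc τ = τ * 1 := (mul_one τ).symm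
    _ ≤ _ := mul_le_mul_of_nonneg_left h1 hτ

theorem gam_cases (u : ι → E) (e : κ → E) (τ : ℝ) (ξ : κ → ℝ) (i : ι) :
    gam u e τ ξ i = 0 ∨ (∃ k, u i = e k ∧ 0 < ξ k) ∨ ∃ k, u i = -e k ∧ ξ k < 0 := by
  classical
  by_contra hcon
  push Not at hcon
  obtain ⟨h0, h1, h2⟩ := hcon
  apply h0
  unfold gam
  have h3 : ∀ k ∈ Finset.univ, (if u i = e k then (1 : ℝ) else 0) * max (ξ k) 0 +
      (if u i = -e k then (1 : ℝ) else 0) * max (-ξ k) 0 = 0 := by
    intro k _
    have h4 : (if u i = e k then (1 : ℝ) else 0) * max (ξ k) 0 = 0 := by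
      split_ifs with h
      · rw [max_eq_right (h1 k h), mul_zero]
      · rw [zero_mul]
    have h5 : (if u i = -e k then (1 : ℝ) else 0) * max (-ξ k) 0 = 0 := by
      split_ifs with h
      · rw [max_eq_right (by linarith [h2 k h]), mul_zero]
      · rw [zero_mul]
    rw [h4, h5, add_zero]
  rw [Finset.sum_eq_zero h3, mul_zero, neg_zero]

/-- The bodies of the starting disc contain a ball of a fixed radius. -/
theorem ball_sub_BK {v : E} (hv : ‖v‖ = 1) {ρ : ℝ} (hρ : 0 < ρ) {e : κ → E}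
    (he : Orthonormal ℝ e) (hev : ∀ k, ⟪e k, v⟫ = 0) (hu : ∀ i, ‖u i‖ = 1) (τ : ℝ) (ξ : κ → ℝ) :
    ∃ p : E, closedBall p (rad ρ (Fintype.card κ)) ⊆ BK (CC v ρ) u (gam u e τ ξ) ∧
      ∀ z ∈ closedBall p (rad ρ (Fintype.card κ)),
      ∀ k, (0 < ξ k → ⟪z, e k⟫ ≤ -rad ρ (Fintype.card κ)) ∧
        (ξ k < 0 → rad ρ (Fintype.card κ) ≤ ⟪z, e k⟫) := by
  obtain ⟨p, hp⟩ := exists_ball_side hv hρ he hev ξ
  refine ⟨p, fun z hz => ?_, fun z hz => (hp z hz).2.2⟩
  obtain ⟨h1, h2, h3⟩ := hp z hz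
  have hr := rad_pos hρ (Fintype.card κ)
  rw [mem_BK]
  refine ⟨h1, fun i => ?_⟩
  rcases gam_cases u e τ ξ i with h | ⟨k, hk, hξ⟩ | ⟨k, hk, hξ⟩
  · rw [h, Real.exp_zero]
    have h4 := real_inner_le_norm z (u i)
    rw [hu, mul_one] at h4
    exact h4.trans h2
  · rw [hk]
    have h4 := (h3 k).1 hξ
    have h5 := Real.exp_pos (gam u e τ ξ i)
    linarith
  · rw [hk, inner_neg_right]
    have h4 := (h3 k).2 hξ
    have h5 := Real.exp_pos (gam u e τ ξ i)
    linarith

end disc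

variable [FiniteDimensional ℝ E] [MeasurableSpace E] [BorelSpace E] [Fintype ι]

/-- The lower bound of the functional on balanced bodies. -/
theorem Setup.balanced (h : Setup C u i0 A) {M : ℕ} (hM : Module.finrank ℝ E = M + 1)
    {m : ι → ℝ} (hm : ∀ i, 0 < m i) {c B η : ℝ} (hc : 0 < c) (hη : 0 < η)
    (hpos : ∀ K : Set E, IsCompact K → Convex ℝ K → (interior K).Nonempty →
      ∃ (g : E) (e : OrthonormalBasis (Fin (M + 1)) ℝ E) (r : Fin (M + 1) → ℝ), Pos c K g e r)
    (hlow : LowB C u m M c B η) {v : E} (hv : ‖v‖ = 1) (hCv : ∀ z ∈ C, 0 ≤ ⟪z, v⟫)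
    (huv : ∀ i, 0 ≤ ⟪u i, v⟫) {x : ι → ℝ}
    (hx : ∀ w, ⟪v, w⟫ = 0 → ∫ z in BK C u x, ⟪z, w⟫ = 0) :
    -B - (∑ i, m i) * Real.log (2 * 4 ^ Module.finrank ℝ E) ≤ LL C u m x := by
  have hKc := h.isCompact_BK x
  have hKv := h.convex_BK x
  have hV : 0 < volume.real (BK C u x) := h.VV_pos x
  obtain ⟨g, e, r, hP⟩ := hpos (BK C u x) hKc hKv (h.int_BK x)
  have hball : closedBall g (c * r 0) ⊆ BK C u x :=
    hP.ball_sub fun i => mul_le_mul_of_nonneg_left (hP.mono (Fin.zero_le i)) hc.le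
  have hcr : 0 < c * r 0 := mul_pos hc (hP.pos 0)
  have h1 := hlow (BK C u x) g e r hKc hKv (fun z hz => hz.1) (h.zero_mem x) hP
  have h2 : 0 ≤ η * (Real.log (r (Fin.last M)) - Real.log (r 0)) := by
    apply mul_nonneg hη.le
    have := Real.log_le_log (hP.pos 0) (hP.mono (Fin.zero_le (Fin.last M)))
    linarith
  -- the comparison of the support function with the value at `g`
  have h3 : ∀ i, Real.log (supp (BK C u x) (u i) - ⟪g, u i⟫) ≤
      Real.log (2 * 4 ^ Module.finrank ℝ E) + x i := by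
    intro i
    set K := BK C u x with hK
    have h4 := Sym.mean_low hKc hKv (u := -u i) (b := supp K (u i))
      (fun z hz => by
        rw [inner_neg_right]
        linarith [le_supp hKc hz (u i)]) (hball (mem_closedBall_self hcr.le))
    have h5 : ∫ z in K, ⟪z, u i⟫ = ⟪u i, v⟫ * ∫ z in K, ⟪z, v⟫ := by
      have h6 : ∀ z : E, ⟪z, u i⟫ = ⟪u i, v⟫ * ⟪z, v⟫ + ⟪z, Sym.pr v (u i)⟫ := by
        intro z
        rw [Sym.inner_split v z (u i)]
        unfold ht
        ring
      simp only [h6]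
      rw [integral_add ((Sym.int_inner hKc v).const_mul _) (Sym.int_inner hKc _),
        hx _ (Sym.inner_pr hv (u i)), add_zero, integral_const_mul]
    have h6 : 0 ≤ ∫ z in K, ⟪z, v⟫ :=
      setIntegral_nonneg hKc.measurableSet fun z hz => hCv z hz.1
    have h7 : 0 ≤ ∫ z in K, ⟪z, u i⟫ := by
      rw [h5]
      exact mul_nonneg (huv i) h6
    rw [integral_add (Sym.int_inner hKc _) (integrableOn_const hKc.measure_lt_top.ne),
      setIntegral_const, smul_eq_mul] at h4
    simp only [inner_neg_right] at h4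
    rw [integral_neg] at h4
    have h8 : ((1 / 4) ^ Module.finrank ℝ E * (3 / 4) * (-⟪g, u i⟫ + supp K (u i))) *
        volume.real K ≤ supp K (u i) * volume.real K := by linarith
    have h9 := le_of_mul_le_mul_right h8 hV
    have h10 : 0 < supp K (u i) - ⟪g, u i⟫ :=
      lt_of_lt_of_le hcr (le_supp_sub hKc hcr.le hball (h.unit i))
    have h11 : (0 : ℝ) < 4 ^ Module.finrank ℝ E := by positivity
    have h12 : (3 / 4) * (supp K (u i) - ⟪g, u i⟫) ≤ 4 ^ Module.finrank ℝ E * supp K (u i) := by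
      have h13 := mul_le_mul_of_nonneg_left h9 h11.le
      have h14 : (4 : ℝ) ^ Module.finrank ℝ E * ((1 / 4) ^ Module.finrank ℝ E * (3 / 4) *
          (-⟪g, u i⟫ + supp K (u i))) = (3 / 4) * (supp K (u i) - ⟪g, u i⟫) := by
        rw [← mul_assoc, ← mul_assoc, ← mul_pow]
        norm_num
        ring
      rwa [h14] at h13
    have h13 : supp K (u i) - ⟪g, u i⟫ ≤ 2 * 4 ^ Module.finrank ℝ E * Real.exp (x i) := by
      have h14 : 4 ^ Module.finrank ℝ E * supp K (u i) ≤ 4 ^ Module.finrank ℝ E *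
        Real.exp (x i) := mul_le_mul_of_nonneg_left (h.supp_le x i) h11.le
      linarith
    have h14 := Real.log_le_log h10 h13
    rwa [Real.log_mul (by positivity) (Real.exp_pos _).ne', Real.log_exp] at h14
  have h4 : ∑ i, m i * Real.log (supp (BK C u x) (u i) - ⟪g, u i⟫) ≤
      (∑ i, m i) * Real.log (2 * 4 ^ Module.finrank ℝ E) + ∑ i, m i * x i := by
    rw [Finset.sum_mul, ← Finset.sum_add_distrib]
    refine Finset.sum_le_sum fun i _ => ?_
    have := mul_le_mul_of_nonneg_left (h3 i) (hm i).le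
    linarith
  unfold LL VV
  have h5 : (∑ i, m i) / (Module.finrank ℝ E : ℝ) = (∑ i, m i) / ((M : ℝ) + 1) := by
    rw [hM]
    push_cast
    ring
  rw [h5]
  linarith

end Pool.Agent.Lib.MP_abca01_gt.Link
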