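import Pool.Agent.Lib.MP_abca01_gt.PClosure

/-!
# Linking, 9: limits of approximate solutions

A variant of `PClosure.lean` with an error term for the volume.
-/

set_option autoImplicit false

open MeasureTheory Set Metric Filter Topology
open scoped RealInnerProductSpace Pointwise

namespace Pool.Agent.Lib.MP_abca01_gt.Link

open PClosureaux ExistsMinaux

/-- Limits of approximate solutions, with an error term for the volume. -/
theorem closure' {E : Type} [NormedAddCommGroup E] [InnerProductSpace ℝ E] [FiniteDimensional ℝ E]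
    [MeasurableSpace E] [BorelSpace E] (lam mu : Measure E) [lam.IsAddHaarMeasure]
    [IsFiniteMeasure mu] (Q : Set E) (M : ℝ) (K : ℕ → Set E) (hQ : IsCompact Q)
    (hK : ∀ j, IsCompact (K j) ∧ Convex ℝ (K j) ∧ (0 : E) ∈ K j ∧ K j ⊆ Q ∧
      lam.real (K j) ≤ M + 1 / ((j : ℝ) + 1))
    (hmu : ∀ j, ∀ ω : Set E, IsCompact ω → ω ⊆ sphere (0 : E) 1 →
      mu.real ω ≤ lam.real (segs (K j) (cthickening (1 / ((j : ℝ) + 1)) ω ∩ sphere (0 : E) 1))) :
    ∃ L : Set E, IsCompact L ∧ Convex ℝ L ∧ (0 : E) ∈ L ∧ L ⊆ Q ∧ lam.real L ≤ M ∧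
      ∀ ω : Set E, IsCompact ω → ω ⊆ sphere (0 : E) 1 → mu.real ω ≤ lam.real (segs L ω) := by
  obtain ⟨φ, L, r, hφ, hLc, -, hLQ, hr, hr0, h1, h2⟩ := exists_limit hQ K (fun j => (hK j).1)
    (fun j => ⟨0, (hK j).2.2.1⟩) (fun j => (hK j).2.2.2.1)
  have hLconv : Convex ℝ L :=
    convex_limit hLc.isClosed (K := fun j => K (φ j)) (fun j => (hK _).2.1) hr h1 h2
  have h0L : (0 : E) ∈ L := mem_of_approx hLc.isClosed hr fun j => h1 j 0 (hK _).2.2.1
  refine ⟨L, hLc, hLconv, h0L, hLQ, ?_, ?_⟩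
  · have hk : ∀ k : ℕ, lam.real L ≤ M + 1 / ((k : ℝ) + 1) := by
      intro k
      refine volume_limit lam hLc hLconv (K := fun j => K (φ (j + k))) (r := fun j => r (j + k))
        (fun j => (hK _).1) (fun j => (hK _).2.1) (fun j => (hK _).2.2.2.2.trans ?_)
        (hr.comp (tendsto_add_atTop_nat k)) (fun j => hr0 _) (fun j => h2 _)
      have h3 : k ≤ φ (j + k) := (Nat.le_add_left k j).trans (hφ.id_le (j + k))
      have h4 : (k : ℝ) ≤ φ (j + k) := by exact_mod_cast h3
      have h5 : 1 / ((φ (j + k) : ℝ) + 1) ≤ 1 / ((k : ℝ) + 1) :=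
        one_div_le_one_div_of_le (by positivity) (by linarith)
      linarith
    have h3 : Tendsto (fun k : ℕ => M + 1 / ((k : ℝ) + 1)) atTop (𝓝 (M + 0)) :=
      tendsto_const_nhds.add (tendsto_one_div_add_atTop_nhds_zero_nat (𝕜 := ℝ))
    rw [add_zero] at h3
    exact ge_of_tendsto' h3 hk
  · intro ω hω hωs
    have hseg : IsCompact (segs L ω) := Borelaux.isCompact_segs hLc hω
    -- the thickened inequality
    have key : ∀ η : ℝ, 0 < η → mu.real ω ≤ lam.real (cthickening η (segs L ω)) := by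
      intro η hη
      by_contra hcon
      have hno : ∀ j, ∃ x ∈ segs (K (φ j))
          (cthickening (1 / ((φ j : ℝ) + 1)) ω ∩ sphere (0 : E) 1),
          x ∉ cthickening η (segs L ω) := by
        intro j
        by_contra hall
        push Not at hall
        apply hcon
        refine (hmu (φ j) ω hω hωs).trans ?_
        exact measureReal_mono hall hseg.cthickening.measure_lt_top.ne
      choose x hx hxn using hno
      have hx' : ∀ j, ∃ q : ℝ × E × E, q.2.2 ∈ cthickening (1 / ((φ j : ℝ) + 1)) ω ∩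
          sphere (0 : E) 1 ∧ q.2.1 ∈ K (φ j) ∧ (∀ z ∈ K (φ j), ⟪z, q.2.2⟫ ≤ ⟪q.2.1, q.2.2⟫) ∧
          q.1 ∈ Icc (0 : ℝ) 1 ∧ x j = q.1 • q.2.1 := by
        intro j
        obtain ⟨u, hu, y, hy, hmax, s, hs, hxe⟩ := hx j
        exact ⟨(s, y, u), hu, hy, hmax, hs, hxe⟩
      choose q hqu hqy hqm hqs hqx using hx'
      have hcomp : IsCompact (Icc (0 : ℝ) 1 ×ˢ (Q ×ˢ sphere (0 : E) 1)) :=
        isCompact_Icc.prod (hQ.prod (isCompact_sphere 0 1))
      obtain ⟨⟨s, y, u⟩, hlimm, ψ, hψ, hlim⟩ := hcomp.tendsto_subseq (x := q) fun j =>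
        ⟨hqs j, (hK _).2.2.2.1 (hqy j), (hqu j).2⟩
      have hs : Tendsto (fun j => (q (ψ j)).1) atTop (𝓝 s) :=
        (continuous_fst.tendsto _).comp hlim
      have hy : Tendsto (fun j => (q (ψ j)).2.1) atTop (𝓝 y) :=
        ((continuous_fst.comp continuous_snd).tendsto _).comp hlim
      have hu : Tendsto (fun j => (q (ψ j)).2.2) atTop (𝓝 u) :=
        ((continuous_snd.comp continuous_snd).tendsto _).comp hlim
      have hrψ : Tendsto (fun j => r (ψ j)) atTop (𝓝 0) := hr.comp hψ.tendsto_atTop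
      -- `u ∈ ω`
      have huω : u ∈ ω := by
        have hs' : Tendsto (fun j => ‖u - (q (ψ j)).2.2‖ + 1 / ((φ (ψ j) : ℝ) + 1)) atTop
            (𝓝 0) := by
          have e1 : Tendsto (fun j => ‖u - (q (ψ j)).2.2‖) atTop (𝓝 0) := by
            have := (tendsto_const_nhds (x := u)).sub hu
            simpa using this.norm
          have e2 : Tendsto (fun j : ℕ => 1 / ((φ (ψ j) : ℝ) + 1)) atTop (𝓝 0) :=
            (tendsto_one_div_add_atTop_nhds_zero_nat (𝕜 := ℝ)).comp
              (hφ.tendsto_atTop.comp hψ.tendsto_atTop)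
          simpa using e1.add e2
        refine mem_of_approx hω.isClosed hs' fun j => ?_
        have e1 := (hqu (ψ j)).1
        rw [hω.cthickening_eq_biUnion_closedBall (by positivity)] at e1
        obtain ⟨w, hw, hw'⟩ := mem_iUnion₂.1 e1
        refine ⟨w, hw, ?_⟩
        rw [mem_closedBall, dist_eq_norm] at hw'
        calc ‖u - w‖ = ‖(u - (q (ψ j)).2.2) + ((q (ψ j)).2.2 - w)‖ := by congr 1; abel
          _ ≤ ‖u - (q (ψ j)).2.2‖ + ‖(q (ψ j)).2.2 - w‖ := norm_add_le _ _
          _ ≤ _ := by linarith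
      -- `y ∈ L`
      have hyL : y ∈ L := by
        have hs' : Tendsto (fun j => ‖y - (q (ψ j)).2.1‖ + r (ψ j)) atTop (𝓝 0) := by
          have e1 : Tendsto (fun j => ‖y - (q (ψ j)).2.1‖) atTop (𝓝 0) := by
            have := (tendsto_const_nhds (x := y)).sub hy
            simpa using this.norm
          simpa using e1.add hrψ
        refine mem_of_approx hLc.isClosed hs' fun j => ?_
        obtain ⟨w, hw, hw'⟩ := h1 (ψ j) _ (hqy (ψ j))
        refine ⟨w, hw, ?_⟩
        calc ‖y - w‖ = ‖(y - (q (ψ j)).2.1) + ((q (ψ j)).2.1 - w)‖ := by congr 1; abel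
          _ ≤ ‖y - (q (ψ j)).2.1‖ + ‖(q (ψ j)).2.1 - w‖ := norm_add_le _ _
          _ ≤ _ := by linarith
      -- maximality
      have hmax : ∀ z ∈ L, ⟪z, u⟫ ≤ ⟪y, u⟫ := by
        intro z hz
        have hz' : ∀ j, ∃ w ∈ K (φ (ψ j)), ‖z - w‖ ≤ r (ψ j) := fun j => h2 (ψ j) z hz
        choose w hw hw' using hz'
        have hwlim : Tendsto w atTop (𝓝 z) := by
          rw [tendsto_iff_norm_sub_tendsto_zero]
          refine squeeze_zero (fun _ => norm_nonneg _) (fun j => ?_) hrψ
          rw [norm_sub_rev]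
          exact hw' j
        exact le_of_tendsto_of_tendsto' (hwlim.inner hu) (hy.inner hu)
          fun j => hqm (ψ j) _ (hw j)
      have hsI : s ∈ Icc (0 : ℝ) 1 := hlimm.1
      have hmem : s • y ∈ segs L ω := ⟨u, huω, y, hyL, hmax, s, hsI, rfl⟩
      have hxlim : Tendsto (fun j => x (ψ j)) atTop (𝓝 (s • y)) := by
        have : (fun j => x (ψ j)) = fun j => (q (ψ j)).1 • (q (ψ j)).2.1 :=
          funext fun j => hqx (ψ j)
        rw [this]
        exact hs.smul hy
      rw [Metric.tendsto_atTop] at hxlim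
      obtain ⟨N, hN⟩ := hxlim η hη
      exact hxn (ψ N) (mem_cthickening_of_dist_le _ _ _ _ hmem (hN N le_rfl).le)
    -- let the thickness tend to zero
    have hlim : Tendsto (fun η : ℝ => lam.real (cthickening η (segs L ω))) (𝓝[>] 0)
        (𝓝 (lam.real (segs L ω))) := by
      have e1 := (tendsto_measure_cthickening_of_isCompact (μ := lam) hseg).mono_left
        (nhdsWithin_le_nhds (s := Ioi (0 : ℝ)))
      exact (ENNReal.tendsto_toReal hseg.measure_lt_top.ne).comp e1
    refine ge_of_tendsto hlim ?_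
    filter_upwards [self_mem_nhdsWithin] with η hη
    exact key η hη

end Pool.Agent.Lib.MP_abca01_gt.Link
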