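import Pool.Agent.Lib.MP_abca01_gt.Link.Bal

/-!
# Linking, 7: existence of critical points
-/

set_option autoImplicit false

open MeasureTheory Set Metric Filter Topology
open scoped RealInnerProductSpace Pointwise

namespace Pool.Agent.Lib.MP_abca01_gt.Link

open Ess

variable {E : Type} [NormedAddCommGroup E] [InnerProductSpace ℝ E] [FiniteDimensional ℝ E]
  [MeasurableSpace E] [BorelSpace E]

/-- A linear functional which is very negative on a part of `K` and almost nonpositive on `K` has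
nonpositive integral. -/
theorem int_nonpos {K S : Set E} (hK : IsCompact K) (hS : MeasurableSet S) (hSK : S ⊆ K) {w : E}
    {a t V : ℝ} (ht : 0 ≤ t) (h1 : ∀ z ∈ K, ⟪z, w⟫ ≤ t) (h2 : ∀ z ∈ S, ⟪z, w⟫ ≤ -a)
    (hV : volume.real K ≤ V) (h : t * V ≤ a * volume.real S) : ∫ z in K, ⟪z, w⟫ ≤ 0 := by
  have hint := Sym.int_inner hK w
  have h3 := integral_inter_add_diff hS hint
  rw [inter_eq_self_of_subset_right hSK] at h3
  have h4 : ∫ z in S, ⟪z, w⟫ ≤ -a * volume.real S := by
    have h5 : ∫ z in S, ⟪z, w⟫ ≤ ∫ _z in S, -a := by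
      apply setIntegral_mono_on (hint.mono_set hSK) _ hS
      · exact fun z hz => h2 z hz
      · exact integrableOn_const (measure_ne_top_of_subset hSK hK.measure_lt_top.ne)
    rw [setIntegral_const, smul_eq_mul] at h5
    linarith
  have h5 : ∫ z in K \ S, ⟪z, w⟫ ≤ t * V := by
    have h6 : ∫ z in K \ S, ⟪z, w⟫ ≤ ∫ _z in K \ S, t := by
      apply setIntegral_mono_on (hint.mono_set diff_subset) _ (hK.measurableSet.diff hS)
      · exact fun z hz => h1 z hz.1
      · exact integrableOn_const (measure_ne_top_of_subset diff_subset hK.measure_lt_top.ne)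
    rw [setIntegral_const, smul_eq_mul] at h6
    have h7 : volume.real (K \ S) ≤ V :=
      (measureReal_mono diff_subset hK.measure_lt_top.ne).trans hV
    have h8 := mul_le_mul_of_nonneg_left h7 ht
    linarith
  linarith

variable {ι : Type} [Fintype ι] {u : ι → E} {i0 : ι}

/-- **Existence of critical points.** -/
theorem exists_crit {v : E} (hv : ‖v‖ = 1) {ρ : ℝ} (hρ : 0 < ρ) {κ : Type} [Fintype κ] {e : κ → E}
    (he : Orthonormal ℝ e) (hev : ∀ k, ⟪e k, v⟫ = 0)
    (hex : ∀ w, ⟪v, w⟫ = 0 → w = ∑ k, ⟪e k, w⟫ • e k)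
    {M : ℕ} (hM : Module.finrank ℝ E = M + 1) (hu : ∀ i, ‖u i‖ = 1)
    (hinj : Function.Injective u) (huv : ∀ i, 0 ≤ ⟪u i, v⟫)
    (hi0 : u i0 = v) (hip : ∀ k, ∃ i, u i = e k) (him : ∀ k, ∃ i, u i = -e k)
    {m : ι → ℝ} (hm : ∀ i, 0 < m i) {c B η : ℝ} (hc : 0 < c) (hη : 0 < η)
    (hpos : ∀ K : Set E, IsCompact K → Convex ℝ K → (interior K).Nonempty →
      ∃ (g : E) (e : OrthonormalBasis (Fin (M + 1)) ℝ E) (r : Fin (M + 1) → ℝ), Pos c K g e r)
    (hlow : LowB (CC v ρ) u m M c B η) :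
    ∃ x, GG (CC v ρ) u m x = 0 ∧ LL (CC v ρ) u m x ≤
      -((∑ i, m i) / ((M : ℝ) + 1) *
        Real.log (volume.real (closedBall (0 : E) (rad ρ (Fintype.card κ))))) := by
  by_contra hcon
  push Not at hcon
  set R : ℝ := rad ρ (Fintype.card κ) with hR
  have hRpos : 0 < R := rad_pos hρ _
  set v0 : ℝ := volume.real (closedBall (0 : E) R) with hv0
  set W : ℝ := ∑ i, m i with hW
  set Λ : ℝ := -(W / ((M : ℝ) + 1) * Real.log v0) with hΛ
  have hWpos : 0 < W := Finset.sum_pos (fun j _ => hm j) ⟨i0, Finset.mem_univ _⟩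
  have hS : Setup (CC v ρ) u i0 (1 + ρ) := setup_CC hv hρ hu hinj hi0
  have hn : 0 < Module.finrank ℝ E := by omega
  have hn' : (0 : ℝ) < Module.finrank ℝ E := by exact_mod_cast hn
  have hv0pos : 0 < v0 :=
    ENNReal.toReal_pos (measure_closedBall_pos volume _ hRpos).ne' measure_closedBall_lt_top.ne
  have hvball : ∀ p : E, volume.real (closedBall p R) = v0 := by
    intro p
    rw [hv0, measureReal_def, measureReal_def, Measure.addHaar_closedBall_center]
  obtain ⟨δ, hδ, hPS⟩ := hS.ps hM hm hc hη hpos hlow Λ fun x hx hG =>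
    absurd hx (not_le.2 (hcon x hG))
  set m0 : ℝ := -B - W * Real.log (2 * 4 ^ Module.finrank ℝ E) with hm0
  obtain ⟨i1, hi1⟩ : ∃ i1, ∀ i, m i1 ≤ m i := by
    have : Nonempty ι := ⟨i0⟩
    exact Finite.exists_min m
  have hmi1 := hm i1
  set V1 : ℝ := volume.real (closedBall (0 : E) (1 + ρ)) with hV1
  have hV10 : 0 ≤ V1 := measureReal_nonneg
  -- the parameter of the disc
  obtain ⟨τ, hτ0, hτ1, hτ2⟩ : ∃ τ : ℝ, 0 ≤ τ ∧ Real.exp (-τ) * V1 ≤ R * v0 ∧
      Λ - m0 + 1 ≤ τ * m i1 := by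
    have e1 : Tendsto (fun τ : ℝ => Real.exp (-τ) * V1) atTop (𝓝 0) := by
      have := (Real.tendsto_exp_neg_atTop_nhds_zero).mul_const V1
      rwa [zero_mul] at this
    have e2 : Tendsto (fun τ : ℝ => τ * m i1) atTop atTop := tendsto_id.atTop_mul_const hmi1
    obtain ⟨τ, h1, h2, h3⟩ := ((e1.eventually (gt_mem_nhds (mul_pos hRpos hv0pos))).and
      ((e2.eventually (eventually_ge_atTop (Λ - m0 + 1))).and (eventually_ge_atTop 0))).exists
    exact ⟨τ, h3, h1.le, h2⟩
  -- the bodies of the disc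
  have hbody := fun ξ => ball_sub_BK hv hρ he hev hu τ ξ
  have hVle : ∀ ξ, volume.real (BK (CC v ρ) u (gam u e τ ξ)) ≤ V1 := by
    intro ξ
    apply measureReal_mono _ measure_closedBall_lt_top.ne
    intro z hz
    rw [mem_closedBall_zero_iff]
    refine (hS.norm_le hz).trans ?_
    have h1 : Real.exp (gam u e τ ξ i0) ≤ 1 := Real.exp_le_one_iff.2 (gam_nonpos u e hτ0 ξ i0)
    calc (1 + ρ) * Real.exp (gam u e τ ξ i0) ≤ (1 + ρ) * 1 :=
          mul_le_mul_of_nonneg_left h1 (by positivity)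
      _ = 1 + ρ := mul_one _
  have hVge : ∀ ξ, v0 ≤ VV (CC v ρ) u (gam u e τ ξ) := by
    intro ξ
    obtain ⟨p, hp, -⟩ := hbody ξ
    rw [← hvball p]
    exact measureReal_mono hp (hS.isCompact_BK _).measure_lt_top.ne
  have hMn : W / (Module.finrank ℝ E : ℝ) = W / ((M : ℝ) + 1) := by
    rw [hM]
    push_cast
    ring
  have hLL : ∀ ξ (s : ℝ), ∑ i, m i * gam u e τ ξ i ≤ s → LL (CC v ρ) u m (gam u e τ ξ) ≤ s + Λ := by
    intro ξ s hs
    unfold LL
    rw [← hW, hMn]
    have h1 := Real.log_le_log hv0pos (hVge ξ)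
    have h2 := mul_le_mul_of_nonneg_left h1 (show 0 ≤ W / ((M : ℝ) + 1) by positivity)
    rw [hΛ]
    linarith
  have hnonpos : ∀ ξ i, m i * gam u e τ ξ i ≤ 0 := fun ξ i =>
    mul_nonpos_of_nonneg_of_nonpos (hm i).le (gam_nonpos u e hτ0 ξ i)
  have hsum1 : ∀ ξ i, gam u e τ ξ i ≤ -τ → ∑ j, m j * gam u e τ ξ j ≤ -(τ * m i1) := by
    intro ξ i hi
    have h1 : ∑ j, m j * gam u e τ ξ j ≤ m i * gam u e τ ξ i := by
      have h2 := Finset.single_le_sum (f := fun j => -(m j * gam u e τ ξ j))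
        (fun j _ => neg_nonneg.2 (hnonpos ξ j)) (Finset.mem_univ i)
      rw [Finset.sum_neg_distrib] at h2
      linarith
    have h2 : m i * gam u e τ ξ i ≤ m i * -τ := mul_le_mul_of_nonneg_left hi (hm i).le
    have h3 : m i1 * τ ≤ m i * τ := mul_le_mul_of_nonneg_right (hi1 i) hτ0
    linarith
  refine deform (F := LL (CC v ρ) u m) (G := GG (CC v ρ) u m)
    (b := fun x k => ∫ z in BK (CC v ρ) u x, ⟪z, e k⟫) (γ := gam u e τ)
    (W := W) (A := W * Module.finrank ℝ E) (ε := 1 / (Module.finrank ℝ E : ℝ)) (m0 := m0)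
    (Λ := Λ) (δ := δ) (hS.continuous_LL m) (hS.continuous_GG m)
    (continuous_pi fun k => hS.continuous_mom (by fun_prop)) (continuous_gam u e τ)
    hWpos (by positivity) (by positivity) hδ (hS.abs_GG fun i => (hm i).le) ?_ hPS ?_ ?_ ?_ ?_ ?_
  · intro x d hd
    exact hS.LL_add (fun i => (hm i).le) hn x d hd
  · intro ξ _
    have h1 := hLL ξ 0 (Finset.sum_nonpos fun i _ => hnonpos ξ i)
    linarith
  · intro x hx
    apply hS.balanced hM hm hc hη hpos hlow hv (fun z hz => ht_nonneg_of_CC hρ hz) huv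
    intro w hw
    have h1 : ∀ z : E, ⟪z, w⟫ = ∑ k, ⟪e k, w⟫ * ⟪z, e k⟫ := by
      intro z
      conv_lhs => rw [hex w hw]
      rw [inner_sum]
      exact Finset.sum_congr rfl fun k _ => real_inner_smul_right _ _ _
    rw [integral_congr_ae (ae_of_all _ h1), integral_finsetSum]
    · apply Finset.sum_eq_zero
      intro k _
      rw [integral_const_mul]
      have h2 := congrFun hx k
      simp only [Pi.zero_apply] at h2
      rw [h2, mul_zero]
    · intro k _
      exact (Sym.int_inner (hS.isCompact_BK x) (e k)).const_mul _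
  · intro ξ _ k hk
    rcases (abs_eq zero_le_one).1 hk with hk | hk
    · obtain ⟨i, hi⟩ := hip k
      have h1 := hLL ξ _ (hsum1 ξ i (gam_le_pos u e hτ0 hi hk))
      linarith
    · obtain ⟨i, hi⟩ := him k
      have h1 := hLL ξ _ (hsum1 ξ i (gam_le_neg u e hτ0 hi hk))
      linarith
  · intro ξ _ k hk
    obtain ⟨i, hi⟩ := hip k
    obtain ⟨p, hp, hp2⟩ := hbody ξ
    apply int_nonpos (hS.isCompact_BK _) (isClosed_closedBall.measurableSet) hp
      (a := R) (t := Real.exp (-τ)) (V := V1) (Real.exp_pos _).le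
    · intro z hz
      rw [← hi]
      exact ((mem_BK.1 hz).2 i).trans (Real.exp_le_exp.2 (gam_le_pos u e hτ0 hi hk))
    · intro z hz
      exact (hp2 z hz k).1 (by rw [hk]; exact one_pos)
    · exact hVle ξ
    · rw [hvball]
      exact hτ1
  · intro ξ _ k hk
    obtain ⟨i, hi⟩ := him k
    obtain ⟨p, hp, hp2⟩ := hbody ξ
    have h1 : ∫ z in BK (CC v ρ) u (gam u e τ ξ), ⟪z, -e k⟫ ≤ 0 := by
      apply int_nonpos (hS.isCompact_BK _) (isClosed_closedBall.measurableSet) hp
        (a := R) (t := Real.exp (-τ)) (V := V1) (Real.exp_pos _).le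
      · intro z hz
        rw [← hi]
        exact ((mem_BK.1 hz).2 i).trans (Real.exp_le_exp.2 (gam_le_neg u e hτ0 hi hk))
      · intro z hz
        rw [inner_neg_right]
        have := (hp2 z hz k).2 (by rw [hk]; norm_num)
        linarith
      · exact hVle ξ
      · rw [hvball]
        exact hτ1
    simp only [inner_neg_right] at h1
    rw [integral_neg] at h1
    linarith

end Pool.Agent.Lib.MP_abca01_gt.Link
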