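import Pool.Agent.Lib.MP_abca01_gt.Link.Wulff

/-!
# Linking, 4: continuity of the volumes and the functional

* `LL C u m x = ∑ m i * x i - (∑ m i / n) log (VV C u x)`
* `GG C u m x i = m i - (∑ m i) * (VA C u x i / VV C u x)`
-/

set_option autoImplicit false

open MeasureTheory Set Metric Filter Topology
open scoped RealInnerProductSpace Pointwise

namespace Pool.Agent.Lib.MP_abca01_gt.Link

theorem continuousAt_set {X E : Type} [TopologicalSpace X] [FirstCountableTopology X]
    [MeasurableSpace E] {lam : Measure E} {S : X → Set E} {f : E → ℝ} {x₀ : X} {B : Set E}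
    (hS : ∀ x, MeasurableSet (S x)) (hB : MeasurableSet B) (hf : IntegrableOn f B lam)
    (hsub : ∀ᶠ x in 𝓝 x₀, S x ⊆ B)
    (hlim : ∀ᵐ z ∂lam, ∀ᶠ x in 𝓝 x₀, (z ∈ S x ↔ z ∈ S x₀)) :
    ContinuousAt (fun x => ∫ z in S x, f z ∂lam) x₀ := by
  have h1 : ∀ x, ∫ z in S x, f z ∂lam = ∫ z, (S x).indicator f z ∂lam := fun x =>
    (integral_indicator (hS x)).symm
  simp only [h1]
  apply continuousAt_of_dominated (bound := B.indicator fun z => ‖f z‖)
  · filter_upwards [hsub] with x hx
    exact ((hf.mono_set hx).integrable_indicator (hS x)).aestronglyMeasurable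
  · filter_upwards [hsub] with x hx
    refine ae_of_all _ fun z => ?_
    by_cases hz : z ∈ S x
    · rw [indicator_of_mem hz, indicator_of_mem (hx hz)]
    · rw [indicator_of_notMem hz, norm_zero]
      exact indicator_nonneg (fun _ _ => norm_nonneg _) z
  · exact (integrable_indicator_iff hB).2 hf.norm
  · filter_upwards [hlim] with z hz
    apply ContinuousAt.congr (f := fun _ => (S x₀).indicator f z) continuousAt_const
    filter_upwards [hz] with x hx
    by_cases h2 : z ∈ S x₀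
    · rw [indicator_of_mem h2, indicator_of_mem (hx.2 h2)]
    · rw [indicator_of_notMem h2, indicator_of_notMem fun h3 => h2 (hx.1 h3)]

theorem eventually_iff_le {X : Type} [TopologicalSpace X] {f : X → ℝ} {x₀ : X} {c : ℝ}
    (hf : ContinuousAt f x₀) (h : f x₀ ≠ c) : ∀ᶠ x in 𝓝 x₀, (f x ≤ c ↔ f x₀ ≤ c) := by
  rcases lt_or_gt_of_ne h with h | h
  · filter_upwards [hf.eventually (gt_mem_nhds h)] with x hx
    exact ⟨fun _ => h.le, fun _ => hx.le⟩
  · filter_upwards [hf.eventually (lt_mem_nhds h)] with x hx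
    exact ⟨fun h1 => absurd h1 (not_le.2 hx), fun h1 => absurd h1 (not_le.2 h)⟩

variable {E : Type} [NormedAddCommGroup E] [InnerProductSpace ℝ E]
variable {ι : Type} {C : Set E} {u : ι → E} {i0 : ι} {A : ℝ}

theorem continuous_gg' (i : ι) (z : E) : Continuous fun x : ι → ℝ => gg u x i z := by
  unfold gg
  fun_prop

variable [FiniteDimensional ℝ E] [MeasurableSpace E] [BorelSpace E] [Fintype ι]

theorem Setup.ev_BK (h : Setup C u i0 A) (x₀ : ι → ℝ) :
    ∀ᵐ z ∂(volume : Measure E), ∀ᶠ x in 𝓝 x₀, (z ∈ BK C u x ↔ z ∈ BK C u x₀) := by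
  have h1 : ∀ᵐ z ∂(volume : Measure E), ∀ i, gg u x₀ i z ≠ 1 :=
    ae_all_iff.2 fun i => h.ae_ne_one x₀ i
  filter_upwards [h1] with z hz
  have h2 : ∀ᶠ x in 𝓝 x₀, ∀ i, (gg u x i z ≤ 1 ↔ gg u x₀ i z ≤ 1) := by
    rw [eventually_all]
    exact fun i => eventually_iff_le (continuous_gg' i z).continuousAt (hz i)
  filter_upwards [h2] with x hx
  unfold BK
  simp only [mem_ofPred_eq, hx]

theorem Setup.ev_AK (h : Setup C u i0 A) (x₀ : ι → ℝ) (i : ι) :
    ∀ᵐ z ∂(volume : Measure E), ∀ᶠ x in 𝓝 x₀, (z ∈ AK C u x i ↔ z ∈ AK C u x₀ i) := by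
  have h1 : ∀ᵐ z ∂(volume : Measure E), ∀ j, i ≠ j → gg u x₀ j z ≠ gg u x₀ i z := by
    rw [ae_all_iff]
    intro j
    by_cases hij : i = j
    · exact ae_of_all _ fun z h2 => absurd hij h2
    · filter_upwards [h.ae_ne x₀ hij] with z hz _
      exact hz
  filter_upwards [h1, h.ae_ne_one x₀ i] with z hz hz1
  have h2 : ∀ᶠ x in 𝓝 x₀, ∀ j, (gg u x j z ≤ gg u x i z ↔ gg u x₀ j z ≤ gg u x₀ i z) := by
    rw [eventually_all]
    intro j
    by_cases hij : i = j
    · subst hij
      simp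
    · have h3 := eventually_iff_le (f := fun x => gg u x j z - gg u x i z) (c := 0)
        ((continuous_gg' j z).sub (continuous_gg' i z)).continuousAt (x₀ := x₀)
        (sub_ne_zero.2 (hz j hij))
      filter_upwards [h3] with x hx
      simpa only [sub_nonpos] using hx
  filter_upwards [h2, eventually_iff_le (continuous_gg' i z).continuousAt hz1] with x hx hx1
  unfold AK
  simp only [mem_ofPred_eq, hx, hx1]

theorem Setup.ev_sub (h : Setup C u i0 A) (x₀ : ι → ℝ) :
    ∀ᶠ x in 𝓝 x₀, BK C u x ⊆ closedBall 0 (A * Real.exp (x₀ i0 + 1)) := by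
  have h1 : ∀ᶠ x : ι → ℝ in 𝓝 x₀, x i0 < x₀ i0 + 1 :=
    (continuous_apply i0).continuousAt.eventually (gt_mem_nhds (lt_add_one (x₀ i0)))
  filter_upwards [h1] with x hx z hz
  rw [mem_closedBall_zero_iff]
  exact (h.norm_le hz).trans (mul_le_mul_of_nonneg_left (Real.exp_le_exp.2 hx.le) h.pos.le)

theorem Setup.continuous_mom (h : Setup C u i0 A) {f : E → ℝ} (hf : Continuous f) :
    Continuous fun x : ι → ℝ => ∫ z in BK C u x, f z := by
  rw [continuous_iff_continuousAt]
  intro x₀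
  exact continuousAt_set (fun x => (h.isCompact_BK x).measurableSet)
    (isCompact_closedBall _ _).measurableSet
    (hf.continuousOn.integrableOn_compact (isCompact_closedBall _ _)) (h.ev_sub x₀) (h.ev_BK x₀)

theorem Setup.continuous_VA (h : Setup C u i0 A) (i : ι) :
    Continuous fun x : ι → ℝ => VA C u x i := by
  rw [continuous_iff_continuousAt]
  intro x₀
  have h1 := continuousAt_set (lam := (volume : Measure E)) (f := fun _ => (1 : ℝ)) (x₀ := x₀)
    (fun x => (h.isCompact_AK x i).measurableSet)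
    (isCompact_closedBall (0 : E) (A * Real.exp (x₀ i0 + 1))).measurableSet
    (integrableOn_const (isCompact_closedBall _ _).measure_lt_top.ne)
    (by
      filter_upwards [h.ev_sub x₀] with x hx
      exact (AK_subset x i).trans hx) (h.ev_AK x₀ i)
  simp only [setIntegral_const, smul_eq_mul, mul_one] at h1
  exact h1

theorem Setup.continuous_VV (h : Setup C u i0 A) : Continuous fun x : ι → ℝ => VV C u x := by
  have h1 : (fun x : ι → ℝ => VV C u x) = fun x => ∑ i, VA C u x i := funext fun x => h.VV_eq x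
  rw [h1]
  exact continuous_finsetSum _ fun i _ => h.continuous_VA i

/-! ### The functional -/

noncomputable def LL (C : Set E) (u : ι → E) (m x : ι → ℝ) : ℝ :=
  ∑ i, m i * x i - (∑ i, m i) / Module.finrank ℝ E * Real.log (VV C u x)

noncomputable def GG (C : Set E) (u : ι → E) (m x : ι → ℝ) (i : ι) : ℝ :=
  m i - (∑ j, m j) * (VA C u x i / VV C u x)

theorem Setup.continuous_LL (h : Setup C u i0 A) (m : ι → ℝ) : Continuous (LL C u m) := by
  unfold LL
  have h1 := h.continuous_VV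
  exact (by fun_prop : Continuous fun x : ι → ℝ => ∑ i, m i * x i).sub
    (continuous_const.mul (h1.log fun x => (h.VV_pos x).ne'))

theorem Setup.continuous_GG (h : Setup C u i0 A) (m : ι → ℝ) : Continuous (GG C u m) := by
  apply continuous_pi
  intro i
  unfold GG
  exact continuous_const.sub (continuous_const.mul
    ((h.continuous_VA i).div h.continuous_VV fun x => (h.VV_pos x).ne'))

theorem Setup.frac_nonneg (h : Setup C u i0 A) (x : ι → ℝ) (i : ι) :
    0 ≤ VA C u x i / VV C u x := div_nonneg (Setup.VA_nonneg x i) (h.VV_pos x).le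

theorem Setup.frac_sum (h : Setup C u i0 A) (x : ι → ℝ) : ∑ i, VA C u x i / VV C u x = 1 := by
  rw [← Finset.sum_div, ← h.VV_eq x, div_self (h.VV_pos x).ne']

theorem Setup.frac_le_one (h : Setup C u i0 A) (x : ι → ℝ) (i : ι) :
    VA C u x i / VV C u x ≤ 1 := by
  rw [← h.frac_sum x]
  exact Finset.single_le_sum (f := fun i => VA C u x i / VV C u x)
    (fun j _ => h.frac_nonneg x j) (Finset.mem_univ i)

theorem Setup.abs_GG (h : Setup C u i0 A) {m : ι → ℝ} (hm : ∀ i, 0 ≤ m i) (x : ι → ℝ) (i : ι) :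
    |GG C u m x i| ≤ ∑ j, m j := by
  have h1 : 0 ≤ ∑ j, m j := Finset.sum_nonneg fun j _ => hm j
  have h2 : m i ≤ ∑ j, m j := Finset.single_le_sum (fun j _ => hm j) (Finset.mem_univ i)
  have h3 := mul_le_mul_of_nonneg_left (h.frac_le_one x i) h1
  have h4 := mul_nonneg h1 (h.frac_nonneg x i)
  have h5 := hm i
  unfold GG
  rw [abs_le]
  constructor <;> linarith

theorem Setup.LL_add (h : Setup C u i0 A) {m : ι → ℝ} (hm : ∀ i, 0 ≤ m i)
    (hn : 0 < Module.finrank ℝ E) (x d : ι → ℝ)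
    (hd : ∀ i, |d i| ≤ 1 / (Module.finrank ℝ E : ℝ)) :
    LL C u m (x + d) ≤ LL C u m x + ∑ i, GG C u m (x + d) i * d i +
      (∑ i, m i) * Module.finrank ℝ E * ‖d‖ ^ 2 := by
  set n : ℕ := Module.finrank ℝ E with hndef
  have hn' : (0 : ℝ) < n := by exact_mod_cast hn
  set W : ℝ := ∑ i, m i with hW
  have hW0 : 0 ≤ W := Finset.sum_nonneg fun i _ => hm i
  set p : ι → ℝ := fun i => VA C u (x + d) i / VV C u (x + d) with hp
  have hp0 : ∀ i, 0 ≤ p i := fun i => h.frac_nonneg (x + d) i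
  have hp1 : ∑ i, p i = 1 := h.frac_sum (x + d)
  have hV := h.VV_pos (x + d)
  have hV0 := h.VV_pos x
  -- the ratio of the volumes
  have h1 : VV C u x / VV C u (x + d) ≤ ∑ i, (1 - n * d i + n ^ 2 * d i ^ 2) * p i := by
    have h2 := div_le_div_of_nonneg_right (h.star x d) hV.le
    refine h2.trans ?_
    rw [Finset.sum_div]
    refine Finset.sum_le_sum fun i _ => ?_
    rw [mul_div_assoc]
    apply mul_le_mul_of_nonneg_right _ (hp0 i)
    rw [← Real.exp_nat_mul]
    have h3 : |(n : ℝ) * -d i| ≤ 1 := by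
      rw [abs_mul, abs_neg, abs_of_pos hn']
      have := mul_le_mul_of_nonneg_left (hd i) hn'.le
      rwa [mul_one_div, div_self hn'.ne'] at this
    have h4 := (abs_le.1 (Real.abs_exp_sub_one_sub_id_le h3)).2
    nlinarith
  have h2 : ∑ i, (1 - n * d i + n ^ 2 * d i ^ 2) * p i ≤
      1 - n * ∑ i, p i * d i + n ^ 2 * ‖d‖ ^ 2 := by
    have h3 : ∀ i ∈ Finset.univ, (1 - n * d i + n ^ 2 * d i ^ 2) * p i ≤
        p i - n * (p i * d i) + n ^ 2 * ‖d‖ ^ 2 * p i := by
      intro i _
      have h4 : d i ^ 2 ≤ ‖d‖ ^ 2 := by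
        rw [← sq_abs]
        exact pow_le_pow_left₀ (abs_nonneg _) (by
          have := norm_le_pi_norm d i
          rwa [Real.norm_eq_abs] at this) 2
      have h5 : (n : ℝ) ^ 2 * (d i ^ 2 * p i) ≤ n ^ 2 * (‖d‖ ^ 2 * p i) :=
        mul_le_mul_of_nonneg_left (mul_le_mul_of_nonneg_right h4 (hp0 i)) (by positivity)
      nlinarith
    refine (Finset.sum_le_sum h3).trans (le_of_eq ?_)
    rw [Finset.sum_add_distrib, Finset.sum_sub_distrib, ← Finset.mul_sum, ← Finset.mul_sum, hp1,
      mul_one]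
  have h3 : Real.log (VV C u x) - Real.log (VV C u (x + d)) ≤
      -(n * ∑ i, p i * d i) + n ^ 2 * ‖d‖ ^ 2 := by
    rw [← Real.log_div hV0.ne' hV.ne']
    have := Real.log_le_sub_one_of_pos (div_pos hV0 hV)
    linarith
  have h4 := mul_le_mul_of_nonneg_left h3 (div_nonneg hW0 hn'.le)
  have h5 : W / n * (-(n * ∑ i, p i * d i) + n ^ 2 * ‖d‖ ^ 2) =
      -(W * ∑ i, p i * d i) + W * n * ‖d‖ ^ 2 := by
    field_simp
  have h6 : ∑ i, GG C u m (x + d) i * d i = ∑ i, m i * d i - W * ∑ i, p i * d i := by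
    rw [Finset.mul_sum, ← Finset.sum_sub_distrib]
    refine Finset.sum_congr rfl fun i _ => ?_
    simp only [GG, hp]
    ring
  have h7 : ∑ i, m i * (x + d) i = ∑ i, m i * x i + ∑ i, m i * d i := by
    rw [← Finset.sum_add_distrib]
    refine Finset.sum_congr rfl fun i _ => ?_
    rw [Pi.add_apply]
    ring
  unfold LL
  rw [h6, h7]
  rw [h5] at h4
  linarith

/-! ### Dilations -/

omit [FiniteDimensional ℝ E] [MeasurableSpace E] [BorelSpace E] [Fintype ι] in
theorem gg_shift (x : ι → ℝ) (c : ℝ) (i : ι) (z : E) :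
    gg u (fun j => x j + c) i z = Real.exp (-c) * gg u x i z := by
  unfold gg
  rw [neg_add, Real.exp_add]
  ring

omit [FiniteDimensional ℝ E] [MeasurableSpace E] [BorelSpace E] [Fintype ι] in
theorem Setup.BK_shift (h : Setup C u i0 A) (x : ι → ℝ) (c : ℝ) :
    BK C u (fun j => x j + c) = Real.exp c • BK C u x := by
  ext z
  rw [mem_smul_set_iff_inv_smul_mem₀ (Real.exp_pos c).ne', ← Real.exp_neg]
  constructor
  · intro hz
    refine ⟨h.cone z hz.1 _ (Real.exp_pos _).le, fun i => ?_⟩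
    rw [gg_smul, ← gg_shift]
    exact hz.2 i
  · intro hz
    refine ⟨?_, fun i => ?_⟩
    · have h1 := h.cone _ hz.1 (Real.exp c) (Real.exp_pos _).le
      rwa [smul_smul, ← Real.exp_add, add_neg_cancel, Real.exp_zero, one_smul] at h1
    · have h1 := hz.2 i
      rwa [gg_smul, ← gg_shift] at h1

omit [FiniteDimensional ℝ E] [MeasurableSpace E] [BorelSpace E] [Fintype ι] in
theorem Setup.AK_shift (h : Setup C u i0 A) (x : ι → ℝ) (c : ℝ) (i : ι) :
    AK C u (fun j => x j + c) i = Real.exp c • AK C u x i := by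
  ext z
  rw [mem_smul_set_iff_inv_smul_mem₀ (Real.exp_pos c).ne', ← Real.exp_neg]
  constructor
  · intro hz
    refine ⟨h.cone z hz.1 _ (Real.exp_pos _).le, ?_, fun j => ?_⟩
    · rw [gg_smul, ← gg_shift]
      exact hz.2.1
    · rw [gg_smul, gg_smul, ← gg_shift, ← gg_shift]
      exact hz.2.2 j
  · intro hz
    refine ⟨?_, ?_, fun j => ?_⟩
    · have h1 := h.cone _ hz.1 (Real.exp c) (Real.exp_pos _).le
      rwa [smul_smul, ← Real.exp_add, add_neg_cancel, Real.exp_zero, one_smul] at h1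
    · have h1 := hz.2.1
      rwa [gg_smul, ← gg_shift] at h1
    · have h1 := hz.2.2 j
      rwa [gg_smul, gg_smul, ← gg_shift, ← gg_shift] at h1

omit [Fintype ι] in
theorem Setup.VV_shift (h : Setup C u i0 A) (x : ι → ℝ) (c : ℝ) :
    VV C u (fun j => x j + c) = Real.exp c ^ Module.finrank ℝ E * VV C u x := by
  unfold VV
  rw [h.BK_shift, Energyaux.real_smul volume (Real.exp_pos _).le]

omit [Fintype ι] in
theorem Setup.VA_shift (h : Setup C u i0 A) (x : ι → ℝ) (c : ℝ) (i : ι) :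
    VA C u (fun j => x j + c) i = Real.exp c ^ Module.finrank ℝ E * VA C u x i := by
  unfold VA
  rw [h.AK_shift, Energyaux.real_smul volume (Real.exp_pos _).le]

theorem Setup.GG_shift (h : Setup C u i0 A) (m x : ι → ℝ) (c : ℝ) :
    GG C u m (fun j => x j + c) = GG C u m x := by
  funext i
  unfold GG
  rw [h.VV_shift, h.VA_shift, mul_div_mul_left _ _ (pow_pos (Real.exp_pos c) _).ne']

theorem Setup.LL_shift (h : Setup C u i0 A) (hn : 0 < Module.finrank ℝ E) (m x : ι → ℝ) (c : ℝ) :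
    LL C u m (fun j => x j + c) = LL C u m x := by
  have hn' : (0 : ℝ) < Module.finrank ℝ E := by exact_mod_cast hn
  unfold LL
  rw [h.VV_shift, Real.log_mul (pow_pos (Real.exp_pos c) _).ne' (h.VV_pos x).ne', Real.log_pow,
    Real.log_exp]
  have h1 : ∑ i, m i * (x i + c) = ∑ i, m i * x i + (∑ i, m i) * c := by
    rw [Finset.sum_mul, ← Finset.sum_add_distrib]
    refine Finset.sum_congr rfl fun i _ => ?_
    ring
  rw [h1]
  field_simp
  ring

end Pool.Agent.Lib.MP_abca01_gt.Link
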