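import Pool.Agent.Lib.MP_abca01_gt.Link.Solve
import Pool.Agent.Lib.MP_abca01_gt.Link.Approx
import Pool.Agent.Lib.MP_abca01_gt.Link.Closure
import Pool.Agent.Lib.MP_abca01_gt.Overlap

/-!
# Linking, 12: measures on a closed hemisphere
-/

set_option autoImplicit false

open MeasureTheory Set Metric Filter Topology
open scoped RealInnerProductSpace Pointwise

namespace Pool.Agent.Lib.MP_abca01_gt.Link

open Ess

variable {E : Type} [NormedAddCommGroup E] [InnerProductSpace ℝ E] [FiniteDimensional ℝ E]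
  [MeasurableSpace E] [BorelSpace E]

/-- The choice of the cone. -/
theorem exists_cone {mu : Measure E} [IsFiniteMeasure mu] (hmu : mu ≠ 0)
    (hsph : mu (sphere (0 : E) 1)ᶜ = 0) {v : E} (hv : ‖v‖ = 1)
    (hscc : ∀ L : Submodule ℝ E, L ≠ ⊥ → (∀ z ∈ L, ⟪z, v⟫ = 0) →
      (Module.finrank ℝ E : ℝ) * mu.real (L : Set E) < Module.finrank ℝ L * mu.real univ)
    (hht : mu {u | ⟪u, v⟫ < 0} = 0) (hn : 0 < Module.finrank ℝ E) :
    ∃ ρ : ℝ, 0 < ρ ∧ ∀ L : Submodule ℝ E, L ≠ ⊥ → L ≠ ⊤ →
      (∃ y ∈ CC v ρ, ‖y‖ = 1 ∧ ∀ z ∈ L, ⟪z, y⟫ = 0) →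
      (Module.finrank ℝ E : ℝ) * mu.real (L : Set E) < Module.finrank ℝ L * mu.real univ := by
  have hn' : (0 : ℝ) < Module.finrank ℝ E := by exact_mod_cast hn
  have hMpos : 0 < mu.real univ := by
    rw [measureReal_def, ENNReal.toReal_pos_iff]
    refine ⟨?_, measure_lt_top _ _⟩
    rw [pos_iff_ne_zero]
    simpa using hmu
  -- the mass near the equator
  obtain ⟨ρ, hρ, hρm⟩ : ∃ ρ : ℝ, 0 < ρ ∧ (Module.finrank ℝ E : ℝ) *
      mu.real {u | 0 < ht v u ∧ ht v u ≤ ρ * hor v u} < mu.real univ := by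
    set S : ℕ → Set E := fun k => {u | 0 < ht v u ∧ ht v u ≤ 1 / ((k : ℝ) + 1) * hor v u} with hS
    have hcont : Continuous (ht v) := by unfold ht; fun_prop
    have hcont' : Continuous (hor v) := by unfold hor; fun_prop
    have hSm : ∀ k, MeasurableSet (S k) := fun k =>
      (isOpen_lt continuous_const hcont).measurableSet.inter
        (isClosed_le hcont (continuous_const.mul hcont')).measurableSet
    have hSa : Antitone S := by
      intro k l hkl u hu
      refine ⟨hu.1, hu.2.trans ?_⟩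
      apply mul_le_mul_of_nonneg_right _ (norm_nonneg _)
      apply one_div_le_one_div_of_le (by positivity)
      have : (k : ℝ) ≤ l := by exact_mod_cast hkl
      linarith
    have hSe : ⋂ k, S k = ∅ := by
      rw [eq_empty_iff_forall_notMem]
      intro u hu
      rw [mem_iInter] at hu
      have h1 := (hu 0).1
      have h2 : Tendsto (fun k : ℕ => 1 / ((k : ℝ) + 1) * hor v u) atTop (𝓝 (0 * hor v u)) :=
        (tendsto_one_div_add_atTop_nhds_zero_nat (𝕜 := ℝ)).mul_const _
      rw [zero_mul] at h2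
      have h3 := ge_of_tendsto' h2 fun k => (hu k).2
      linarith
    have h3 := tendsto_measure_iInter_atTop (μ := mu) (fun k => (hSm k).nullMeasurableSet) hSa
      ⟨0, measure_ne_top mu _⟩
    rw [hSe, measure_empty] at h3
    have h4 : Tendsto (fun k : ℕ => mu.real (S k)) atTop (𝓝 0) := by
      have h5 := (ENNReal.tendsto_toReal ENNReal.zero_ne_top).comp h3
      rw [ENNReal.toReal_zero] at h5
      exact h5
    have h5 : Tendsto (fun k : ℕ => (Module.finrank ℝ E : ℝ) * mu.real (S k)) atTop (𝓝 0) := by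
      have := h4.const_mul (Module.finrank ℝ E : ℝ)
      rwa [mul_zero] at this
    obtain ⟨k, hk⟩ := (h5.eventually (gt_mem_nhds hMpos)).exists
    exact ⟨1 / ((k : ℝ) + 1), by positivity, hk⟩
  refine ⟨ρ, hρ, fun L hL0 _ => ?_⟩
  rintro ⟨y, hyC, hy1, hyL⟩
  by_cases hLv : ∀ z ∈ L, ⟪z, v⟫ = 0
  · exact hscc L hL0 hLv
  -- the points of `L` are near the equator
  have hyt : 0 < ht v y := by
    have h1 := norm_le_ht_hor hv y
    have h2 := ht_nonneg_of_CC hρ hyC
    have h3 : hor v y ≤ ρ * ht v y := hyC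
    rw [abs_of_nonneg h2, hy1] at h1
    rcases h2.lt_or_eq with h4 | h4
    · exact h4
    · rw [← h4] at h1 h3
      linarith
  have hnear : ∀ z ∈ L, ht v z ≤ ρ * hor v z := by
    intro z hz
    have h1 := hyL z hz
    have h2 : ⟪z, y⟫ = ht v z * ht v y + ⟪z - ht v z • v, y - ht v y • v⟫ := by
      have h3 : ⟪v, v⟫ = (1 : ℝ) := by rw [real_inner_self_eq_norm_sq, hv, one_pow]
      unfold ht
      rw [inner_sub_left, inner_sub_right, inner_sub_right, real_inner_smul_left,
        real_inner_smul_left, real_inner_smul_right, real_inner_smul_right, h3,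
        real_inner_comm y v]
      ring
    have h3 := (abs_le.1 (abs_real_inner_le_norm (z - ht v z • v) (y - ht v y • v))).1
    have h4 : ‖z - ht v z • v‖ = hor v z := rfl
    have h5 : ‖y - ht v y • v‖ = hor v y := rfl
    rw [h4, h5] at h3
    have h6 : hor v y ≤ ρ * ht v y := hyC
    have h7 : hor v z * hor v y ≤ hor v z * (ρ * ht v y) :=
      mul_le_mul_of_nonneg_left h6 (norm_nonneg _)
    have h8 : ht v y * ht v z ≤ ht v y * (ρ * hor v z) := by nlinarith
    exact le_of_mul_le_mul_left h8 hyt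
  -- the intersection with the equator
  set L' : Submodule ℝ E := L ⊓ LinearMap.ker (innerₛₗ ℝ v) with hL'
  have hmemL' : ∀ z, z ∈ L' ↔ z ∈ L ∧ ⟪z, v⟫ = 0 := by
    intro z
    rw [hL', Submodule.mem_inf, LinearMap.mem_ker, innerₛₗ_apply_apply, real_inner_comm]
  have hlt : L' < L := by
    refine lt_of_le_of_ne inf_le_left fun heq => hLv fun z hz => ?_
    rw [← heq] at hz
    exact ((hmemL' z).1 hz).2
  have hrank : (Module.finrank ℝ L' : ℝ) + 1 ≤ Module.finrank ℝ L := by
    have := Submodule.finrank_lt_finrank_of_lt hlt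
    exact_mod_cast this
  have hsplit : mu.real (L : Set E) ≤ mu.real (L' : Set E) +
      mu.real {u | 0 < ht v u ∧ ht v u ≤ ρ * hor v u} := by
    refine le_trans ?_ (measureReal_union_le _ _)
    apply ENNReal.toReal_mono (measure_ne_top mu _)
    apply measure_mono_ae
    have e2 : ∀ᵐ u ∂mu, ¬ ⟪u, v⟫ < 0 := by
      rw [ae_iff]
      simpa using hht
    filter_upwards [e2] with u hu hmem
    have h0 : 0 ≤ ⟪u, v⟫ := not_lt.1 hu
    rcases h0.lt_or_eq with h1 | h1
    · exact Or.inr ⟨h1, hnear u hmem⟩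
    · exact Or.inl ((hmemL' u).2 ⟨hmem, h1.symm⟩)
  have hL'm : (Module.finrank ℝ E : ℝ) * mu.real (L' : Set E) ≤
      Module.finrank ℝ L' * mu.real univ := by
    by_cases h0 : L' = ⊥
    · have h1 : mu (L' : Set E) = 0 := by
        rw [h0]
        refine measure_mono_null ?_ hsph
        intro z hz
        have hz' : z = 0 := by simpa using hz
        rw [hz']
        simp
      have h2 : mu.real (L' : Set E) = 0 := by rw [measureReal_def, h1, ENNReal.toReal_zero]
      rw [h2, mul_zero]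
      positivity
    · exact (hscc L' h0 fun z hz => ((hmemL' z).1 hz).2).le
  have h1 := mul_le_mul_of_nonneg_left hsplit hn'.le
  have h2 := mul_le_mul_of_nonneg_right hrank hMpos.le
  linarith

/-- **The theorem for closed hemispheres.** -/
theorem hemi_theorem (mu : Measure E) [IsFiniteMeasure mu] (v : E) (hv : ‖v‖ = 1)
    (hmu : mu ≠ 0) (hsph : mu (sphere (0 : E) 1)ᶜ = 0) (hht : mu {u | ⟪u, v⟫ < 0} = 0)
    (hscc : ∀ L : Submodule ℝ E, L ≠ ⊥ → (∀ z ∈ L, ⟪z, v⟫ = 0) →
      (Module.finrank ℝ E : ℝ) * mu.real (L : Set E) < Module.finrank ℝ L * mu.real univ) :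
    ∃ K : Set E, IsCompact K ∧ Convex ℝ K ∧ (interior K).Nonempty ∧ (0 : E) ∈ K ∧
      ∀ ω : Set E, MeasurableSet ω → ω ⊆ sphere (0 : E) 1 → volume (segs K ω) = mu ω := by
  classical
  have hv0 : v ≠ 0 := by
    intro h
    rw [h, norm_zero] at hv
    exact zero_ne_one hv
  have hn : 0 < Module.finrank ℝ E := by
    have : Nontrivial E := ⟨v, 0, hv0⟩
    exact Module.finrank_pos
  obtain ⟨M, hM⟩ : ∃ M, Module.finrank ℝ E = M + 1 := ⟨Module.finrank ℝ E - 1, by omega⟩
  have hM1 : (0 : ℝ) < (M : ℝ) + 1 := by positivity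
  have hMpos : 0 < mu.real univ := by
    rw [measureReal_def, ENNReal.toReal_pos_iff]
    refine ⟨?_, measure_lt_top _ _⟩
    rw [pos_iff_ne_zero]
    simpa using hmu
  have hae : ∀ᵐ u ∂mu, ‖u‖ = 1 := by
    have e1 : ∀ᵐ u ∂mu, u ∈ sphere (0 : E) 1 := hsph
    filter_upwards [e1] with u hu
    simpa using hu
  -- the frame of the equator
  set b := stdOrthonormalBasis ℝ (ℝ ∙ v)ᗮ with hb
  set e : Fin (Module.finrank ℝ (ℝ ∙ v)ᗮ) → E := fun k => (b k : E) with he
  have heo : Orthonormal ℝ e := b.orthonormal.comp_linearIsometry (Submodule.subtypeₗᵢ _)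
  have hev : ∀ k, ⟪e k, v⟫ = 0 := fun k =>
    Submodule.mem_orthogonal_singleton_iff_inner_left.1 (b k).2
  have hex : ∀ w, ⟪v, w⟫ = 0 → w = ∑ k, ⟪e k, w⟫ • e k := by
    intro w hw
    have h1 : w ∈ (ℝ ∙ v)ᗮ := Submodule.mem_orthogonal_singleton_iff_inner_right.2 hw
    have h2 := congrArg (fun z : (ℝ ∙ v)ᗮ => (z : E)) (b.sum_repr' ⟨w, h1⟩)
    simp only [Submodule.coe_sum, Submodule.coe_smul, Submodule.coe_inner] at h2
    exact h2.symm
  -- the constants
  obtain ⟨c, hc, -, hpos⟩ := exists_pos E (M + 1) hM (Nat.succ_pos M)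
  obtain ⟨ρ, hρ, hcone⟩ := exists_cone hmu hsph hv hscc hht hn
  have hCcl : IsClosed (CC v ρ) := by
    unfold CC hor ht
    exact isClosed_le (by fun_prop) (by fun_prop)
  have hCcone : ∀ z ∈ CC v ρ, ∀ t : ℝ, 0 ≤ t → t • z ∈ CC v ρ := by
    intro z hz t ht0
    change hor v (t • z) ≤ ρ * ht v (t • z)
    rw [hor_smul v ht0, ht_smul]
    have := mul_le_mul_of_nonneg_left (show hor v z ≤ ρ * ht v z from hz) ht0
    linarith
  choose δ' hδ' hδthin using fun i => exists_thin hae hM hCcl hcone i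
  obtain ⟨δ1, hδ1, hδ1'⟩ := exists_pos_le δ' hδ'
  set δ : ℝ := min (δ1 / 2) (1 / ((M : ℝ) + 1)) with hδdef
  have hδ : 0 < δ := by positivity
  have hδM : ((M : ℝ) + 1) * δ ^ 2 ≤ 1 := by
    have h1 : δ ≤ 1 / ((M : ℝ) + 1) := min_le_right _ _
    have h2 : ((M : ℝ) + 1) * δ ≤ 1 := by
      calc ((M : ℝ) + 1) * δ ≤ ((M : ℝ) + 1) * (1 / ((M : ℝ) + 1)) :=
            mul_le_mul_of_nonneg_left h1 hM1.le
        _ = 1 := by field_simp
    have h3 : δ ≤ 1 := by
      refine h1.trans ?_
      rw [div_le_one hM1]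
      have : (0 : ℝ) ≤ M := Nat.cast_nonneg M
      linarith
    nlinarith
  have hδ2 : δ ≤ δ1 / 2 := min_le_left _ _
  set W0 : ℝ := mu.real univ + 1 with hW0
  obtain ⟨B, hB⟩ := lowB_of_thin (E := E) hCcone M hc hδ hδM hδ (W0 := W0) (by positivity)
  obtain ⟨R, hR⟩ := solve (B := B) (W0 := W0) hv hρ heo hev hex hM hc hδ hpos
  -- the approximate solutions
  have hsol : ∀ j : ℕ, ∃ K : Set E, (IsCompact K ∧ Convex ℝ K ∧ (0 : E) ∈ K ∧
      K ⊆ closedBall 0 R ∧ volume.real K ≤ mu.real univ + 1 / ((j : ℝ) + 1)) ∧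
      ∀ ω : Set E, mu.real ω ≤
        volume.real (segs K (cthickening (1 / ((j : ℝ) + 1)) ω ∩ sphere (0 : E) 1)) := by
    intro j
    set ε : ℝ := min (1 / ((j : ℝ) + 1)) δ with hε
    have hεpos : 0 < ε := by positivity
    have hε1 : ε ≤ 1 / ((j : ℝ) + 1) := min_le_left _ _
    have hε2 : ε ≤ δ := min_le_right _ _
    have hε3 : ε ≤ 1 := by
      refine hε1.trans ?_
      rw [div_le_one (by positivity)]
      have : (0 : ℝ) ≤ j := Nat.cast_nonneg j
      linarith
    set P : Finset E := insert v (Finset.image e Finset.univ ∪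
      Finset.image (fun k => -e k) Finset.univ) with hP
    obtain ⟨T, m, hPT, hT, hsum, hlo, hup⟩ := exists_discrete hsph hht P
      (by
        intro p hp
        rcases Finset.mem_insert.1 hp with h | h
        · rw [h, real_inner_self_eq_norm_sq, hv]
          norm_num
        · rcases Finset.mem_union.1 h with h | h
          · obtain ⟨k, -, rfl⟩ := Finset.mem_image.1 h
            exact ⟨heo.1 k, (hev k).ge⟩
          · obtain ⟨k, -, rfl⟩ := Finset.mem_image.1 h
            refine ⟨by rw [norm_neg]; exact heo.1 k, ?_⟩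
            rw [inner_neg_left, hev k, neg_zero])
      ⟨v, Finset.mem_insert_self _ _⟩ hεpos
    have hvT : v ∈ T := hPT (Finset.mem_insert_self _ _)
    have hsub : ∀ f : E → ℝ, ∑ t : {t // t ∈ T}, f t = ∑ t ∈ T, f t := fun f =>
      Finset.sum_coe_sort T f
    have hsum' : ∑ t : {t // t ∈ T}, m t = mu.real univ + ε := by rw [hsub m, hsum]
    obtain ⟨K, hK1, hK2, hK3, hK4, hK5, hK6⟩ := hR {t // t ∈ T} (fun t => (t : E))
      (fun t => m t) ⟨v, hvT⟩ (fun t => (hT t t.2).1) Subtype.val_injective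
      (fun t => (hT t t.2).2.1) rfl
      (fun k => ⟨⟨e k, hPT (Finset.mem_insert_of_mem (Finset.mem_union_left _
        (Finset.mem_image_of_mem _ (Finset.mem_univ k))))⟩, rfl⟩)
      (fun k => ⟨⟨-e k, hPT (Finset.mem_insert_of_mem (Finset.mem_union_right _
        (Finset.mem_image_of_mem (fun k => -e k) (Finset.mem_univ k))))⟩, rfl⟩)
      (fun t => (hT t t.2).2.2) (by rw [hsum', hW0]; linarith)
      (by
        apply hB {t // t ∈ T} (fun t => (t : E)) (fun t => m t) (fun t => (hT t t.2).1)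
          (fun t => (hT t t.2).2.2.le) (by rw [hsum', hW0]; linarith)
        intro f i y hy hy1 hyf
        have h1 := hlo (BB f δ i) (BB f δ1 i) (by
          intro t ht u hu hut k hk
          have h2 := ht k hk
          have h3 : ⟪f k, u⟫ = ⟪f k, t⟫ + ⟪f k, u - t⟫ := by rw [inner_sub_right]; ring
          have h4 := abs_real_inner_le_norm (f k) (u - t)
          rw [f.norm_eq_one, one_mul] at h4
          have h5 : |⟪f k, u⟫| ≤ |⟪f k, t⟫| + |⟪f k, u - t⟫| := by
            rw [h3]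
            exact abs_add_le _ _
          linarith)
        have h2 := hδthin i f y hy hy1 fun k hk => (hyf k hk).trans (by
          have := hδ1' i
          linarith)
        have h3 := measureReal_mono (μ := mu) (BB_mono f (hδ1' i) i)
        have h4 : mass (fun t : {t // t ∈ T} => (t : E)) (fun t => m t) (BB f δ i) =
            ∑ t ∈ T, m t * (BB f δ i).indicator 1 t :=
          hsub fun t => m t * (BB f δ i).indicator 1 t
        rw [h4, hsum']
        have h5 : 0 ≤ ((i : ℝ) + 1) / ((M : ℝ) + 1) * ε := by positivity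
        have h6 := hδ1' i
        rw [mul_add]
        linarith)
    refine ⟨K, ⟨hK1, hK2, hK3, hK4, by rw [hK5, hsum']; linarith⟩, fun ω => ?_⟩
    refine (hup ω (cthickening (1 / ((j : ℝ) + 1)) ω ∩ sphere (0 : E) 1) ?_).trans ?_
    · intro u hu t ht hut
      refine ⟨mem_cthickening_of_dist_le _ _ _ _ hu ?_, by simpa using ht⟩
      rw [dist_eq_norm, norm_sub_rev]
      exact hut.trans hε1
    · rw [← hsub fun t => m t *
        (cthickening (1 / ((j : ℝ) + 1)) ω ∩ sphere (0 : E) 1).indicator 1 t]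
      exact hK6 _
  choose K hK hKω using hsol
  obtain ⟨L, hL1, hL2, hL3, -, hL5, hL6⟩ := closure' volume mu (closedBall (0 : E) R)
    (mu.real univ) K (isCompact_closedBall _ _) hK fun j ω _ _ => hKω j ω
  have hsu : mu.real (sphere (0 : E) 1) = mu.real univ := by
    have h1 := measureReal_add_measureReal_compl (μ := mu) (s := sphere (0 : E) 1)
      isClosed_sphere.measurableSet
    have h2 : mu.real (sphere (0 : E) 1)ᶜ = 0 := by rw [measureReal_def, hsph, ENNReal.toReal_zero]
    linarith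
  have hLV : volume.real L = mu.real univ := by
    apply le_antisymm hL5
    rw [← hsu]
    refine (hL6 _ (isCompact_sphere 0 1) Subset.rfl).trans ?_
    exact measureReal_mono (segs_subset hL2 hL3) hL1.measure_lt_top.ne
  have hLV0 : 0 < volume.real L := by rw [hLV]; exact hMpos
  have hbor := stmtBorel stmtOverlap E volume mu L hL1 hL2 hL3 hLV0 hmu hsph
    fun ω hω hωs => by
      rw [hLV, mul_comm]
      exact mul_le_mul_of_nonneg_left (hL6 ω hω hωs) hMpos.le
  refine ⟨L, hL1, hL2, Capaux.interior_nonempty volume hL2 hLV0, hL3, fun ω hω hωs => ?_⟩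
  have h1 := hbor ω hω hωs
  rw [hLV, mul_comm (mu.real ω)] at h1
  have h2 := mul_left_cancel₀ hMpos.ne' h1
  have h3 : (volume : Measure E) (segs L ω) ≠ ⊤ :=
    measure_ne_top_of_subset (segs_subset hL2 hL3) hL1.measure_lt_top.ne
  rw [measureReal_def, measureReal_def] at h2
  exact (ENNReal.toReal_eq_toReal_iff' h3 (measure_ne_top _ _)).mp h2

end Pool.Agent.Lib.MP_abca01_gt.Link
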