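import Pool.Agent.Lib.BrouwerThm.Basic

/-!
# Linking, 1: the Poincaré–Miranda theorem
-/

set_option autoImplicit false

namespace Pool.Agent.Lib.MP_abca01_gt.Link

theorem miranda {κ : Type} [Fintype κ] (f : (κ → ℝ) → κ → ℝ) (hf : Continuous f)
    (h1 : ∀ ξ : κ → ℝ, (∀ k, |ξ k| ≤ 1) → ∀ k, ξ k = 1 → f ξ k ≤ 0)
    (h2 : ∀ ξ : κ → ℝ, (∀ k, |ξ k| ≤ 1) → ∀ k, ξ k = -1 → 0 ≤ f ξ k) :
    ∃ ξ : κ → ℝ, (∀ k, |ξ k| ≤ 1) ∧ f ξ = 0 := by
  let clip : (κ → ℝ) → κ → ℝ := fun ξ k => max (-1) (min 1 (ξ k))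
  have hclip : Continuous clip := by fun_prop
  have hclip1 : ∀ ξ k, |clip ξ k| ≤ 1 := by
    intro ξ k
    rw [abs_le]
    exact ⟨le_max_left _ _, max_le (by norm_num) (min_le_left _ _)⟩
  let t : (κ → ℝ) → ℝ := fun ξ => min 1 (max 0 (‖ξ‖ - 1))
  have ht : Continuous t := by fun_prop
  have ht0 : ∀ x, 0 ≤ t x := fun x => le_min zero_le_one (le_max_left _ _)
  have ht1 : ∀ x, t x ≤ 1 := fun x => min_le_left _ _
  let G : (κ → ℝ) → κ → ℝ := fun ξ =>
    (1 - t ξ) • ((ξ - clip ξ) - f (clip ξ)) + t ξ • ξ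
  have hG : Continuous G := by
    have h3 : Continuous fun ξ => f (clip ξ) := hf.comp hclip
    exact ((continuous_const.sub ht).smul ((continuous_id.sub hclip).sub h3)).add
      (ht.smul continuous_id)
  obtain ⟨ξ, hξ⟩ := BrouwerThm.exists_zero_of_eq_linear (ContinuousLinearEquiv.refl ℝ (κ → ℝ)) G hG 2
    (by
      intro x hx
      have h3 : t x = 1 := by
        simp only [t]
        exact min_eq_left ((by linarith : (1 : ℝ) ≤ ‖x‖ - 1).trans (le_max_right _ _))
      simp [G, h3])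
  have hk : ∀ k, |ξ k| ≤ 1 := by
    intro k
    have h3 := congrFun hξ k
    simp only [G, Pi.add_apply, Pi.smul_apply, Pi.sub_apply, smul_eq_mul, Pi.zero_apply] at h3
    have h0 := ht0 ξ
    have h01 := ht1 ξ
    rw [abs_le]
    constructor
    · by_contra hcon
      push Not at hcon
      have h4 : clip ξ k = -1 := by
        simp only [clip]
        exact max_eq_left ((min_le_right _ _).trans hcon.le)
      have h5 := h2 (clip ξ) (hclip1 ξ) k h4
      rw [h4] at h3
      have h6 : (1 - t ξ) * (ξ k - -1 - f (clip ξ) k) ≤ (1 - t ξ) * (ξ k + 1) :=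
        mul_le_mul_of_nonneg_left (by linarith) (by linarith)
      have h7 : (1 - t ξ) * (ξ k + 1) + t ξ * ξ k = ξ k + 1 - t ξ := by ring
      linarith
    · by_contra hcon
      push Not at hcon
      have h4 : clip ξ k = 1 := by
        simp only [clip]
        rw [min_eq_left hcon.le]
        norm_num
      have h5 := h1 (clip ξ) (hclip1 ξ) k h4
      rw [h4] at h3
      have h6 : (1 - t ξ) * (ξ k - 1) ≤ (1 - t ξ) * (ξ k - 1 - f (clip ξ) k) :=
        mul_le_mul_of_nonneg_left (by linarith) (by linarith)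
      have h7 : (1 - t ξ) * (ξ k - 1) + t ξ * ξ k = ξ k - 1 + t ξ := by ring
      linarith
  refine ⟨ξ, hk, ?_⟩
  have h3 : clip ξ = ξ := by
    funext k
    have h4 := abs_le.1 (hk k)
    simp only [clip]
    rw [min_eq_right h4.2, max_eq_right h4.1]
  have h4 : ‖ξ‖ ≤ 1 := (pi_norm_le_iff_of_nonneg zero_le_one).2 fun k => by
    rw [Real.norm_eq_abs]
    exact hk k
  have h5 : t ξ = 0 := by
    simp only [t]
    rw [max_eq_left (by linarith)]
    exact min_eq_right zero_le_one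
  simp only [G, h3, h5, sub_zero, one_smul, sub_self, zero_sub, zero_smul, add_zero,
    neg_eq_zero] at hξ
  exact hξ

end Pool.Agent.Lib.MP_abca01_gt.Link
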