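import Pool.Agent.Lib.MP_abca01_gt.Link.Func
import Pool.Agent.Lib.MP_abca01_gt.EBdd

/-!
# Linking, 5: the Palais–Smale condition
-/

set_option autoImplicit false

open MeasureTheory Set Metric Filter Topology
open scoped RealInnerProductSpace Pointwise

namespace Pool.Agent.Lib.MP_abca01_gt.Link

open Ess

variable {E : Type} [NormedAddCommGroup E] [InnerProductSpace ℝ E]
variable {ι : Type} {C : Set E} {u : ι → E} {i0 : ι} {A : ℝ}

/-- The lower bound of the logarithmic integral of the discrete measure `∑ m i δ_(u i)`. -/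
def LowB [FiniteDimensional ℝ E] [MeasurableSpace E] [BorelSpace E] [Fintype ι] (C : Set E)
    (u : ι → E) (m : ι → ℝ) (M : ℕ) (c B η : ℝ) : Prop :=
  ∀ (K : Set E) (g : E) (e : OrthonormalBasis (Fin (M + 1)) ℝ E) (r : Fin (M + 1) → ℝ),
    IsCompact K → Convex ℝ K → K ⊆ C → (0 : E) ∈ K → Pos c K g e r →
    η * (Real.log (r (Fin.last M)) - Real.log (r 0)) - B ≤
      ∑ i, m i * Real.log (supp K (u i) - ⟪g, u i⟫) -
        (∑ i, m i) / ((M : ℝ) + 1) * Real.log (volume.real K)

variable [FiniteDimensional ℝ E] [MeasurableSpace E] [BorelSpace E] [Fintype ι]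

theorem Setup.contract (h : Setup C u i0 A) {x : ι → ℝ} {x0 : E} (hx0 : x0 ∈ BK C u x)
    {s : ℝ} (hs0 : 0 < s) (hs1 : s ≤ 1) (hs : ∀ i, s * (1 - gg u x i x0) < 1) :
    (1 - s) ^ Module.finrank ℝ E * VV C u x ≤
      ∑ i, (1 - s * (1 - gg u x i x0)) ^ Module.finrank ℝ E * VA C u x i := by
  have hs' : 0 ≤ 1 - s := by linarith
  have h1 : AffineMap.homothety x0 (1 - s) '' BK C u x ⊆
      ⋃ i, (1 - s * (1 - gg u x i x0)) • AK C u x i := by
    rintro _ ⟨y, hy, rfl⟩
    have h2 : AffineMap.homothety x0 (1 - s) y = (1 - s) • y + s • x0 := by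
      rw [AffineMap.homothety_apply, vsub_eq_sub, vadd_eq_add, smul_sub]
      module
    have h3 : (1 - s) • y + s • x0 ∈ BK C u x :=
      h.convex_BK x hy hx0 hs' hs0.le (by ring)
    rw [h2]
    have h4 := h3
    rw [h.cover x] at h4
    obtain ⟨i, hi⟩ := mem_iUnion.1 h4
    refine mem_iUnion.2 ⟨i, h.mem_smul_AK hi (by linarith [hs i]) ?_⟩
    have h5 : gg u x i ((1 - s) • y + s • x0) = (1 - s) * gg u x i y + s * gg u x i x0 := by
      unfold gg
      rw [inner_add_left, real_inner_smul_left, real_inner_smul_left]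
      ring
    rw [h5]
    have h6 := mul_le_mul_of_nonneg_left (hy.2 i) hs'
    linarith
  have h2 : volume.real (AffineMap.homothety x0 (1 - s) '' BK C u x) =
      (1 - s) ^ Module.finrank ℝ E * VV C u x := by
    rw [measureReal_def, Measure.addHaar_image_homothety, ENNReal.toReal_mul,
      ENNReal.toReal_ofReal (abs_nonneg _), abs_of_nonneg (pow_nonneg hs' _)]
    rfl
  rw [← h2]
  refine (measureReal_mono h1 ?_).trans ?_
  · refine ((measure_iUnion_fintype_le volume _).trans_lt ?_).ne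
    rw [ENNReal.sum_lt_top]
    intro i _
    exact ((h.isCompact_AK x i).smul _).measure_lt_top
  · refine (measureReal_iUnion_fintype_le _).trans (le_of_eq ?_)
    refine Finset.sum_congr rfl fun i _ => ?_
    rw [Energyaux.real_smul volume (by linarith [hs i])]
    rfl

/-- The first variation in the direction of an inner point. -/
theorem Setup.first_var (h : Setup C u i0 A) (hn : 0 < Module.finrank ℝ E) {x : ι → ℝ} {x0 : E}
    (hx0 : x0 ∈ BK C u x) : ∑ i, (1 - gg u x i x0) * VA C u x i ≤ VV C u x := by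
  set n : ℕ := Module.finrank ℝ E with hndef
  have hn' : (0 : ℝ) < n := by exact_mod_cast hn
  set σ : ι → ℝ := fun i => 1 - gg u x i x0 with hσ
  have hσ0 : ∀ i, 0 ≤ σ i := fun i => by
    have := hx0.2 i
    simp only [hσ]
    linarith
  set Q : ℝ := ∑ i, σ i ^ 2 * VA C u x i with hQ
  have hQ0 : 0 ≤ Q := Finset.sum_nonneg fun i _ =>
    mul_nonneg (sq_nonneg _) (Setup.VA_nonneg x i)
  set S : ℝ := ∑ i, σ i with hS
  have hS0 : 0 ≤ S := Finset.sum_nonneg fun i _ => hσ0 i
  have hSi : ∀ i, σ i ≤ S := fun i =>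
    Finset.single_le_sum (f := σ) (fun j _ => hσ0 j) (Finset.mem_univ i)
  apply le_of_forall_pos_le_add
  intro ε hε
  set s : ℝ := min (1 / (n * (S + 1))) (ε / (n * (Q + 1))) with hs
  have hspos : 0 < s := by positivity
  have hs1 : s * (n * (S + 1)) ≤ 1 := by
    have h1 : s ≤ 1 / (n * (S + 1)) := min_le_left _ _
    rwa [le_div_iff₀ (by positivity)] at h1
  have hs2 : s * (n * (Q + 1)) ≤ ε := by
    have h1 : s ≤ ε / (n * (Q + 1)) := min_le_right _ _
    rwa [le_div_iff₀ (by positivity)] at h1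
  have hn1 : (1 : ℝ) ≤ n := by exact_mod_cast hn
  have hs3 : s ≤ 1 := by
    have h1 : 1 ≤ (n : ℝ) * (S + 1) := by nlinarith
    have h2 : s * 1 ≤ s * (n * (S + 1)) := mul_le_mul_of_nonneg_left h1 hspos.le
    linarith
  have hs4 : ∀ i, n * (s * σ i) ≤ 1 := by
    intro i
    have h1 : s * (n * σ i) ≤ s * (n * (S + 1)) :=
      mul_le_mul_of_nonneg_left (mul_le_mul_of_nonneg_left (by linarith [hSi i]) hn'.le) hspos.le
    linarith
  have hs5 : ∀ i, s * σ i < 1 := by
    intro i
    have h1 : s * σ i < s * (S + 1) := mul_lt_mul_of_pos_left (by linarith [hSi i]) hspos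
    have h2 : s * (S + 1) * 1 ≤ s * (S + 1) * n :=
      mul_le_mul_of_nonneg_left hn1 (by positivity)
    have h3 : s * (S + 1) * n = s * (n * (S + 1)) := by ring
    linarith
  have h1 := h.contract hx0 hspos hs3 hs5
  have h2 : 1 - n * s ≤ (1 - s) ^ n := by
    have h3 := one_add_mul_le_pow (a := -s) (by linarith) n
    have h4 : 1 + -s = 1 - s := by ring
    rw [h4] at h3
    linarith
  have hV := h.VV_pos x
  have h3 : (1 - n * s) * VV C u x ≤ (1 - s) ^ n * VV C u x :=
    mul_le_mul_of_nonneg_right h2 hV.le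
  have h4 : ∑ i, (1 - s * σ i) ^ n * VA C u x i ≤
      VV C u x - n * s * ∑ i, σ i * VA C u x i + (n * s) ^ 2 * Q := by
    have h5 : ∀ i ∈ Finset.univ, (1 - s * σ i) ^ n * VA C u x i ≤
        VA C u x i - n * s * (σ i * VA C u x i) + (n * s) ^ 2 * (σ i ^ 2 * VA C u x i) := by
      intro i _
      have h6 : (1 - s * σ i) ^ n ≤ 1 - n * (s * σ i) + (n * (s * σ i)) ^ 2 := by
        have h7 : 1 - s * σ i ≤ Real.exp (-(s * σ i)) := by
          have := Real.add_one_le_exp (-(s * σ i))
          linarith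
        have h8 : (1 - s * σ i) ^ n ≤ Real.exp (-(s * σ i)) ^ n :=
          pow_le_pow_left₀ (by linarith [hs5 i]) h7 n
        rw [← Real.exp_nat_mul] at h8
        have h9 : |(n : ℝ) * -(s * σ i)| ≤ 1 := by
          rw [mul_neg, abs_neg, abs_of_nonneg (by
            have := hσ0 i
            positivity)]
          exact hs4 i
        have h10 := (abs_le.1 (Real.abs_exp_sub_one_sub_id_le h9)).2
        nlinarith
      have h7 := mul_le_mul_of_nonneg_right h6 (Setup.VA_nonneg (C := C) (u := u) x i)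
      refine h7.trans (le_of_eq ?_)
      ring
    refine (Finset.sum_le_sum h5).trans (le_of_eq ?_)
    rw [Finset.sum_add_distrib, Finset.sum_sub_distrib, ← Finset.mul_sum, ← Finset.mul_sum,
      ← h.VV_eq x]
  have h5 : n * s * ∑ i, σ i * VA C u x i ≤ n * s * (VV C u x + n * s * Q) := by
    have h6 : (n * s) ^ 2 * Q = n * s * (n * s * Q) := by ring
    have h7 : n * s * (VV C u x + n * s * Q) = n * s * VV C u x + n * s * (n * s * Q) := by ring
    have h8 : (1 - n * s) * VV C u x = VV C u x - n * s * VV C u x := by ring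
    linarith
  have h6 := le_of_mul_le_mul_left h5 (mul_pos hn' hspos)
  have h7 : n * s * Q ≤ ε := by
    have h8 : s * (n * Q) ≤ s * (n * (Q + 1)) :=
      mul_le_mul_of_nonneg_left (mul_le_mul_of_nonneg_left (by linarith) hn'.le) hspos.le
    linarith
  linarith

/-- Almost critical points: bound for the masses of the cells. -/
theorem Setup.frac_ge (h : Setup C u i0 A) {m : ι → ℝ} (hm : ∀ i, 0 < m i) {x : ι → ℝ}
    (hG : ∀ i, GG C u m x i ≤ m i / 2) (i : ι) :
    m i * VV C u x ≤ 2 * (∑ j, m j) * VA C u x i := by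
  have hV := h.VV_pos x
  have h1 := hG i
  unfold GG at h1
  have h2 : m i / 2 ≤ (∑ j, m j) * (VA C u x i / VV C u x) := by linarith
  rw [← mul_div_assoc, le_div_iff₀ hV] at h2
  linarith

theorem Setup.sum_sigma (h : Setup C u i0 A) (hn : 0 < Module.finrank ℝ E) {m : ι → ℝ}
    (hm : ∀ i, 0 < m i) {x : ι → ℝ} (hG : ∀ i, GG C u m x i ≤ m i / 2) {x0 : E}
    (hx0 : x0 ∈ BK C u x) : ∑ i, m i * (1 - gg u x i x0) ≤ 2 * ∑ j, m j := by
  have hV := h.VV_pos x
  have hW : 0 < ∑ j, m j := Finset.sum_pos (fun j _ => hm j) ⟨i0, Finset.mem_univ _⟩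
  have h1 := h.first_var hn hx0
  have h2 : VV C u x * ∑ i, m i * (1 - gg u x i x0) ≤
      VV C u x * (2 * ∑ j, m j) := by
    calc VV C u x * ∑ i, m i * (1 - gg u x i x0)
        = ∑ i, (1 - gg u x i x0) * (m i * VV C u x) := by
          rw [Finset.mul_sum]
          exact Finset.sum_congr rfl fun i _ => by ring
      _ ≤ ∑ i, (1 - gg u x i x0) * (2 * (∑ j, m j) * VA C u x i) := by
          refine Finset.sum_le_sum fun i _ => ?_
          exact mul_le_mul_of_nonneg_left (h.frac_ge hm hG i) (by linarith [hx0.2 i])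
      _ = 2 * (∑ j, m j) * ∑ i, (1 - gg u x i x0) * VA C u x i := by
          generalize ∑ j, m j = W
          rw [Finset.mul_sum]
          exact Finset.sum_congr rfl fun i _ => by ring
      _ ≤ 2 * (∑ j, m j) * VV C u x := mul_le_mul_of_nonneg_left h1 (by positivity)
      _ = VV C u x * (2 * ∑ j, m j) := by ring
  exact le_of_mul_le_mul_left h2 hV

/-- The support function of `BK` is at most `exp (x i)`. -/
theorem Setup.supp_le (h : Setup C u i0 A) (x : ι → ℝ) (i : ι) :
    supp (BK C u x) (u i) ≤ Real.exp (x i) :=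
  MP_abca01_gt.supp_le ⟨0, h.zero_mem x⟩ fun _ hz => (mem_BK.1 hz).2 i

theorem Setup.low_LL (h : Setup C u i0 A) {M : ℕ} (hM : Module.finrank ℝ E = M + 1)
    {m : ι → ℝ} (hm : ∀ i, 0 < m i) {x : ι → ℝ} (hG : ∀ i, GG C u m x i ≤ m i / 2) {g : E}
    (hg : g ∈ interior (BK C u x)) :
    ∑ i, m i * Real.log (supp (BK C u x) (u i) - ⟪g, u i⟫) -
      (∑ i, m i) / ((M : ℝ) + 1) * Real.log (VV C u x) ≤ LL C u m x + ∑ i, m i := by
  have hn : 0 < Module.finrank ℝ E := by omega
  obtain ⟨ρ, hρ, hb⟩ := Ess.exists_ball hg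
  have hpos : ∀ i, 0 < supp (BK C u x) (u i) - ⟪g, u i⟫ := fun i =>
    lt_of_lt_of_le hρ (le_supp_sub (h.isCompact_BK x) hρ.le hb (h.unit i))
  have h1 := h.sum_sigma hn hm hG (interior_subset hg)
  have h2 : ∀ i, Real.log (supp (BK C u x) (u i) - ⟪g, u i⟫) ≤
      x i + ((1 - gg u x i g) - 1) := by
    intro i
    have h3 : supp (BK C u x) (u i) - ⟪g, u i⟫ ≤ Real.exp (x i) * (1 - gg u x i g) := by
      have h4 : Real.exp (x i) * (1 - gg u x i g) = Real.exp (x i) - ⟪g, u i⟫ := by
        unfold gg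
        rw [mul_sub, mul_one, ← mul_assoc, ← Real.exp_add, add_neg_cancel, Real.exp_zero, one_mul]
      rw [h4]
      linarith [h.supp_le x i]
    have h4 : 0 < 1 - gg u x i g :=
      pos_of_mul_pos_right (lt_of_lt_of_le (hpos i) h3) (Real.exp_pos _).le
    have h5 := Real.log_le_log (hpos i) h3
    rw [Real.log_mul (Real.exp_pos _).ne' h4.ne', Real.log_exp] at h5
    have h6 := Real.log_le_sub_one_of_pos h4
    linarith
  have h3 : ∑ i, m i * Real.log (supp (BK C u x) (u i) - ⟪g, u i⟫) ≤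
      ∑ i, m i * x i + ∑ i, m i := by
    have h4 : ∀ i ∈ Finset.univ, m i * Real.log (supp (BK C u x) (u i) - ⟪g, u i⟫) ≤
        m i * x i + m i * (1 - gg u x i g) - m i := by
      intro i _
      have := mul_le_mul_of_nonneg_left (h2 i) (hm i).le
      linarith
    have h5 := Finset.sum_le_sum h4
    rw [Finset.sum_sub_distrib, Finset.sum_add_distrib] at h5
    linarith
  unfold LL
  rw [hM]
  push_cast
  linarith

/-- Cells of positive volume have a facet. -/
theorem Setup.exists_facet (h : Setup C u i0 A) (hn : 0 < Module.finrank ℝ E) {x : ι → ℝ} {i : ι}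
    (hi : 0 < VA C u x i) : ∃ y ∈ BK C u x, ⟪y, u i⟫ = Real.exp (x i) := by
  have : Nontrivial E := Module.nontrivial_of_finrank_pos hn
  obtain ⟨z, hz, hz0⟩ : ∃ z ∈ AK C u x i, z ≠ 0 := by
    by_contra hcon
    push Not at hcon
    have h1 : AK C u x i ⊆ {0} := fun z hz => hcon z hz
    have h2 : volume.real (AK C u x i) ≤ 0 := by
      have h3 : (volume : Measure E) (AK C u x i) = 0 := measure_mono_null h1 (measure_singleton 0)
      rw [measureReal_def, h3]
      simp
    exact absurd hi (not_lt.2 h2)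
  have h1 : 0 < gg u x i0 z := by
    unfold gg
    have h2 := h.bdd z hz.1
    have h3 : 0 < ‖z‖ := norm_pos_iff.2 hz0
    have h4 : 0 < ⟪z, u i0⟫ := pos_of_mul_pos_right (lt_of_lt_of_le h3 h2) h.pos.le
    positivity
  have h2 : 0 < gg u x i z := lt_of_lt_of_le h1 (hz.2.2 i0)
  refine ⟨(gg u x i z)⁻¹ • z, ⟨h.cone z hz.1 _ (inv_pos.2 h2).le, fun j => ?_⟩, ?_⟩
  · rw [gg_smul, inv_mul_le_iff₀ h2, mul_one]
    exact hz.2.2 j
  · rw [real_inner_smul_left]
    have h4 : ⟪z, u i⟫ = Real.exp (x i) * gg u x i z := by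
      unfold gg
      rw [← mul_assoc, ← Real.exp_add, add_neg_cancel, Real.exp_zero, one_mul]
    conv_lhs => rw [h4]
    field_simp

/-- A bound for the oscillation of `x` at almost critical points of bounded energy. -/
theorem Setup.osc (h : Setup C u i0 A) {M : ℕ} (hM : Module.finrank ℝ E = M + 1)
    {m : ι → ℝ} (hm : ∀ i, 0 < m i) {c B η : ℝ} (hc : 0 < c) (hη : 0 < η)
    (hpos : ∀ K : Set E, IsCompact K → Convex ℝ K → (interior K).Nonempty →
      ∃ (g : E) (e : OrthonormalBasis (Fin (M + 1)) ℝ E) (r : Fin (M + 1) → ℝ), Pos c K g e r)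
    (hlow : LowB C u m M c B η) (Λ : ℝ) :
    ∃ D : ℝ, 0 ≤ D ∧ ∀ x, LL C u m x ≤ Λ → (∀ i, GG C u m x i ≤ m i / 2) → ∀ i,
      |x i - x i0| ≤ D := by
  have hn : 0 < Module.finrank ℝ E := by omega
  have hW : 0 < ∑ j, m j := Finset.sum_pos (fun j _ => hm j) ⟨i0, Finset.mem_univ _⟩
  set W : ℝ := ∑ j, m j with hWdef
  obtain ⟨i1, hi1⟩ : ∃ i1, ∀ i, m i1 ≤ m i := by
    have : Nonempty ι := ⟨i0⟩
    exact Finite.exists_min m
  set D1 : ℝ := Real.log (2 * ((M : ℝ) + 1) * c⁻¹) - Real.log c + (Λ + W + B) / η -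
    Real.log (m i1 / (2 * W)) with hD1
  refine ⟨max (|Real.log A|) |D1|, le_max_of_le_left (abs_nonneg _), ?_⟩
  intro x hx hG i
  have hV := h.VV_pos x
  have hVA : ∀ i, 0 < VA C u x i := by
    intro i
    have h1 := h.frac_ge hm hG i
    have h2 : 0 < m i * VV C u x := mul_pos (hm i) hV
    exact pos_of_mul_pos_right (lt_of_lt_of_le h2 h1) (by positivity)
  have hKc := h.isCompact_BK x
  obtain ⟨g, e, r, hP⟩ := hpos (BK C u x) hKc (h.convex_BK x) (h.int_BK x)
  have hball : closedBall g (c * r 0) ⊆ BK C u x :=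
    hP.ball_sub fun i => mul_le_mul_of_nonneg_left (hP.mono (Fin.zero_le i)) hc.le
  have hcr : 0 < c * r 0 := mul_pos hc (hP.pos 0)
  have hg : g ∈ interior (BK C u x) := mem_int hcr hball
  have h1 := h.low_LL hM hm hG hg
  have h2 := hlow (BK C u x) g e r hKc (h.convex_BK x) (fun z hz => hz.1) (h.zero_mem x) hP
  have h3 : η * (Real.log (r (Fin.last M)) - Real.log (r 0)) ≤ Λ + W + B := by
    unfold VV at h1
    linarith
  have h4 : Real.log (r (Fin.last M)) - Real.log (r 0) ≤ (Λ + W + B) / η := by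
    rw [le_div_iff₀ hη, mul_comm]
    exact h3
  -- upper bound
  have hup : x i ≤ x i0 + Real.log A := by
    obtain ⟨y, hy, hyi⟩ := h.exists_facet hn (hVA i)
    have h5 : Real.exp (x i) ≤ A * Real.exp (x i0) := by
      rw [← hyi]
      have h6 := real_inner_le_norm y (u i)
      rw [h.unit, mul_one] at h6
      exact h6.trans (h.norm_le hy)
    have h6 := Real.log_le_log (Real.exp_pos _) h5
    rw [Real.log_exp, Real.log_mul h.pos.ne' (Real.exp_pos _).ne', Real.log_exp] at h6
    linarith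
  -- lower bound
  have hlo : x i0 - D1 ≤ x i := by
    obtain ⟨y, hy, hyi⟩ := h.exists_facet hn (hVA i0)
    have hrl := hP.pos (Fin.last M)
    have h5 : ∀ z ∈ BK C u x, ‖z - g‖ ≤ ((M : ℝ) + 1) * (c⁻¹ * r (Fin.last M)) := by
      intro z hz
      have h6 := norm_le_sum e (z - g) (a := c⁻¹ * r (Fin.last M)) fun j =>
        (hP.up z hz j).trans (mul_le_mul_of_nonneg_left (hP.mono (Fin.le_last j))
          (inv_pos.2 hc).le)
      push_cast at h6
      exact h6
    have h6 : Real.exp (x i0) ≤ 2 * ((M : ℝ) + 1) * c⁻¹ * r (Fin.last M) := by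
      rw [← hyi]
      have h7 := real_inner_le_norm y (u i0)
      rw [h.unit, mul_one] at h7
      have h8 : ‖y‖ ≤ ‖y - g‖ + ‖(0 : E) - g‖ := by
        calc ‖y‖ = ‖(y - g) - (0 - g)‖ := by congr 1; abel
          _ ≤ _ := norm_sub_le _ _
      have h9 := h5 y hy
      have h10 := h5 0 (h.zero_mem x)
      linarith
    have h7 : m i1 / (2 * W) * (c * r 0) ≤ Real.exp (x i) := by
      have h8 : c * r 0 ≤ supp (BK C u x) (u i) - ⟪g, u i⟫ :=
        le_supp_sub hKc hcr.le hball (h.unit i)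
      have h9 : supp (BK C u x) (u i) - ⟪g, u i⟫ ≤ Real.exp (x i) * (1 - gg u x i g) := by
        have h4 : Real.exp (x i) * (1 - gg u x i g) = Real.exp (x i) - ⟪g, u i⟫ := by
          unfold gg
          rw [mul_sub, mul_one, ← mul_assoc, ← Real.exp_add, add_neg_cancel, Real.exp_zero,
            one_mul]
        rw [h4]
        linarith [h.supp_le x i]
      have hgK := interior_subset hg
      have h10 : m i * (1 - gg u x i g) ≤ 2 * W := by
        refine le_trans ?_ (h.sum_sigma hn hm hG hgK)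
        exact Finset.single_le_sum (f := fun i => m i * (1 - gg u x i g))
          (fun j _ => mul_nonneg (hm j).le (by linarith [hgK.2 j])) (Finset.mem_univ i)
      have h11 : m i1 * (1 - gg u x i g) ≤ 2 * W :=
        (mul_le_mul_of_nonneg_right (hi1 i) (by linarith [hgK.2 i])).trans h10
      rw [div_mul_eq_mul_div, div_le_iff₀ (by positivity)]
      calc m i1 * (c * r 0) ≤ m i1 * (Real.exp (x i) * (1 - gg u x i g)) :=
            mul_le_mul_of_nonneg_left (h8.trans h9) (hm i1).le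
        _ = Real.exp (x i) * (m i1 * (1 - gg u x i g)) := by ring
        _ ≤ Real.exp (x i) * (2 * W) := mul_le_mul_of_nonneg_left h11 (Real.exp_pos _).le
    have hmi1 := hm i1
    have h8 := Real.log_le_log (Real.exp_pos _) h6
    rw [Real.log_exp, Real.log_mul (by positivity) hrl.ne'] at h8
    have h9 := Real.log_le_log (by positivity) h7
    rw [Real.log_exp, Real.log_mul (by positivity) hcr.ne', Real.log_mul hc.ne' (hP.pos 0).ne']
      at h9
    rw [hD1]
    linarith
  have h5 := le_abs_self (Real.log A)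
  have h6 := le_abs_self D1
  have h7 := le_max_left (|Real.log A|) |D1|
  have h8 := le_max_right (|Real.log A|) |D1|
  rw [abs_le]
  constructor <;> linarith

/-- If there is no critical point of energy at most `Λ`, then the gradient is bounded from below. -/
theorem Setup.ps (h : Setup C u i0 A) {M : ℕ} (hM : Module.finrank ℝ E = M + 1)
    {m : ι → ℝ} (hm : ∀ i, 0 < m i) {c B η : ℝ} (hc : 0 < c) (hη : 0 < η)
    (hpos : ∀ K : Set E, IsCompact K → Convex ℝ K → (interior K).Nonempty →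
      ∃ (g : E) (e : OrthonormalBasis (Fin (M + 1)) ℝ E) (r : Fin (M + 1) → ℝ), Pos c K g e r)
    (hlow : LowB C u m M c B η) (Λ : ℝ) (hno : ∀ x, LL C u m x ≤ Λ → GG C u m x ≠ 0) :
    ∃ δ : ℝ, 0 < δ ∧ ∀ x, LL C u m x ≤ Λ → δ ≤ ∑ i, GG C u m x i ^ 2 := by
  have hn : 0 < Module.finrank ℝ E := by omega
  obtain ⟨D, hD0, hD⟩ := h.osc hM hm hc hη hpos hlow Λ
  obtain ⟨i1, hi1⟩ : ∃ i1, ∀ i, m i1 ≤ m i := by
    have : Nonempty ι := ⟨i0⟩
    exact Finite.exists_min m
  have hmi1 := hm i1
  have hcont : Continuous fun x : ι → ℝ => ∑ i, GG C u m x i ^ 2 :=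
    continuous_finsetSum _ fun i _ => ((continuous_apply i).comp (h.continuous_GG m)).pow 2
  have hT : IsCompact ({x : ι → ℝ | LL C u m x ≤ Λ} ∩ closedBall 0 D) :=
    (isCompact_closedBall _ _).inter_left (isClosed_le (h.continuous_LL m) continuous_const)
  obtain ⟨δ1, hδ1, hδ1'⟩ : ∃ δ1 : ℝ, 0 < δ1 ∧ ∀ x ∈ ({x : ι → ℝ | LL C u m x ≤ Λ} ∩
      closedBall 0 D), δ1 ≤ ∑ i, GG C u m x i ^ 2 := by
    rcases ({x : ι → ℝ | LL C u m x ≤ Λ} ∩ closedBall 0 D).eq_empty_or_nonempty with he | hne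
    · refine ⟨1, one_pos, ?_⟩
      rw [he]
      exact fun x hx => absurd hx (notMem_empty _)
    · obtain ⟨x, hx, hmin⟩ := hT.exists_isMinOn hne hcont.continuousOn
      refine ⟨∑ i, GG C u m x i ^ 2, ?_, fun y hy => hmin hy⟩
      have h1 := hno x hx.1
      obtain ⟨i, hi⟩ : ∃ i, GG C u m x i ≠ 0 := by
        by_contra hcon
        push Not at hcon
        exact h1 (funext hcon)
      have h2 : 0 < GG C u m x i ^ 2 := by positivity
      exact lt_of_lt_of_le h2 (Finset.single_le_sum (f := fun i => GG C u m x i ^ 2)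
        (fun j _ => sq_nonneg _) (Finset.mem_univ i))
  refine ⟨min δ1 ((m i1 / 2) ^ 2), by positivity, fun x hx => ?_⟩
  by_cases hG : ∀ i, GG C u m x i ≤ m i / 2
  · have h1 := hD x hx hG
    have h2 := h.LL_shift hn m x (-x i0)
    have h3 := h.GG_shift m x (-x i0)
    have h4 := hδ1' (fun j => x j + -x i0) ⟨by
      simp only [mem_ofPred_eq]
      rw [h2]
      exact hx, by
      rw [mem_closedBall_zero_iff, pi_norm_le_iff_of_nonneg hD0]
      intro i
      rw [Real.norm_eq_abs]
      exact h1 i⟩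
    rw [h3] at h4
    exact (min_le_left _ _).trans h4
  · push Not at hG
    obtain ⟨i, hi⟩ := hG
    have h1 : (m i1 / 2) ^ 2 ≤ GG C u m x i ^ 2 := by
      apply pow_le_pow_left₀ (by positivity)
      linarith [hi1 i]
    refine (min_le_right _ _).trans (h1.trans ?_)
    exact Finset.single_le_sum (f := fun i => GG C u m x i ^ 2)
      (fun j _ => sq_nonneg _) (Finset.mem_univ i)

end Pool.Agent.Lib.MP_abca01_gt.Link
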