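import Pool.Agent.Lib.MP_abca01_gt.Link.Bal
import Pool.Agent.Lib.MP_abca01_gt.Sym.SLow

/-!
# Linking, 8: thin bodies in the cone have high energy
-/

set_option autoImplicit false

open MeasureTheory Set Metric Filter Topology
open scoped RealInnerProductSpace Pointwise

namespace Pool.Agent.Lib.MP_abca01_gt.Link

open Ess

variable {E : Type} [NormedAddCommGroup E] [InnerProductSpace ℝ E]

theorem BB_mono {M : ℕ} (e : Fin (M + 1) → E) {δ δ' : ℝ} (h : δ ≤ δ') (i : Fin M) :
    BB e δ i ⊆ BB e δ' i := fun _ hu m hm => (hu m hm).trans_le h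

section finite

variable [FiniteDimensional ℝ E] [MeasurableSpace E] [BorelSpace E]

/-- Uniform form of the hypothesis on the subspaces orthogonal to a direction in the cone. -/
theorem exists_thin {mu : Measure E} [IsFiniteMeasure mu] (hmu : ∀ᵐ u ∂mu, ‖u‖ = 1) {M : ℕ}
    (hM : Module.finrank ℝ E = M + 1) {C : Set E} (hC : IsClosed C)
    (hH : ∀ L : Submodule ℝ E, L ≠ ⊥ → L ≠ ⊤ → (∃ y ∈ C, ‖y‖ = 1 ∧ ∀ z ∈ L, ⟪z, y⟫ = 0) →
      (Module.finrank ℝ E : ℝ) * mu.real (L : Set E) < Module.finrank ℝ L * mu.real univ)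
    (i : Fin M) :
    ∃ δ : ℝ, 0 < δ ∧ ∀ (e : OrthonormalBasis (Fin (M + 1)) ℝ E) (y : E), y ∈ C → ‖y‖ = 1 →
      (∀ m ≤ i.castSucc, |⟪y, e m⟫| ≤ δ) →
      mu.real (BB e δ i) ≤ ((i : ℝ) + 1) / ((M : ℝ) + 1) * mu.real univ - δ := by
  have hM1 : (0 : ℝ) < (M : ℝ) + 1 := by positivity
  have hcpt : IsCompact {f : Fin (M + 1) → E | Orthonormal ℝ f} := by
    apply Metric.isCompact_of_isClosed_isBounded
    · have h1 : {f : Fin (M + 1) → E | Orthonormal ℝ f} =
          ⋂ i, ⋂ j, {f | ⟪f i, f j⟫ = if i = j then 1 else 0} := by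
        ext f
        simp only [mem_ofPred_eq, mem_iInter, orthonormal_iff_ite]
      rw [h1]
      refine isClosed_iInter fun i => isClosed_iInter fun j => isClosed_eq (by fun_prop) continuous_const
    · refine (isBounded_closedBall (x := (0 : Fin (M + 1) → E)) (r := 1)).subset ?_
      intro f hf
      rw [mem_closedBall, dist_zero_right, pi_norm_le_iff_of_nonneg zero_le_one]
      intro i
      exact (hf.1 i).le
  have hcpt2 : IsCompact ({f : Fin (M + 1) → E | Orthonormal ℝ f} ×ˢ (C ∩ sphere (0 : E) 1)) :=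
    hcpt.prod ((isCompact_sphere (0 : E) 1).inter_left hC)
  have key : ∃ δ : ℝ, 0 < δ ∧ ∀ (e : OrthonormalBasis (Fin (M + 1)) ℝ E) (y : E),
      ((⇑e : Fin (M + 1) → E), y) ∈
        ({f : Fin (M + 1) → E | Orthonormal ℝ f} ×ˢ (C ∩ sphere (0 : E) 1)) →
      (∀ m ≤ i.castSucc, |⟪y, e m⟫| ≤ δ) →
      mu.real (BB e δ i) ≤ ((i : ℝ) + 1) / ((M : ℝ) + 1) * mu.real univ - δ := by
    refine hcpt2.induction_on (p := fun S => ∃ δ : ℝ, 0 < δ ∧
      ∀ (e : OrthonormalBasis (Fin (M + 1)) ℝ E) (y : E), ((⇑e : Fin (M + 1) → E), y) ∈ S →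
      (∀ m ≤ i.castSucc, |⟪y, e m⟫| ≤ δ) →
      mu.real (BB e δ i) ≤ ((i : ℝ) + 1) / ((M : ℝ) + 1) * mu.real univ - δ) ?_ ?_ ?_ ?_
    · exact ⟨1, one_pos, fun e y he => absurd he (notMem_empty _)⟩
    · rintro s t hst ⟨δ, hδ, h⟩
      exact ⟨δ, hδ, fun e y he => h e y (hst he)⟩
    · rintro s t ⟨δ, hδ, h⟩ ⟨δ', hδ', h'⟩
      refine ⟨min δ δ', lt_min hδ hδ', fun e y he hy => ?_⟩
      rcases he with he | he
      · have h1 := h e y he fun m hm => (hy m hm).trans (min_le_left _ _)
        have h2 := measureReal_mono (μ := mu) (BB_mono e (min_le_left δ δ') i)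
        have h3 := min_le_left δ δ'
        linarith
      · have h1 := h' e y he fun m hm => (hy m hm).trans (min_le_right _ _)
        have h2 := measureReal_mono (μ := mu) (BB_mono e (min_le_right δ δ') i)
        have h3 := min_le_right δ δ'
        linarith
    · rintro ⟨f, y0⟩ ⟨hf, hy0C, hy0⟩
      simp only [mem_ofPred_eq] at hf
      have hy0' : ‖y0‖ = 1 := by simpa using hy0
      by_cases hcase : ∃ m ≤ i.castSucc, ⟪y0, f m⟫ ≠ 0
      · obtain ⟨m, hm, hne⟩ := hcase
        have ha : 0 < |⟪y0, f m⟫| := abs_pos.2 hne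
        refine ⟨{q : (Fin (M + 1) → E) × E | |⟪y0, f m⟫| / 2 < |⟪q.2, q.1 m⟫|}, ?_,
          |⟪y0, f m⟫| / 2, by positivity, ?_⟩
        · apply mem_nhdsWithin_of_mem_nhds
          apply IsOpen.mem_nhds
          · exact isOpen_lt continuous_const (by fun_prop)
          · simp only [mem_ofPred_eq]
            linarith
        · intro e y he hy
          exact absurd (hy m hm) (not_le.2 he)
      · push Not at hcase
        have hsp : Submodule.span ℝ (Set.range f) = ⊤ :=
          hf.linearIndependent.span_eq_top_of_card_eq_finrank' (by rw [Fintype.card_fin, hM])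
        let e0 : OrthonormalBasis (Fin (M + 1)) ℝ E := OrthonormalBasis.mk hf hsp.ge
        have hef : ∀ m, e0 m = f m := fun m => by simp [e0]
        have h1 := hH (Lsp e0 i) (Lsp_ne_bot e0 i) (Lsp_ne_top e0 i) ⟨y0, hy0C, hy0', by
          intro z hz
          rw [← e0.sum_repr' z, sum_inner]
          apply Finset.sum_eq_zero
          intro m _
          rw [real_inner_smul_left]
          by_cases hm : i.castSucc < m
          · rw [hz m hm, zero_mul]
          · have h5 : ⟪e0 m, y0⟫ = 0 := by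
              rw [hef, real_inner_comm]
              exact hcase m (not_lt.1 hm)
            rw [h5, mul_zero]⟩
        rw [hM, finrank_Lsp] at h1
        push_cast at h1
        have h2 : mu.real (Lsp e0 i : Set E) < ((i : ℝ) + 1) / ((M : ℝ) + 1) * mu.real univ := by
          rw [div_mul_eq_mul_div, lt_div_iff₀ hM1]
          linarith
        obtain ⟨x, hx1, hx2⟩ := exists_between h2
        obtain ⟨δ1, hδ1, hδx⟩ := exists_delta e0 i hx1
        refine ⟨{q : (Fin (M + 1) → E) × E | ∀ m, ‖q.1 m - f m‖ < δ1 / 2}, ?_,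
          min (δ1 / 2) (((i : ℝ) + 1) / ((M : ℝ) + 1) * mu.real univ - x),
          lt_min (by positivity) (by linarith), ?_⟩
        · apply mem_nhdsWithin_of_mem_nhds
          have h3 : {q : (Fin (M + 1) → E) × E | ∀ m, ‖q.1 m - f m‖ < δ1 / 2} =
              ⋂ m, {q | ‖q.1 m - f m‖ < δ1 / 2} := by
            ext q
            simp
          rw [h3]
          refine (isOpen_iInter_of_finite fun m =>
            isOpen_lt (by fun_prop) continuous_const).mem_nhds ?_
          simp [hδ1]
        · intro e y he hy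
          set δ := min (δ1 / 2) (((i : ℝ) + 1) / ((M : ℝ) + 1) * mu.real univ - x) with hδ
          have h3 : mu.real (BB e δ i) ≤ mu.real (BB e0 δ1 i) := by
            apply ENNReal.toReal_mono (measure_ne_top mu _)
            apply measure_mono_ae
            filter_upwards [hmu] with u hu hmem m hm
            have h6 := hmem m hm
            have h7 : ⟪e0 m, u⟫ = ⟪e m, u⟫ - ⟪e m - e0 m, u⟫ := by
              rw [inner_sub_left]
              ring
            have h8 : |⟪e m - e0 m, u⟫| < δ1 / 2 := by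
              refine lt_of_le_of_lt (abs_real_inner_le_norm _ _) ?_
              rw [hu, mul_one, hef]
              exact he m
            have h9 : |⟪e0 m, u⟫| ≤ |⟪e m, u⟫| + |⟪e m - e0 m, u⟫| := by
              rw [h7]
              exact abs_sub _ _
            have h10 : δ ≤ δ1 / 2 := min_le_left _ _
            linarith
          have h4 : δ ≤ ((i : ℝ) + 1) / ((M : ℝ) + 1) * mu.real univ - x := min_le_right _ _
          linarith
  obtain ⟨δ, hδ, h⟩ := key
  exact ⟨δ, hδ, fun e y hy hy1 => h e y ⟨e.orthonormal, hy, by simpa using hy1⟩⟩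

end finite

/-- the mass of a set for the discrete measure -/
noncomputable def mass {ι : Type} [Fintype ι] (u : ι → E) (m : ι → ℝ) (S : Set E) : ℝ :=
  ∑ j, m j * S.indicator 1 (u j)

theorem mass_nonneg {ι : Type} [Fintype ι] (u : ι → E) {m : ι → ℝ} (hm : ∀ i, 0 ≤ m i)
    (S : Set E) : 0 ≤ mass u m S := by
  apply Finset.sum_nonneg
  intro j _
  apply mul_nonneg (hm j)
  apply indicator_nonneg
  exact fun _ _ => zero_le_one

theorem mass_le {ι : Type} [Fintype ι] (u : ι → E) {m : ι → ℝ} (hm : ∀ i, 0 ≤ m i)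
    (S : Set E) : mass u m S ≤ ∑ j, m j := by
  refine Finset.sum_le_sum fun j _ => ?_
  by_cases h : u j ∈ S
  · rw [indicator_of_mem h, Pi.one_apply, mul_one]
  · rw [indicator_of_notMem h, mul_zero]
    exact hm j

variable [FiniteDimensional ℝ E] [MeasurableSpace E] [BorelSpace E]

theorem lowB_of_thin {C : Set E} (hCc : ∀ z ∈ C, ∀ t : ℝ, 0 ≤ t → t • z ∈ C) (M : ℕ)
    {c : ℝ} (hc : 0 < c) {δ η W0 : ℝ} (hδ : 0 < δ) (hδ1 : ((M : ℝ) + 1) * δ ^ 2 ≤ 1)
    (hη : 0 < η) (hW0 : 0 ≤ W0) :
    ∃ B : ℝ, ∀ (ι : Type) [Fintype ι] (u : ι → E) (m : ι → ℝ), (∀ i, ‖u i‖ = 1) →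
      (∀ i, 0 ≤ m i) → ∑ i, m i ≤ W0 →
      (∀ (e : OrthonormalBasis (Fin (M + 1)) ℝ E) (i : Fin M) (y : E), y ∈ C → ‖y‖ = 1 →
        (∀ k ≤ i.castSucc, |⟪y, e k⟫| ≤ δ) →
        mass u m (BB e δ i) ≤ ((i : ℝ) + 1) / ((M : ℝ) + 1) * (∑ i, m i) - η) →
      LowB C u m M c B η := by
  obtain ⟨Cv, hCv⟩ := Sym.vol_le (E := E) M hc
  have hM1 : (0 : ℝ) < (M : ℝ) + 1 := by positivity
  set G0 : ℝ := max 0 (Real.log (2 * (c⁻¹) ^ 2 / δ)) with hG0
  have hG00 : 0 ≤ G0 := le_max_left _ _
  refine ⟨W0 * |Real.log (c * δ)| + W0 * |Cv| + M * ((W0 + η) * G0), ?_⟩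
  intro ι _ u m hu hm hW hT K g e r hK hKc hKC h0 hP
  set W : ℝ := ∑ i, m i with hWdef
  have hWn : 0 ≤ W := Finset.sum_nonneg fun i _ => hm i
  have hci : 0 < c⁻¹ := inv_pos.2 hc
  have hball : closedBall g (c * r 0) ⊆ K :=
    hP.ball_sub fun i => mul_le_mul_of_nonneg_left (hP.mono (Fin.zero_le i)) hc.le
  have hcr : 0 < c * r 0 := mul_pos hc (hP.pos 0)
  have hV : 0 < volume.real K := by
    refine lt_of_lt_of_le ?_ (measureReal_mono hball hK.measure_lt_top.ne)
    exact ENNReal.toReal_pos (measure_closedBall_pos volume g hcr).ne'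
      measure_closedBall_lt_top.ne
  have hgap : ∀ i : Fin M, 0 ≤ Real.log (r i.succ) - Real.log (r i.castSucc) := by
    intro i
    have := Real.log_le_log (hP.pos i.castSucc) (hP.mono (Fin.castSucc_le_succ i))
    linarith
  -- a long vector of `K`
  obtain ⟨x, hxK, hx⟩ : ∃ x ∈ K, c * r (Fin.last M) ≤ ‖x‖ := by
    have hr := hP.pos (Fin.last M)
    have hmem : ∀ s : ℝ, |s| ≤ 1 → g + (s * (c * r (Fin.last M))) • e (Fin.last M) ∈ K := by
      intro s hs
      apply hP.low
      intro j
      rw [add_sub_cancel_left, real_inner_smul_left]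
      by_cases hj : Fin.last M = j
      · subst hj
        rw [real_inner_self_eq_norm_sq, e.norm_eq_one, one_pow, mul_one, abs_mul,
          abs_of_pos (mul_pos hc hr)]
        exact mul_le_of_le_one_left (mul_pos hc hr).le hs
      · rw [e.inner_eq_zero hj, mul_zero, abs_zero]
        exact (mul_pos hc (hP.pos j)).le
    by_contra hcon
    push Not at hcon
    have h1 := hcon _ (hmem 1 (by norm_num))
    have h2 := hcon _ (hmem (-1) (by norm_num))
    have h3 : (2 * (c * r (Fin.last M))) • e (Fin.last M) =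
        (g + (1 * (c * r (Fin.last M))) • e (Fin.last M)) -
        (g + (-1 * (c * r (Fin.last M))) • e (Fin.last M)) := by module
    have h4 := norm_sub_le (g + (1 * (c * r (Fin.last M))) • e (Fin.last M))
      (g + (-1 * (c * r (Fin.last M))) • e (Fin.last M))
    rw [← h3, norm_smul, e.norm_eq_one, mul_one, Real.norm_of_nonneg (by positivity)] at h4
    linarith
  have hxpos : 0 < ‖x‖ := lt_of_lt_of_le (mul_pos hc (hP.pos _)) hx
  have hxi : ∀ k, |⟪x, e k⟫| ≤ 2 * c⁻¹ * r k := by
    intro k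
    have h1 := hP.up x hxK k
    have h2 := hP.up 0 h0 k
    have h3 : ⟪x, e k⟫ = ⟪x - g, e k⟫ - ⟪0 - g, e k⟫ := by
      rw [← inner_sub_left]
      congr 1
      abel
    have h4 : |⟪x, e k⟫| ≤ |⟪x - g, e k⟫| + |⟪0 - g, e k⟫| := by
      rw [h3]
      exact abs_sub _ _
    linarith
  set q : Fin M → ℝ := fun i => ((i : ℝ) + 1) / ((M : ℝ) + 1) * W - mass u m (BB e δ i) with hq
  have hqlow : ∀ i, -W0 ≤ q i := by
    intro i
    have h1 := mass_le u hm (BB e δ i)
    have h2 : 0 ≤ ((i : ℝ) + 1) / ((M : ℝ) + 1) * W := by positivity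
    simp only [hq]
    linarith
  have hqi : ∀ i, η * (Real.log (r i.succ) - Real.log (r i.castSucc)) - (W0 + η) * G0 ≤
      q i * (Real.log (r i.succ) - Real.log (r i.castSucc)) := by
    intro i
    by_cases hcase : Real.log (r i.succ) - Real.log (r i.castSucc) ≤ G0
    · have h1 : (q i - η) * (Real.log (r i.succ) - Real.log (r i.castSucc)) ≥
          -(W0 + η) * G0 := by
        have h2 : -(W0 + η) ≤ q i - η := by linarith [hqlow i]
        have h3 := mul_le_mul_of_nonneg_right h2 (hgap i)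
        have h4 : (W0 + η) * (Real.log (r i.succ) - Real.log (r i.castSucc)) ≤ (W0 + η) * G0 :=
          mul_le_mul_of_nonneg_left hcase (by positivity)
        linarith
      linarith
    · push Not at hcase
      have hr1 := hP.pos i.succ
      have hr0 := hP.pos i.castSucc
      have h1 : Real.log (2 * (c⁻¹) ^ 2 / δ) < Real.log (r i.succ / r i.castSucc) := by
        rw [Real.log_div hr1.ne' hr0.ne']
        exact lt_of_le_of_lt (le_max_right _ _) hcase
      have h2 : 2 * (c⁻¹) ^ 2 / δ < r i.succ / r i.castSucc :=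
        (Real.log_lt_log_iff (by positivity) (by positivity)).1 h1
      have h3 : 2 * (c⁻¹) ^ 2 * r i.castSucc < δ * r i.succ := by
        rw [div_lt_div_iff₀ hδ hr0] at h2
        linarith
      have h4 := hT e i (‖x‖⁻¹ • x) (hCc x (hKC hxK) _ (inv_pos.2 hxpos).le)
        (by rw [norm_smul, norm_inv, norm_norm, inv_mul_cancel₀ hxpos.ne'])
        (by
          intro k hk
          rw [real_inner_smul_left, abs_mul, abs_of_pos (inv_pos.2 hxpos), inv_mul_le_iff₀ hxpos]
          have h5 := hxi k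
          have h6 : 2 * c⁻¹ * r k ≤ 2 * c⁻¹ * r i.castSucc :=
            mul_le_mul_of_nonneg_left (hP.mono hk) (by positivity)
          have h7 : δ * (c * r i.succ) ≤ δ * (c * r (Fin.last M)) :=
            mul_le_mul_of_nonneg_left (mul_le_mul_of_nonneg_left (hP.mono (Fin.le_last _))
              hc.le) hδ.le
          have h8 : δ * (c * r (Fin.last M)) ≤ δ * ‖x‖ := mul_le_mul_of_nonneg_left hx hδ.le
          have h9 : 2 * c⁻¹ * r i.castSucc ≤ δ * (c * r i.succ) := by
            have h10 := mul_le_mul_of_nonneg_left h3.le hc.le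
            have h11 : c * (2 * (c⁻¹) ^ 2 * r i.castSucc) = 2 * c⁻¹ * r i.castSucc := by
              field_simp
            linarith
          linarith)
      have h5 : η ≤ q i := by
        simp only [hq]
        linarith
      have h6 := mul_le_mul_of_nonneg_right h5 (hgap i)
      have h7 : 0 ≤ (W0 + η) * G0 := by positivity
      linarith
  -- the lower bound of the sum
  have hsum1 : W * Real.log (c * δ) + W * Real.log (r (Fin.last M)) -
      ∑ i : Fin M, mass u m (BB e δ i) * (Real.log (r i.succ) - Real.log (r i.castSucc)) ≤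
      ∑ j, m j * Real.log (supp K (u j) - ⟪g, u j⟫) := by
    have h1 : ∀ j ∈ Finset.univ, m j * (Real.log (c * δ) + Real.log (r (Fin.last M)) -
        ∑ i : Fin M, (BB e δ i).indicator 1 (u j) *
          (Real.log (r i.succ) - Real.log (r i.castSucc))) ≤
        m j * Real.log (supp K (u j) - ⟪g, u j⟫) := by
      intro j _
      exact mul_le_mul_of_nonneg_left (low_point hP hK hc hδ hδ1 (hu j)) (hm j)
    have h2 : ∀ j, m j * ∑ i : Fin M, (BB e δ i).indicator 1 (u j) *
        (Real.log (r i.succ) - Real.log (r i.castSucc)) =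
        ∑ i : Fin M, m j * (BB e δ i).indicator 1 (u j) *
          (Real.log (r i.succ) - Real.log (r i.castSucc)) := by
      intro j
      rw [Finset.mul_sum]
      exact Finset.sum_congr rfl fun i _ => by ring
    have h3 : ∑ j, m j * ∑ i : Fin M, (BB e δ i).indicator 1 (u j) *
        (Real.log (r i.succ) - Real.log (r i.castSucc)) =
        ∑ i : Fin M, mass u m (BB e δ i) *
          (Real.log (r i.succ) - Real.log (r i.castSucc)) := by
      rw [Finset.sum_congr rfl fun j _ => h2 j, Finset.sum_comm]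
      refine Finset.sum_congr rfl fun i _ => ?_
      rw [← Finset.sum_mul]
      rfl
    refine le_trans (le_of_eq ?_) (Finset.sum_le_sum h1)
    have h4 : ∀ j, m j * (Real.log (c * δ) + Real.log (r (Fin.last M)) -
        ∑ i : Fin M, (BB e δ i).indicator 1 (u j) *
          (Real.log (r i.succ) - Real.log (r i.castSucc))) =
        m j * Real.log (c * δ) + m j * Real.log (r (Fin.last M)) -
        m j * ∑ i : Fin M, (BB e δ i).indicator 1 (u j) *
          (Real.log (r i.succ) - Real.log (r i.castSucc)) := fun j => by ring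
    rw [Finset.sum_congr rfl fun j _ => h4 j, Finset.sum_sub_distrib, Finset.sum_add_distrib,
      ← Finset.sum_mul, ← Finset.sum_mul, h3]
  have hlast : W * Real.log (r (Fin.last M)) = W / ((M : ℝ) + 1) * (∑ m, Real.log (r m) +
        ∑ i : Fin M, ((i : ℝ) + 1) * (Real.log (r i.succ) - Real.log (r i.castSucc))) := by
    have h3 := sum_abel M (fun i => Real.log (r i))
    rw [← h3]
    field_simp
  have hqsum : ∑ i, q i * (Real.log (r i.succ) - Real.log (r i.castSucc)) =
      W / ((M : ℝ) + 1) *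
        ∑ i : Fin M, ((i : ℝ) + 1) * (Real.log (r i.succ) - Real.log (r i.castSucc)) -
      ∑ i : Fin M, mass u m (BB e δ i) * (Real.log (r i.succ) - Real.log (r i.castSucc)) := by
    rw [Finset.mul_sum, ← Finset.sum_sub_distrib]
    refine Finset.sum_congr rfl fun i _ => ?_
    simp only [hq]
    ring
  have hqs := Finset.sum_le_sum fun i (_ : i ∈ (Finset.univ : Finset (Fin M))) => hqi i
  rw [Finset.sum_sub_distrib, ← Finset.mul_sum, Finset.sum_const, Finset.card_univ,
    Fintype.card_fin, nsmul_eq_mul] at hqs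
  have hgaps : ∑ i : Fin M, (Real.log (r i.succ) - Real.log (r i.castSucc)) =
      Real.log (r (Fin.last M)) - Real.log (r 0) := by
    rw [← sum_gap M (fun i => Real.log (r i)) 0]
    refine Finset.sum_congr rfl fun i _ => ?_
    rw [if_pos (Fin.zero_le _)]
  rw [hgaps] at hqs
  have hvol := hCv K g e r hK hP hV
  have hvol' := mul_le_mul_of_nonneg_left hvol (show 0 ≤ W / ((M : ℝ) + 1) by positivity)
  have hB1 : -(W0 * |Real.log (c * δ)|) ≤ W * Real.log (c * δ) := by
    have h1 : W * |Real.log (c * δ)| ≤ W0 * |Real.log (c * δ)| :=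
      mul_le_mul_of_nonneg_right hW (abs_nonneg _)
    have h2 := mul_le_mul_of_nonneg_left (neg_abs_le (Real.log (c * δ))) hWn
    linarith
  have hB2 : W / ((M : ℝ) + 1) * Cv ≤ W0 * |Cv| := by
    have h1 : W / ((M : ℝ) + 1) ≤ W0 := by
      have h2 : W / ((M : ℝ) + 1) ≤ W := by
        apply div_le_self hWn
        have : (0 : ℝ) ≤ M := Nat.cast_nonneg M
        linarith
      linarith
    calc W / ((M : ℝ) + 1) * Cv ≤ W / ((M : ℝ) + 1) * |Cv| :=
          mul_le_mul_of_nonneg_left (le_abs_self _) (by positivity)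
      _ ≤ W0 * |Cv| := mul_le_mul_of_nonneg_right h1 (abs_nonneg _)
  rw [mul_add] at hvol' hlast
  linarith

end Pool.Agent.Lib.MP_abca01_gt.Link
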