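import Pool.Agent.Lib.MP_abca01_gt.Link.Crit
import Pool.Agent.Lib.MP_abca01_gt.Link.Thin

/-!
# Linking, 11: the solution of the discrete problem, with uniform bounds
-/

set_option autoImplicit false

open MeasureTheory Set Metric Filter Topology
open scoped RealInnerProductSpace Pointwise

namespace Pool.Agent.Lib.MP_abca01_gt.Link

open Ess

variable {E : Type} [NormedAddCommGroup E] [InnerProductSpace ℝ E] [FiniteDimensional ℝ E]
  [MeasurableSpace E] [BorelSpace E]
variable {ι : Type} [Fintype ι] {C : Set E} {u : ι → E} {i0 : ι} {A : ℝ}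

theorem Setup.segs_ge (h : Setup C u i0 A) (hn : 0 < Module.finrank ℝ E) (x : ι → ℝ)
    (ω : Set E) : ∑ i, VA C u x i * ω.indicator 1 (u i) ≤ volume.real (segs (BK C u x) ω) := by
  classical
  have : Nontrivial E := Module.nontrivial_of_finrank_pos hn
  have hsub : segs (BK C u x) ω ⊆ BK C u x := segs_subset (h.convex_BK x) (h.zero_mem x)
  have hfin : (volume : Measure E) (segs (BK C u x) ω) ≠ ⊤ :=
    measure_ne_top_of_subset hsub (h.isCompact_BK x).measure_lt_top.ne
  have h1 : (⋃ i ∈ Finset.univ.filter (fun i => u i ∈ ω), AK C u x i) ⊆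
      segs (BK C u x) ω ∪ {0} := by
    intro z hz
    obtain ⟨i, hi, hzi⟩ := mem_iUnion₂.1 hz
    by_cases hz0 : z = 0
    · exact Or.inr hz0
    · exact Or.inl (h.mem_segs hzi hz0 (Finset.mem_filter.1 hi).2)
  have h2 : (volume : Measure E) (⋃ i ∈ Finset.univ.filter (fun i => u i ∈ ω), AK C u x i) =
      ∑ i ∈ Finset.univ.filter (fun i => u i ∈ ω), volume (AK C u x i) :=
    measure_biUnion_finset₀ (fun i _ j _ hij => h.aedisjoint x hij)
      fun i _ => (h.isCompact_AK x i).measurableSet.nullMeasurableSet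
  have h3 : (volume : Measure E) (segs (BK C u x) ω ∪ {0}) ≤ volume (segs (BK C u x) ω) := by
    refine (measure_union_le _ _).trans ?_
    rw [measure_singleton, add_zero]
  have h4 : ∑ i ∈ Finset.univ.filter (fun i => u i ∈ ω), (volume : Measure E) (AK C u x i) ≤
      volume (segs (BK C u x) ω) := by
    rw [← h2]
    exact (measure_mono h1).trans h3
  have h5 := ENNReal.toReal_mono hfin h4
  rw [ENNReal.toReal_sum fun i _ => (h.isCompact_AK x i).measure_lt_top.ne,
    Finset.sum_filter] at h5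
  refine le_trans (le_of_eq ?_) h5
  refine Finset.sum_congr rfl fun i _ => ?_
  split_ifs with hi
  · rw [indicator_of_mem hi, Pi.one_apply, mul_one]
    rfl
  · rw [indicator_of_notMem hi, mul_zero]

/-- A uniform bound for critical points. -/
theorem Setup.bound (h : Setup C u i0 A) {M : ℕ} (hM : Module.finrank ℝ E = M + 1)
    {m : ι → ℝ} (hm : ∀ i, 0 < m i) {c B η : ℝ} (hc : 0 < c) (hη : 0 < η)
    (hpos : ∀ K : Set E, IsCompact K → Convex ℝ K → (interior K).Nonempty →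
      ∃ (g : E) (e : OrthonormalBasis (Fin (M + 1)) ℝ E) (r : Fin (M + 1) → ℝ), Pos c K g e r)
    (hlow : LowB C u m M c B η) {Λ W0 : ℝ} (hW : ∑ i, m i ≤ W0) {x : ι → ℝ}
    (hV : VV C u x ≤ W0) (hG : GG C u m x = 0) (hL : LL C u m x ≤ Λ) :
    BK C u x ⊆ closedBall 0 (2 * ((M : ℝ) + 1) * c⁻¹ *
      ((1 + W0 / volume.real (ball (0 : E) 1)) / c * Real.exp ((Λ + W0 + B) / η))) := by
  have hn : 0 < Module.finrank ℝ E := by omega
  have : Nontrivial E := Module.nontrivial_of_finrank_pos hn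
  have hKc := h.isCompact_BK x
  obtain ⟨g, e, r, hP⟩ := hpos (BK C u x) hKc (h.convex_BK x) (h.int_BK x)
  have hball : closedBall g (c * r 0) ⊆ BK C u x :=
    hP.ball_sub fun i => mul_le_mul_of_nonneg_left (hP.mono (Fin.zero_le i)) hc.le
  have hcr : 0 < c * r 0 := mul_pos hc (hP.pos 0)
  have hg : g ∈ interior (BK C u x) := mem_int hcr hball
  have h1 := h.low_LL hM hm (fun i => by
    rw [hG, Pi.zero_apply]
    exact (half_pos (hm i)).le) hg
  have h2 := hlow (BK C u x) g e r hKc (h.convex_BK x) (fun z hz => hz.1) (h.zero_mem x) hP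
  have h3 : η * (Real.log (r (Fin.last M)) - Real.log (r 0)) ≤ Λ + W0 + B := by
    unfold VV at h1
    linarith
  have h4 : Real.log (r (Fin.last M)) ≤ Real.log (r 0) + (Λ + W0 + B) / η := by
    have : Real.log (r (Fin.last M)) - Real.log (r 0) ≤ (Λ + W0 + B) / η := by
      rw [le_div_iff₀ hη, mul_comm]
      exact h3
    linarith
  have h5 : r (Fin.last M) ≤ r 0 * Real.exp ((Λ + W0 + B) / η) := by
    rw [← Real.exp_log (hP.pos (Fin.last M)), ← Real.exp_log (hP.pos 0), ← Real.exp_add]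
    exact Real.exp_le_exp.2 h4
  -- the inner radius
  have hκ : 0 < volume.real (ball (0 : E) 1) :=
    ENNReal.toReal_pos (measure_ball_pos volume _ one_pos).ne' measure_ball_lt_top.ne
  have h6 : (c * r 0) ^ Module.finrank ℝ E * volume.real (ball (0 : E) 1) ≤ W0 := by
    refine le_trans (le_of_eq ?_) ((measureReal_mono hball hKc.measure_lt_top.ne).trans hV)
    rw [measureReal_def, measureReal_def, Measure.addHaar_closedBall _ _ hcr.le,
      ENNReal.toReal_mul, ENNReal.toReal_ofReal (by positivity)]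
  have h7 : c * r 0 ≤ 1 + W0 / volume.real (ball (0 : E) 1) := by
    have hW0 : 0 ≤ W0 := le_trans (by positivity) h6
    rcases le_or_gt (c * r 0) 1 with h8 | h8
    · have : 0 ≤ W0 / volume.real (ball (0 : E) 1) := by positivity
      linarith
    · have h9 : c * r 0 ≤ (c * r 0) ^ Module.finrank ℝ E := le_self_pow₀ h8.le hn.ne'
      have h10 : (c * r 0) ^ Module.finrank ℝ E ≤ W0 / volume.real (ball (0 : E) 1) := by
        rw [le_div_iff₀ hκ]
        exact h6
      linarith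
  have h8 : r 0 ≤ (1 + W0 / volume.real (ball (0 : E) 1)) / c := by
    rw [le_div_iff₀ hc, mul_comm]
    exact h7
  have h9 : r (Fin.last M) ≤ (1 + W0 / volume.real (ball (0 : E) 1)) / c *
      Real.exp ((Λ + W0 + B) / η) :=
    h5.trans (mul_le_mul_of_nonneg_right h8 (Real.exp_pos _).le)
  intro z hz
  have h10 : ∀ z ∈ BK C u x, ‖z - g‖ ≤ ((M : ℝ) + 1) * (c⁻¹ * r (Fin.last M)) := by
    intro z hz
    have h6 := norm_le_sum e (z - g) (a := c⁻¹ * r (Fin.last M)) fun j =>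
      (hP.up z hz j).trans (mul_le_mul_of_nonneg_left (hP.mono (Fin.le_last j))
        (inv_pos.2 hc).le)
    push_cast at h6
    exact h6
  rw [mem_closedBall_zero_iff]
  have h11 : ‖z‖ ≤ ‖z - g‖ + ‖(0 : E) - g‖ := by
    calc ‖z‖ = ‖(z - g) - (0 - g)‖ := by congr 1; abel
      _ ≤ _ := norm_sub_le _ _
  have h12 := h10 z hz
  have h13 := h10 0 (h.zero_mem x)
  have h14 : 2 * ((M : ℝ) + 1) * c⁻¹ * r (Fin.last M) ≤ 2 * ((M : ℝ) + 1) * c⁻¹ *
      ((1 + W0 / volume.real (ball (0 : E) 1)) / c * Real.exp ((Λ + W0 + B) / η)) :=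
    mul_le_mul_of_nonneg_left h9 (by positivity)
  linarith

/-- **The discrete problem.** -/
theorem solve {v : E} (hv : ‖v‖ = 1) {ρ : ℝ} (hρ : 0 < ρ) {κ : Type} [Fintype κ] {e : κ → E}
    (he : Orthonormal ℝ e) (hev : ∀ k, ⟪e k, v⟫ = 0)
    (hex : ∀ w, ⟪v, w⟫ = 0 → w = ∑ k, ⟪e k, w⟫ • e k)
    {M : ℕ} (hM : Module.finrank ℝ E = M + 1) {c B η W0 : ℝ} (hc : 0 < c) (hη : 0 < η)
    (hpos : ∀ K : Set E, IsCompact K → Convex ℝ K → (interior K).Nonempty →
      ∃ (g : E) (e : OrthonormalBasis (Fin (M + 1)) ℝ E) (r : Fin (M + 1) → ℝ), Pos c K g e r) :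
    ∃ R : ℝ, ∀ (ι : Type) [Fintype ι] (u : ι → E) (m : ι → ℝ) (i0 : ι), (∀ i, ‖u i‖ = 1) →
      Function.Injective u → (∀ i, 0 ≤ ⟪u i, v⟫) → u i0 = v → (∀ k, ∃ i, u i = e k) →
      (∀ k, ∃ i, u i = -e k) → (∀ i, 0 < m i) → ∑ i, m i ≤ W0 →
      LowB (CC v ρ) u m M c B η →
      ∃ K : Set E, IsCompact K ∧ Convex ℝ K ∧ (0 : E) ∈ K ∧ K ⊆ closedBall 0 R ∧
        volume.real K = ∑ i, m i ∧
        ∀ ω : Set E, ∑ i, m i * ω.indicator 1 (u i) ≤ volume.real (segs K ω) := by
  set v0 : ℝ := volume.real (closedBall (0 : E) (rad ρ (Fintype.card κ))) with hv0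
  set Λ : ℝ := W0 / ((M : ℝ) + 1) * |Real.log v0| with hΛ
  refine ⟨2 * ((M : ℝ) + 1) * c⁻¹ *
      ((1 + W0 / volume.real (ball (0 : E) 1)) / c * Real.exp ((Λ + W0 + B) / η)), ?_⟩
  intro ι _ u m i0 hu hinj huv hi0 hip him hm hW hlow
  have hn : 0 < Module.finrank ℝ E := by omega
  have hn' : (0 : ℝ) < Module.finrank ℝ E := by exact_mod_cast hn
  have hS : Setup (CC v ρ) u i0 (1 + ρ) := setup_CC hv hρ hu hinj hi0
  have hWpos : 0 < ∑ i, m i := Finset.sum_pos (fun j _ => hm j) ⟨i0, Finset.mem_univ _⟩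
  obtain ⟨x, hx1, hx2⟩ := exists_crit hv hρ he hev hex hM hu hinj huv hi0 hip him hm hc hη
    hpos hlow
  have hx3 : LL (CC v ρ) u m x ≤ Λ := by
    refine hx2.trans ?_
    have h1 : -((∑ i, m i) / ((M : ℝ) + 1) * Real.log v0) ≤
        (∑ i, m i) / ((M : ℝ) + 1) * |Real.log v0| := by
      rw [← mul_neg]
      exact mul_le_mul_of_nonneg_left (neg_le_abs _) (by positivity)
    have h2 : (∑ i, m i) / ((M : ℝ) + 1) * |Real.log v0| ≤ Λ := by
      rw [hΛ]
      apply mul_le_mul_of_nonneg_right _ (abs_nonneg _)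
      exact div_le_div_of_nonneg_right hW (by positivity)
    exact h1.trans h2
  -- scaling
  have hV := hS.VV_pos x
  set s : ℝ := Real.log ((∑ i, m i) / VV (CC v ρ) u x) / Module.finrank ℝ E with hs
  set x' : ι → ℝ := fun j => x j + s with hx'
  have hes : Real.exp s ^ Module.finrank ℝ E = (∑ i, m i) / VV (CC v ρ) u x := by
    rw [← Real.exp_nat_mul, hs, mul_div_cancel₀ _ hn'.ne', Real.exp_log (by positivity)]
  have hVx' : VV (CC v ρ) u x' = ∑ i, m i := by
    rw [hx', hS.VV_shift, hes, div_mul_cancel₀ _ hV.ne']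
  have hGx' : GG (CC v ρ) u m x' = 0 := by
    rw [hx', hS.GG_shift, hx1]
  have hLx' : LL (CC v ρ) u m x' ≤ Λ := by
    rw [hx', hS.LL_shift hn]
    exact hx3
  have hVA : ∀ i, VA (CC v ρ) u x' i = m i := by
    intro i
    have h1 := congrFun hGx' i
    unfold GG at h1
    rw [Pi.zero_apply, hVx', mul_div_cancel₀ _ hWpos.ne'] at h1
    linarith
  refine ⟨BK (CC v ρ) u x', hS.isCompact_BK x', hS.convex_BK x', hS.zero_mem x',
    hS.bound hM hm hc hη hpos hlow hW (hVx'.le.trans hW) hGx' hLx', hVx', fun ω => ?_⟩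
  have h1 := hS.segs_ge hn x' ω
  simp only [hVA] at h1
  exact h1

end Pool.Agent.Lib.MP_abca01_gt.Link
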