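import Pool.Agent.Lib.MP_abca01_gt.Energy
import Pool.Agent.Lib.MP_abca01_gt.Cap

/-!
# Linking, 3: bodies in a cone cut out by finitely many halfspaces

* `gg u x i z = exp (-x i) * ⟪z, u i⟫`
* `BK C u x = {z ∈ C | ⟪z, u i⟫ ≤ exp (x i) for all i}`
* `AK C u x i`: the part of `BK C u x` above which the facet `i` lies.
-/

set_option autoImplicit false

open MeasureTheory Set Metric Filter Topology
open scoped RealInnerProductSpace Pointwise

namespace Pool.Agent.Lib.MP_abca01_gt.Link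

variable {E : Type} [NormedAddCommGroup E] [InnerProductSpace ℝ E]

noncomputable def gg {ι : Type} (u : ι → E) (x : ι → ℝ) (i : ι) (z : E) : ℝ :=
  Real.exp (-x i) * ⟪z, u i⟫

def BK {ι : Type} (C : Set E) (u : ι → E) (x : ι → ℝ) : Set E := {z | z ∈ C ∧ ∀ i, gg u x i z ≤ 1}

def AK {ι : Type} (C : Set E) (u : ι → E) (x : ι → ℝ) (i : ι) : Set E :=
  {z | z ∈ C ∧ gg u x i z ≤ 1 ∧ ∀ j, gg u x j z ≤ gg u x i z}

/-- The standing assumptions: `C` is a closed convex cone with interior points, on which one of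
the linear functionals `⟪·, u i⟫` dominates the norm. -/
structure Setup {ι : Type} (C : Set E) (u : ι → E) (i0 : ι) (A : ℝ) : Prop where
  unit : ∀ i, ‖u i‖ = 1
  inj : Function.Injective u
  closed : IsClosed C
  conv : Convex ℝ C
  zero : (0 : E) ∈ C
  cone : ∀ z ∈ C, ∀ t : ℝ, 0 ≤ t → t • z ∈ C
  int : (interior C).Nonempty
  pos : 0 < A
  bdd : ∀ z ∈ C, ‖z‖ ≤ A * ⟪z, u i0⟫

variable {ι : Type} {C : Set E} {u : ι → E} {i0 : ι} {A : ℝ}

theorem gg_le_one {x : ι → ℝ} {i : ι} {z : E} : gg u x i z ≤ 1 ↔ ⟪z, u i⟫ ≤ Real.exp (x i) := by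
  unfold gg
  rw [Real.exp_neg, inv_mul_le_iff₀ (Real.exp_pos _), mul_one]

theorem gg_smul (x : ι → ℝ) (i : ι) (t : ℝ) (z : E) : gg u x i (t • z) = t * gg u x i z := by
  unfold gg
  rw [real_inner_smul_left]
  ring

theorem continuous_gg (x : ι → ℝ) (i : ι) : Continuous (gg u x i) := by
  unfold gg
  fun_prop

theorem AK_subset (x : ι → ℝ) (i : ι) : AK C u x i ⊆ BK C u x :=
  fun _ hz => ⟨hz.1, fun j => (hz.2.2 j).trans hz.2.1⟩

theorem mem_BK {x : ι → ℝ} {z : E} : z ∈ BK C u x ↔ z ∈ C ∧ ∀ i, ⟪z, u i⟫ ≤ Real.exp (x i) := by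
  unfold BK
  simp only [mem_ofPred_eq, gg_le_one]

theorem Setup.norm_le (h : Setup C u i0 A) {x : ι → ℝ} {z : E} (hz : z ∈ BK C u x) :
    ‖z‖ ≤ A * Real.exp (x i0) :=
  (h.bdd z hz.1).trans (mul_le_mul_of_nonneg_left (gg_le_one.1 (hz.2 i0)) h.pos.le)

theorem Setup.zero_mem (h : Setup C u i0 A) (x : ι → ℝ) : (0 : E) ∈ BK C u x := by
  refine ⟨h.zero, fun i => ?_⟩
  unfold gg
  rw [inner_zero_left, mul_zero]
  exact zero_le_one

theorem Setup.isClosed_BK (h : Setup C u i0 A) (x : ι → ℝ) : IsClosed (BK C u x) := by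
  have h1 : BK C u x = C ∩ ⋂ i, {z | gg u x i z ≤ 1} := by
    ext z
    simp only [BK, mem_ofPred_eq, mem_inter_iff, mem_iInter]
  rw [h1]
  exact h.closed.inter (isClosed_iInter fun i => isClosed_le (continuous_gg x i) continuous_const)

theorem Setup.isClosed_AK (h : Setup C u i0 A) (x : ι → ℝ) (i : ι) : IsClosed (AK C u x i) := by
  have h1 : AK C u x i = C ∩ ({z | gg u x i z ≤ 1} ∩ ⋂ j, {z | gg u x j z ≤ gg u x i z}) := by
    ext z
    simp only [AK, mem_ofPred_eq, mem_inter_iff, mem_iInter]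
  rw [h1]
  exact h.closed.inter ((isClosed_le (continuous_gg x i) continuous_const).inter
    (isClosed_iInter fun j => isClosed_le (continuous_gg x j) (continuous_gg x i)))

theorem Setup.convex_BK (h : Setup C u i0 A) (x : ι → ℝ) : Convex ℝ (BK C u x) := by
  intro y hy z hz a b ha hb hab
  refine ⟨h.conv hy.1 hz.1 ha hb hab, fun i => ?_⟩
  have h1 : gg u x i (a • y + b • z) = a * gg u x i y + b * gg u x i z := by
    unfold gg
    rw [inner_add_left, real_inner_smul_left, real_inner_smul_left]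
    ring
  rw [h1]
  have h2 := mul_le_mul_of_nonneg_left (hy.2 i) ha
  have h3 := mul_le_mul_of_nonneg_left (hz.2 i) hb
  linarith

section fin

variable [FiniteDimensional ℝ E]

theorem Setup.isCompact_BK (h : Setup C u i0 A) (x : ι → ℝ) : IsCompact (BK C u x) := by
  apply Metric.isCompact_of_isClosed_isBounded (h.isClosed_BK x)
  refine (isBounded_closedBall (x := (0 : E)) (r := A * Real.exp (x i0))).subset fun z hz => ?_
  rw [mem_closedBall_zero_iff]
  exact h.norm_le hz

theorem Setup.isCompact_AK (h : Setup C u i0 A) (x : ι → ℝ) (i : ι) : IsCompact (AK C u x i) :=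
  (h.isCompact_BK x).of_isClosed_subset (h.isClosed_AK x i) (AK_subset x i)

end fin

/-- Dilations of the cells. -/
theorem Setup.smul_AK (h : Setup C u i0 A) {x : ι → ℝ} {i : ι} {z : E} (hz : z ∈ AK C u x i)
    {t : ℝ} (ht0 : 0 ≤ t) (ht1 : t ≤ 1) : t • z ∈ AK C u x i := by
  refine ⟨h.cone z hz.1 t ht0, ?_, fun j => ?_⟩
  · rw [gg_smul]
    rcases le_total (gg u x i z) 0 with h0 | h0
    · have := mul_nonpos_of_nonneg_of_nonpos ht0 h0
      linarith
    · exact (mul_le_of_le_one_left h0 ht1).trans hz.2.1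
  · rw [gg_smul, gg_smul]
    exact mul_le_mul_of_nonneg_left (hz.2.2 j) ht0

/-- A point of `AK` at which the functional is at most `s` is in `s • AK`. -/
theorem Setup.mem_smul_AK (h : Setup C u i0 A) {x : ι → ℝ} {i : ι} {z : E} (hz : z ∈ AK C u x i)
    {s : ℝ} (hs : 0 < s) (hzs : gg u x i z ≤ s) : z ∈ s • AK C u x i := by
  refine ⟨s⁻¹ • z, ⟨h.cone z hz.1 _ (inv_pos.2 hs).le, ?_, fun j => ?_⟩, by
    simp only
    rw [smul_inv_smul₀ hs.ne']⟩
  · rw [gg_smul, inv_mul_le_iff₀ hs, mul_one]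
    exact hzs
  · rw [gg_smul, gg_smul]
    exact mul_le_mul_of_nonneg_left (hz.2.2 j) (inv_pos.2 hs).le

section fintype

variable [Fintype ι]

theorem Setup.cover (_h : Setup C u i0 A) (x : ι → ℝ) : BK C u x = ⋃ i, AK C u x i := by
  apply Subset.antisymm
  · intro z hz
    have : Nonempty ι := ⟨i0⟩
    obtain ⟨i, hi⟩ := Finite.exists_max fun j => gg u x j z
    exact mem_iUnion.2 ⟨i, hz.1, hz.2 i, hi⟩
  · exact iUnion_subset fun i => AK_subset x i

/-- Moving the facets by `d`. -/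
theorem Setup.star_cover (h : Setup C u i0 A) (x d : ι → ℝ) :
    BK C u x ⊆ ⋃ i, Real.exp (-d i) • AK C u (x + d) i := by
  intro z hz
  have : Nonempty ι := ⟨i0⟩
  obtain ⟨i, hi⟩ := Finite.exists_max fun j => gg u (x + d) j z
  refine mem_iUnion.2 ⟨i, Real.exp (d i) • z, ⟨h.cone z hz.1 _ (Real.exp_pos _).le, ?_,
    fun j => ?_⟩, ?_⟩
  · rw [gg_smul]
    have h1 : Real.exp (d i) * gg u (x + d) i z = gg u x i z := by
      unfold gg
      rw [Pi.add_apply, neg_add, Real.exp_add, ← mul_assoc, ← mul_assoc,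
        mul_comm (Real.exp (d i)), mul_assoc (Real.exp (-x i)), ← Real.exp_add, add_neg_cancel,
        Real.exp_zero, mul_one]
    rw [h1]
    exact hz.2 i
  · rw [gg_smul, gg_smul]
    exact mul_le_mul_of_nonneg_left (hi j) (Real.exp_pos _).le
  · simp only
    rw [smul_smul, ← Real.exp_add, neg_add_cancel, Real.exp_zero, one_smul]

end fintype

section meas

variable [FiniteDimensional ℝ E] [MeasurableSpace E] [BorelSpace E]

theorem null_hyper {w : E} (hw : w ≠ 0) (c : ℝ) : (volume : Measure E) {z | ⟪z, w⟫ = c} = 0 := by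
  rcases ({z : E | ⟪z, w⟫ = c}).eq_empty_or_nonempty with h | ⟨p, hp⟩
  · rw [h, measure_empty]
  · have h1 : {z : E | ⟪z, w⟫ = c} =
        (fun z => z + -p) ⁻¹' (LinearMap.ker (innerₛₗ ℝ w) : Set E) := by
      ext z
      have hp' : ⟪p, w⟫ = c := hp
      simp only [mem_ofPred_eq, mem_preimage, SetLike.mem_coe, LinearMap.mem_ker,
        innerₛₗ_apply_apply]
      rw [inner_add_right, inner_neg_right, real_inner_comm z w, real_inner_comm p w, hp']
      constructor
      · intro hz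
        linarith
      · intro hz
        linarith
    rw [h1, measure_preimage_add_right]
    apply Measure.addHaar_submodule
    intro htop
    have h2 : w ∈ LinearMap.ker (innerₛₗ ℝ w) := by rw [htop]; trivial
    rw [LinearMap.mem_ker, innerₛₗ_apply_apply, real_inner_self_eq_norm_sq] at h2
    exact hw (norm_eq_zero.1 (pow_eq_zero_iff two_ne_zero |>.1 h2))

omit [FiniteDimensional ℝ E] [MeasurableSpace E] [BorelSpace E] in
theorem Setup.exp_ne (h : Setup C u i0 A) (x : ι → ℝ) {i j : ι} (hij : i ≠ j) :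
    Real.exp (-x j) • u j - Real.exp (-x i) • u i ≠ 0 := by
  intro h1
  rw [sub_eq_zero] at h1
  have h2 := congrArg norm h1
  rw [norm_smul, norm_smul, h.unit, h.unit, mul_one, mul_one, Real.norm_of_nonneg (Real.exp_pos _).le,
    Real.norm_of_nonneg (Real.exp_pos _).le] at h2
  rw [h2] at h1
  exact hij (h.inj (smul_right_injective E (Real.exp_pos _).ne' h1)).symm

/-- The values of two of the functionals are different almost everywhere. -/
theorem Setup.ae_ne (h : Setup C u i0 A) (x : ι → ℝ) {i j : ι} (hij : i ≠ j) :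
    ∀ᵐ z ∂(volume : Measure E), gg u x j z ≠ gg u x i z := by
  rw [ae_iff]
  refine measure_mono_null ?_ (null_hyper (h.exp_ne x hij) 0)
  intro z hz
  simp only [mem_ofPred_eq, not_not] at hz
  simp only [mem_ofPred_eq]
  rw [inner_sub_right, real_inner_smul_right, real_inner_smul_right]
  unfold gg at hz
  linarith

theorem Setup.ae_ne_one (h : Setup C u i0 A) (x : ι → ℝ) (i : ι) :
    ∀ᵐ z ∂(volume : Measure E), gg u x i z ≠ 1 := by
  rw [ae_iff]
  have hu : u i ≠ 0 := by
    intro h0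
    have := h.unit i
    rw [h0, norm_zero] at this
    exact zero_ne_one this
  refine measure_mono_null ?_ (null_hyper hu (Real.exp (x i)))
  intro z hz
  simp only [mem_ofPred_eq, not_not] at hz
  simp only [mem_ofPred_eq]
  unfold gg at hz
  rw [Real.exp_neg, inv_mul_eq_iff_eq_mul₀ (Real.exp_pos _).ne', mul_one] at hz
  exact hz

noncomputable def VV (C : Set E) (u : ι → E) (x : ι → ℝ) : ℝ := volume.real (BK C u x)

noncomputable def VA (C : Set E) (u : ι → E) (x : ι → ℝ) (i : ι) : ℝ := volume.real (AK C u x i)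

variable [Fintype ι]

theorem Setup.aedisjoint (h : Setup C u i0 A) (x : ι → ℝ) :
    Pairwise (Function.onFun (AEDisjoint (volume : Measure E)) (AK C u x)) := by
  intro i j hij
  have h1 := h.ae_ne x hij
  rw [ae_iff] at h1
  refine measure_mono_null ?_ h1
  rintro z ⟨hz1, hz2⟩
  simp only [mem_ofPred_eq, not_not]
  exact le_antisymm (hz1.2.2 j) (hz2.2.2 i)

theorem Setup.VV_eq (h : Setup C u i0 A) (x : ι → ℝ) : VV C u x = ∑ i, VA C u x i := by
  unfold VV VA
  rw [h.cover x, measureReal_def, measure_iUnion₀ (h.aedisjoint x)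
    fun i => (h.isCompact_AK x i).measurableSet.nullMeasurableSet, tsum_fintype,
    ENNReal.toReal_sum fun i _ => (h.isCompact_AK x i).measure_lt_top.ne]
  rfl

theorem Setup.star (h : Setup C u i0 A) (x d : ι → ℝ) :
    VV C u x ≤ ∑ i, Real.exp (-d i) ^ Module.finrank ℝ E * VA C u (x + d) i := by
  unfold VV VA
  refine (measureReal_mono (h.star_cover x d) ?_).trans ?_
  · refine ((measure_iUnion_fintype_le volume _).trans_lt ?_).ne
    rw [ENNReal.sum_lt_top]
    intro i _
    exact ((h.isCompact_AK (x + d) i).smul _).measure_lt_top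
  · refine (measureReal_iUnion_fintype_le _).trans (le_of_eq ?_)
    refine Finset.sum_congr rfl fun i _ => ?_
    rw [Energyaux.real_smul volume (Real.exp_pos _).le]

omit [Fintype ι] in
theorem Setup.VA_nonneg (x : ι → ℝ) (i : ι) : 0 ≤ VA C u x i := measureReal_nonneg

theorem Setup.exists_ball (h : Setup C u i0 A) (x : ι → ℝ) :
    ∃ (w : E) (r : ℝ), 0 < r ∧ closedBall w r ⊆ BK C u x := by
  obtain ⟨w, hw⟩ := h.int
  obtain ⟨ε, hε, hb⟩ := Metric.isOpen_iff.1 isOpen_interior w hw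
  have : Nonempty ι := ⟨i0⟩
  obtain ⟨i1, hi1⟩ := Finite.exists_min x
  set t : ℝ := Real.exp (x i1) / (‖w‖ + ε) with ht
  have hden : 0 < ‖w‖ + ε := by positivity
  have htpos : 0 < t := by positivity
  refine ⟨t • w, t * (ε / 2), by positivity, fun z hz => ?_⟩
  rw [mem_closedBall, dist_eq_norm] at hz
  have h1 : t⁻¹ • z ∈ ball w ε := by
    rw [mem_ball, dist_eq_norm]
    have h2 : t⁻¹ • z - w = t⁻¹ • (z - t • w) := by
      rw [smul_sub, smul_smul, inv_mul_cancel₀ htpos.ne', one_smul]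
    rw [h2, norm_smul, Real.norm_of_nonneg (inv_pos.2 htpos).le, inv_mul_lt_iff₀ htpos]
    have : t * (ε / 2) < t * ε := by nlinarith
    linarith
  have h2 : z ∈ C := by
    have h3 := h.cone _ (interior_subset (hb h1)) t htpos.le
    rwa [smul_inv_smul₀ htpos.ne'] at h3
  rw [mem_BK]
  refine ⟨h2, fun i => ?_⟩
  have h3 := real_inner_le_norm z (u i)
  rw [h.unit, mul_one] at h3
  have h4 : ‖z‖ ≤ t * (‖w‖ + ε) := by
    calc ‖z‖ = ‖t • w + (z - t • w)‖ := by congr 1; abel
      _ ≤ ‖t • w‖ + ‖z - t • w‖ := norm_add_le _ _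
      _ ≤ t * ‖w‖ + t * ε := by
        rw [norm_smul, Real.norm_of_nonneg htpos.le]
        have : t * (ε / 2) ≤ t * ε := by nlinarith
        linarith
      _ = t * (‖w‖ + ε) := by ring
  have h5 : t * (‖w‖ + ε) = Real.exp (x i1) := by
    rw [ht]
    field_simp
  have h6 := Real.exp_le_exp.2 (hi1 i)
  linarith

theorem Setup.VV_pos (h : Setup C u i0 A) (x : ι → ℝ) : 0 < VV C u x := by
  obtain ⟨w, r, hr, hb⟩ := h.exists_ball x
  unfold VV
  refine lt_of_lt_of_le ?_ (measureReal_mono hb (h.isCompact_BK x).measure_lt_top.ne)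
  exact ENNReal.toReal_pos (measure_closedBall_pos volume w hr).ne' measure_closedBall_lt_top.ne

theorem Setup.int_BK (h : Setup C u i0 A) (x : ι → ℝ) : (interior (BK C u x)).Nonempty :=
  Capaux.interior_nonempty volume (h.convex_BK x) (h.VV_pos x)

/-- The interior of a cell belongs to the facet. -/
theorem Setup.mem_segs (h : Setup C u i0 A) {x : ι → ℝ} {i : ι} {z : E} (hz : z ∈ AK C u x i)
    (hz0 : z ≠ 0) {ω : Set E} (hi : u i ∈ ω) : z ∈ segs (BK C u x) ω := by
  have h1 : 0 < gg u x i0 z := by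
    unfold gg
    have h2 := h.bdd z hz.1
    have h3 : 0 < ‖z‖ := norm_pos_iff.2 hz0
    have h4 : 0 < ⟪z, u i0⟫ := pos_of_mul_pos_right (lt_of_lt_of_le h3 h2) h.pos.le
    positivity
  have h2 : 0 < gg u x i z := lt_of_lt_of_le h1 (hz.2.2 i0)
  refine ⟨u i, hi, (gg u x i z)⁻¹ • z, ?_, fun y hy => ?_, gg u x i z, ⟨h2.le, hz.2.1⟩, ?_⟩
  · refine ⟨h.cone z hz.1 _ (inv_pos.2 h2).le, fun j => ?_⟩
    rw [gg_smul, inv_mul_le_iff₀ h2, mul_one]
    exact hz.2.2 j
  · have h3 : ⟪(gg u x i z)⁻¹ • z, u i⟫ = Real.exp (x i) := by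
      rw [real_inner_smul_left]
      have h4 : ⟪z, u i⟫ = Real.exp (x i) * gg u x i z := by
        unfold gg
        rw [← mul_assoc, ← Real.exp_add, add_neg_cancel, Real.exp_zero, one_mul]
      conv_lhs => rw [h4]
      field_simp
    rw [h3]
    exact (mem_BK.1 hy).2 i
  · rw [smul_inv_smul₀ h2.ne']

end meas

end Pool.Agent.Lib.MP_abca01_gt.Link
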